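import Pool.Agent.Work.MP_f2148a_nt.MC.Defs2

/-!
# MC/Half (size M): objects attached to points, two points each up to the exceptional ones

`R P e` means that the object `e` belongs to the point `P`. By `h1`, `h3` choose for `P ∈ S` the unique `φ(P) ∈ M` with
`R P (φ P)` (for `e ∈ M` with `R P e`, `e = φ P`); by `h2` `φ` maps `S` onto `M`; `S ⊆ As.pr K` is finite, so `M` is finite.
* `2 #M ≤ #S`: each `e ∈ M` has a `P ∈ S` with `φ P = e`, and `φ (P.1, -P.2) = e` by `h4` (with `(P.1, -P.2) ∈ S`,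
  different from `P` as `P.2 ≠ 0`), so all fibres of `φ` have at least two elements
  (`Finset.card_nsmul_le_card_of_...` / `Finset.mul_card_image_le_card`).
* `#S - #ex ≤ 2 #M`: let `S' = S \ ex K` and `k(P) = P.2² - P.1³`. If `P, Q ∈ S'` and `k(P) = k(Q)` then `Q = P` or
  `Q = (P.1, -P.2)` (otherwise `P ∈ ex K`), so the fibres of `k` on `S'` have at most 2 elements and `#S' ≤ 2 #k(S')`. By
  `h5` `φ P` determines `k(P)`, so `#k(S') ≤ #φ(S') ≤ #M`. (Or directly: the fibres of `φ` on `S'` have at most two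
  elements, by `h5`.)
Hence `(#S - #ex)/2 ≤ #M ≤ #S/2`. (`ex K ⊆ As.pr K` is finite.)
-/

set_option autoImplicit false

namespace Pool.Agent.Work.MP_f2148a_nt.MC

theorem half {γ : Type*} {K : ℝ} (hpr : (As.pr K).Finite) (S : Set (ℤ × ℤ)) (M : Set γ) (R : ℤ × ℤ → γ → Prop)
    (hS : ∀ P ∈ S, P ∈ As.pr K ∧ P.2 ≠ 0 ∧ (P.1, -P.2) ∈ S)
    (h1 : ∀ P ∈ S, ∃ e ∈ M, R P e) (h2 : ∀ e ∈ M, ∃ P ∈ S, R P e)
    (h3 : ∀ P ∈ S, ∀ e e' : γ, R P e → R P e' → e = e') (h4 : ∀ P ∈ S, ∀ e : γ, R P e → R (P.1, -P.2) e)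
    (h5 : ∀ P ∈ S, ∀ Q ∈ S, ∀ e : γ, R P e → R Q e → P.2 ^ 2 - P.1 ^ 3 = Q.2 ^ 2 - Q.1 ^ 3) :
    M.Finite ∧ |((M.ncard : ℕ) : ℝ) - ((S.ncard : ℕ) : ℝ) / 2| ≤ ((ex K).ncard : ℕ) := by
  classical
  rcases S.eq_empty_or_nonempty with hSe | ⟨P0, hP0⟩
  · have hMe : M = ∅ := by
      rw [Set.eq_empty_iff_forall_notMem]
      intro e he
      obtain ⟨P, hP, _⟩ := h2 e he
      rw [hSe] at hP
      exact hP
    rw [hMe, hSe]
    refine ⟨Set.finite_empty, ?_⟩
    simp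
  have : Nonempty γ := by
    obtain ⟨e, _, _⟩ := h1 P0 hP0
    exact ⟨e⟩
  choose! φ hφM hφR using h1
  have hSfin : S.Finite := hpr.subset fun P hP => (hS P hP).1
  have hexfin : (ex K).Finite := hpr.subset fun P hP => hP.1
  obtain ⟨Sf, hSf⟩ : ∃ Sf : Finset (ℤ × ℤ), (Sf : Set (ℤ × ℤ)) = S := ⟨hSfin.toFinset, hSfin.coe_toFinset⟩
  obtain ⟨Ef, hEf⟩ : ∃ Ef : Finset (ℤ × ℤ), (Ef : Set (ℤ × ℤ)) = ex K := ⟨hexfin.toFinset, hexfin.coe_toFinset⟩
  have hSm : ∀ P, P ∈ Sf ↔ P ∈ S := fun P => by rw [← hSf, Finset.mem_coe]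
  have hEm : ∀ P, P ∈ Ef ↔ P ∈ ex K := fun P => by rw [← hEf, Finset.mem_coe]
  have hMim : M = ((Sf.image φ : Finset γ) : Set γ) := by
    ext e
    rw [Finset.mem_coe, Finset.mem_image]
    constructor
    · intro he
      obtain ⟨P, hP, hR⟩ := h2 e he
      exact ⟨P, (hSm P).mpr hP, h3 P hP _ _ (hφR P hP) hR⟩
    · rintro ⟨P, hP, rfl⟩
      exact hφM P ((hSm P).mp hP)
  have hMc : M.ncard = (Sf.image φ).card := by rw [hMim, Set.ncard_coe_finset]
  have hSc : S.ncard = Sf.card := by rw [← hSf, Set.ncard_coe_finset]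
  have hEc : (ex K).ncard = Ef.card := by rw [← hEf, Set.ncard_coe_finset]
  have hneg : ∀ P ∈ S, φ (P.1, -P.2) = φ P := by
    intro P hP
    exact h3 _ (hS P hP).2.2 _ _ (hφR _ (hS P hP).2.2) (h4 P hP _ (hφR P hP))
  -- two elements in each fibre
  have ha : 2 * (Sf.image φ).card ≤ Sf.card := by
    refine Finset.mul_card_image_le_card Sf 2 fun e he => ?_
    obtain ⟨P, hP, rfl⟩ := Finset.mem_image.mp he
    have hPS := (hSm P).mp hP
    have : 1 < (Sf.filter fun x => φ x = φ P).card := by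
      rw [Finset.one_lt_card]
      refine ⟨P, Finset.mem_filter.mpr ⟨hP, rfl⟩, (P.1, -P.2), Finset.mem_filter.mpr
        ⟨(hSm _).mpr (hS P hPS).2.2, hneg P hPS⟩, ?_⟩
      intro h
      have h6 : P.2 = -P.2 := congrArg Prod.snd h
      exact (hS P hPS).2.1 (by omega)
    exact this
  -- at most two elements which are not exceptional
  have hb : (Sf \ Ef).card ≤ 2 * ((Sf \ Ef).image φ).card := by
    refine Finset.card_le_mul_card_image _ 2 fun e he => ?_
    obtain ⟨P, hP, rfl⟩ := Finset.mem_image.mp he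
    rw [Finset.mem_sdiff] at hP
    have hPS := (hSm P).mp hP.1
    have hsub : ((Sf \ Ef).filter fun x => φ x = φ P) ⊆ {P, (P.1, -P.2)} := by
      intro Q hQ
      rw [Finset.mem_filter, Finset.mem_sdiff] at hQ
      have hQS := (hSm Q).mp hQ.1.1
      rw [Finset.mem_insert, Finset.mem_singleton]
      by_contra hcon
      rw [not_or] at hcon
      apply hP.2
      rw [hEm]
      refine ⟨(hS P hPS).1, Q, ?_, hcon.1, hcon.2⟩
      have hR := hφR Q hQS
      rw [hQ.2] at hR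
      exact h5 Q hQS P hPS (φ P) hR (hφR P hPS)
    exact (Finset.card_le_card hsub).trans Finset.card_le_two
  have hc : ((Sf \ Ef).image φ).card ≤ (Sf.image φ).card :=
    Finset.card_le_card (Finset.image_subset_image Finset.sdiff_subset)
  have hd : Sf.card ≤ (Sf \ Ef).card + Ef.card := by
    have h6 : Sf ⊆ (Sf \ Ef) ∪ Ef := by
      intro P hP
      rw [Finset.mem_union, Finset.mem_sdiff]
      by_cases h : P ∈ Ef
      · exact Or.inr h
      · exact Or.inl ⟨hP, h⟩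
    exact (Finset.card_le_card h6).trans (Finset.card_union_le _ _)
  refine ⟨by rw [hMim]; exact Finset.finite_toSet _, ?_⟩
  rw [hMc, hSc, hEc]
  have ha' : (2 : ℝ) * ((Sf.image φ).card : ℝ) ≤ (Sf.card : ℝ) := by exact_mod_cast ha
  have hb' : Sf.card ≤ 2 * (Sf.image φ).card + Ef.card := by omega
  have hb'' : (Sf.card : ℝ) ≤ 2 * ((Sf.image φ).card : ℝ) + (Ef.card : ℝ) := by exact_mod_cast hb'
  have h7 : (0 : ℝ) ≤ (Ef.card : ℝ) := Nat.cast_nonneg _
  rw [abs_le]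
  constructor <;> linarith

/-- the simpler form for an upper bound: `#M ≤ #S` -/
theorem inj_le {γ : Type*} (S : Set (ℤ × ℤ)) (hS : S.Finite) (M : Set γ) (R : ℤ × ℤ → γ → Prop)
    (h2 : ∀ e ∈ M, ∃ P ∈ S, R P e) (h3 : ∀ P ∈ S, ∀ e e' : γ, R P e → R P e' → e = e') :
    M.Finite ∧ M.ncard ≤ S.ncard := by
  choose! ψ hψS hψR using h2
  have hinj : Set.InjOn ψ M := by
    intro e he e' he' h
    have h4 := hψR e' he'
    rw [← h] at h4
    exact h3 _ (hψS e he) _ _ (hψR e he) h4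
  exact ⟨Set.Finite.of_injOn hψS hinj hS, Set.ncard_le_ncard_of_injOn ψ hψS hinj hS⟩

end Pool.Agent.Work.MP_f2148a_nt.MC
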