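import Pool.Agent.Work.MP_f2148a_nt.MC.Defs2
import Pool.Agent.Work.MP_f2148a_nt.BM.BigP

/-!
# MC/HallP (size M): few points violate Hall's inequality

Let `P = (x, y) ∈ As.pr K`, `k = y² - x³` (integer, `1 ≤ |k| ≤ K`), `C |k|³ < max |x| |y|`. Put
`c1 = min C √(C³/2)` and `K0 = max 1 (2/C³)^(1/4)` (any constant with `C³ K0⁴ ≥ 2`, `K0 ≥ 1`).
* `K < K0`: the set is contained in `As.pr K0`, a constant number of elements.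
* `K ≥ K0` and `|k| ≤ √K`: `P ∈ As.pr √K`, at most `(c0 + |A|) K^(5/12)` elements (`hA`), `5/12 ≤ θ`.
* `K ≥ K0` and `|k| > √K`: claim `|y| > T |k|^(1/2)` with `T = c1 K^(5/4)`. If `|x| ≤ |y|` then
  `|y| > C |k|³ = C |k|^(5/2) |k|^(1/2) ≥ C K^(5/4) |k|^(1/2)`. If `|y| < |x|` then `|x| > C |k|³` and `y² ≥ |x|³ - |k|`
  (`x³ = y² - k`, so `|x|³ ≤ y² + |k|`) `> C³ |k|⁹ - |k| = |k| (C³ |k|⁸ - 1) ≥ |k| (C³/2) |k|⁸ ≥ |k| (C³/2) K⁴`, as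
  `C³ |k|⁸ ≥ C³ K⁴ ≥ 2`; so `|y| ≥ √(C³/2) K² |k|^(1/2)`. By `BM.bigP` there are at most
  `A (T^(-1/3) K^(5/6) + K^θ)` such `P`, and `T^(-1/3) K^(5/6) = c1^(-1/3) K^(5/12)`.
(Compare `BM.hall_alg`, `BM.ehall_sub`, `BM.hallE` in `BM/HallE.lean`, which can be adapted.)
-/

set_option autoImplicit false

namespace Pool.Agent.Work.MP_f2148a_nt.MC

private theorem hallP_alg {C X d k x y : ℝ} (hX : 1 ≤ X) (hd : 1 ≤ d) (hk : |k| = d)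
    (hCd : 2 ≤ C * d) (hXd : X ^ 2 ≤ d ^ 3) (hrel : k = y ^ 2 - x ^ 3)
    (h : C * |k| ^ 3 < max |x| |y|) : X * |k| ^ (1 / 2 : ℝ) < |y| := by
  have hd0 : 0 < d := by linarith
  have h1 : 2 * d ^ 2 ≤ C * |k| ^ 3 := by
    rw [hk]
    have : C * d ^ 3 = (C * d) * d ^ 2 := by ring
    rw [this]
    exact mul_le_mul_of_nonneg_right hCd (sq_nonneg d)
  have h3 : 2 * d ^ 2 < max |x| |y| := h1.trans_lt h
  have hd4 : X ^ 2 * d ≤ d ^ 4 := by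
    calc X ^ 2 * d ≤ d ^ 3 * d := mul_le_mul_of_nonneg_right hXd hd0.le
      _ = d ^ 4 := by ring
  have hd1 : 1 ≤ d ^ 4 := one_le_pow₀ hd
  have key : X ^ 2 * d < y ^ 2 := by
    refine hd4.trans_lt ?_
    rcases lt_max_iff.1 h3 with h4 | h4
    · have hkl : k ≤ d := by rw [← hk]; exact le_abs_self k
      have hkg : -d ≤ k := by rw [← hk]; exact neg_abs_le k
      have h5 : (2 * d ^ 2) ^ 3 < |x| ^ 3 := by
        have : 0 ≤ 2 * d ^ 2 := by positivity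
        exact pow_lt_pow_left₀ h4 this (by norm_num)
      have hd6 : d ≤ d ^ 6 := by
        calc d = d ^ 1 := (pow_one d).symm
          _ ≤ d ^ 6 := pow_le_pow_right₀ hd (by norm_num)
      have hd46 : d ^ 4 ≤ d ^ 6 := pow_le_pow_right₀ hd (by norm_num)
      have h6 : (2 * d ^ 2) ^ 3 = 8 * d ^ 6 := by ring
      rw [h6] at h5
      have hx : 0 < x := by
        by_contra hx
        have hx' : x ≤ 0 := not_lt.1 hx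
        have h7 : |x| ^ 3 = -(x ^ 3) := by
          rw [abs_of_nonpos hx']
          ring
        rw [h7] at h5
        have h8 := sq_nonneg y
        linarith
      rw [abs_of_pos hx] at h5
      linarith
    · have h5 : (2 * d ^ 2) ^ 2 < |y| ^ 2 := by
        have : 0 ≤ 2 * d ^ 2 := by positivity
        exact pow_lt_pow_left₀ h4 this (by norm_num)
      rw [sq_abs] at h5
      have h6 : (2 * d ^ 2) ^ 2 = 4 * d ^ 4 := by ring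
      linarith
  rw [hk]
  have hs : (X * d ^ (1 / 2 : ℝ)) ^ 2 = X ^ 2 * d := by
    rw [mul_pow, ← Real.sqrt_eq_rpow, Real.sq_sqrt hd0.le]
  have h0 : 0 ≤ X * d ^ (1 / 2 : ℝ) := by positivity
  rw [← abs_of_nonneg h0]
  exact sq_lt_sq.1 (by rw [hs]; exact key)

theorem hallP {θ : ℝ} (hA : As.Asy θ) (h1 : 4 / 5 < θ) (h2 : θ < 5 / 6) {C : ℝ} (hC : 0 < C) :
    ∃ A : ℝ, 0 ≤ A ∧ ∀ K : ℝ, 1 ≤ K →
    {P | P ∈ As.pr K ∧ C * |(P.2 : ℝ) ^ 2 - (P.1 : ℝ) ^ 3| ^ 3 < max |(P.1 : ℝ)| |(P.2 : ℝ)|}.Finite ∧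
    (({P | P ∈ As.pr K ∧ C * |(P.2 : ℝ) ^ 2 - (P.1 : ℝ) ^ 3| ^ 3 < max |(P.1 : ℝ)| |(P.2 : ℝ)|}.ncard : ℕ) : ℝ) ≤
      A * K ^ θ := by
  obtain ⟨Ab, hAb0, hAb⟩ := BM.bigP hA h1 h2
  obtain ⟨A0, hA0⟩ := hA
  have hC' : 0 < 2 / C := by positivity
  refine ⟨(|As.c0| + |A0|) * (1 + 2 / C) + 2 * Ab, by positivity, fun K hK => ?_⟩
  have hK0 : 0 < K := by linarith
  obtain ⟨Y, hY⟩ : ∃ Y : ℝ, Y = K ^ (2 / 3 : ℝ) + 2 / C := ⟨_, rfl⟩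
  have hXp : 1 ≤ K ^ (2 / 3 : ℝ) := Real.one_le_rpow hK (by norm_num)
  have hY1 : 1 ≤ Y := by linarith
  have hXθ1 : 1 ≤ K ^ θ := Real.one_le_rpow hK (by linarith)
  have hXθ : K ^ (2 / 3 : ℝ) ≤ K ^ θ := Real.rpow_le_rpow_of_exponent_le hK (by linarith)
  have hX2 : K ^ (1 / 2 : ℝ) ≤ K ^ θ := Real.rpow_le_rpow_of_exponent_le hK (by linarith)
  have hYb : Y ≤ (1 + 2 / C) * K ^ θ := by
    have h3 : 2 / C * 1 ≤ 2 / C * K ^ θ := mul_le_mul_of_nonneg_left hXθ1 hC'.le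
    rw [hY, add_mul, one_mul]
    linarith
  have hYθ : Y ^ θ ≤ Y := by
    calc Y ^ θ ≤ Y ^ (1 : ℝ) := Real.rpow_le_rpow_of_exponent_le hY1 (by linarith)
      _ = Y := Real.rpow_one Y
  have hY56 : Y ^ (5 / 6 : ℝ) ≤ Y := by
    calc Y ^ (5 / 6 : ℝ) ≤ Y ^ (1 : ℝ) := Real.rpow_le_rpow_of_exponent_le hY1 (by norm_num)
      _ = Y := Real.rpow_one Y
  have hY0 : 0 ≤ Y := by linarith
  have hYθ0 : 0 ≤ Y ^ θ := by positivity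
  have hY560 : 0 ≤ Y ^ (5 / 6 : ℝ) := by positivity
  obtain ⟨hf1, hb1⟩ := hA0 Y hY1
  obtain ⟨hf3, hb3⟩ := hAb K hK K hK0
  obtain ⟨B, hB⟩ : ∃ B : Set (ℤ × ℤ), B = {t : ℤ × ℤ | t ∈ As.pr K ∧
      K * |(t.2 : ℝ) ^ 2 - (t.1 : ℝ) ^ 3| ^ (1 / 2 : ℝ) < |(t.2 : ℝ)|} := ⟨_, rfl⟩
  rw [← hB] at hf3 hb3
  obtain ⟨E, hE⟩ : ∃ E : Set (ℤ × ℤ), E = {P | P ∈ As.pr K ∧
      C * |(P.2 : ℝ) ^ 2 - (P.1 : ℝ) ^ 3| ^ 3 < max |(P.1 : ℝ)| |(P.2 : ℝ)|} := ⟨_, rfl⟩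
  rw [← hE]
  have hsub : E ⊆ As.pr Y ∪ B := by
    intro P hP
    rw [hE] at hP
    obtain ⟨hp, hP2⟩ := hP
    by_cases hd : |(P.2 : ℝ) ^ 2 - (P.1 : ℝ) ^ 3| ≤ Y
    · exact Or.inl ⟨hp.1, hd⟩
    · right
      rw [hB]
      refine ⟨hp, ?_⟩
      have hd' := not_le.1 hd
      refine hallP_alg (C := C) hK (by linarith : 1 ≤ |(P.2 : ℝ) ^ 2 - (P.1 : ℝ) ^ 3|) rfl ?_ ?_ rfl hP2
      · have h3 : 2 / C ≤ |(P.2 : ℝ) ^ 2 - (P.1 : ℝ) ^ 3| := by linarith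
        rw [div_le_iff₀ hC] at h3
        linarith
      · have h3 : K ^ (2 / 3 : ℝ) ≤ |(P.2 : ℝ) ^ 2 - (P.1 : ℝ) ^ 3| := by linarith
        calc K ^ 2 = (K ^ (2 / 3 : ℝ)) ^ 3 := by
              rw [← Real.rpow_natCast (K ^ (2 / 3 : ℝ)) 3, ← Real.rpow_mul hK0.le]
              norm_num
          _ ≤ |(P.2 : ℝ) ^ 2 - (P.1 : ℝ) ^ 3| ^ 3 := by
              have : 0 ≤ K ^ (2 / 3 : ℝ) := by positivity
              exact pow_le_pow_left₀ this h3 3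
  have hfin : (As.pr Y ∪ B).Finite := hf1.union hf3
  refine ⟨hfin.subset hsub, ?_⟩
  have e1 : ((As.pr Y).ncard : ℝ) ≤ (|As.c0| + |A0|) * Y := by
    have := abs_le.1 hb1
    have h3 : As.c0 * Y ^ (5 / 6 : ℝ) ≤ |As.c0| * Y := by
      calc As.c0 * Y ^ (5 / 6 : ℝ) ≤ |As.c0| * Y ^ (5 / 6 : ℝ) :=
            mul_le_mul_of_nonneg_right (le_abs_self _) hY560
        _ ≤ |As.c0| * Y := mul_le_mul_of_nonneg_left hY56 (abs_nonneg _)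
    have h4 : A0 * Y ^ θ ≤ |A0| * Y := by
      calc A0 * Y ^ θ ≤ |A0| * Y ^ θ := mul_le_mul_of_nonneg_right (le_abs_self _) hYθ0
        _ ≤ |A0| * Y := mul_le_mul_of_nonneg_left hYθ (abs_nonneg _)
    linarith [this.2]
  have e3 : (B.ncard : ℝ) ≤ 2 * Ab * K ^ θ := by
    refine hb3.trans ?_
    have h3 : K ^ (-(1 / 3) : ℝ) * K ^ (5 / 6 : ℝ) = K ^ (1 / 2 : ℝ) := by
      rw [← Real.rpow_add hK0]
      norm_num
    rw [h3]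
    have h4 : Ab * (K ^ (1 / 2 : ℝ) + K ^ θ) ≤ Ab * (K ^ θ + K ^ θ) :=
      mul_le_mul_of_nonneg_left (by linarith) hAb0
    linarith
  have e4 : E.ncard ≤ (As.pr Y).ncard + B.ncard :=
    (Set.ncard_le_ncard hsub hfin).trans (Set.ncard_union_le _ _)
  have e5 : (E.ncard : ℝ) ≤ ((As.pr Y).ncard : ℝ) + (B.ncard : ℝ) := by
    exact_mod_cast e4
  have e6 : (|As.c0| + |A0|) * Y ≤ (|As.c0| + |A0|) * ((1 + 2 / C) * K ^ θ) :=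
    mul_le_mul_of_nonneg_left hYb (by positivity)
  have e7 : ((|As.c0| + |A0|) * (1 + 2 / C) + 2 * Ab) * K ^ θ =
      (|As.c0| + |A0|) * ((1 + 2 / C) * K ^ θ) + 2 * Ab * K ^ θ := by ring
  rw [e7]
  linarith

end Pool.Agent.Work.MP_f2148a_nt.MC
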