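import Pool.Agent.Work.MP_f2148a_nt.MC.FlB
import Pool.Agent.Work.MP_f2148a_nt.MC.HallP
import Pool.Agent.Work.MP_f2148a_nt.MC.Half

/-!
# MC/HallF (size S-M): few monogenic cubic fields violate Hall's inequality

For `e` in the set let `F, α, t0` be as in its definition; with `σ` the sign of `discr F` (`discr F ≠ 0`,
`NumberField.discr_ne_zero`), `gen_gg` gives `t = nf t0 ∈ GG σ X` with `pt t = pt t0 = (x, y)`, `Fl t e`, and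
`y² - x³ = -432 D t0 = -432 discr F` (`pt_id`), so `(x, y) ∈ As.pr (432 X)` and it is in the set of `hallP` for `K = 432 X`.
Use `inj_le` of `MC/Half` with `S` = the set of `hallP`, `R P e := ∃ t : Tr, Nm t ∧ Mx t ∧ Ir t ∧ pt t = P ∧ Fl t e` (`pt_inj`,
`fl_unique`). `(432 X)^θ = 432^θ X^θ`.
-/

set_option autoImplicit false

namespace Pool.Agent.Work.MP_f2148a_nt.MC

open Polynomial NumberField

/-- the relation between points and fields -/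
private def RR (P : ℤ × ℤ) (e : Cl) : Prop := ∃ t : Tr, Nm t ∧ Mx t ∧ Ir t ∧ pt t = P ∧ Fl t e

private theorem RR_fun {P : ℤ × ℤ} {e e' : Cl} (h : RR P e) (h' : RR P e') : e = e' := by
  obtain ⟨t, h1, h2, h3, h4, h5⟩ := h
  obtain ⟨s, k1, k2, k3, k4, k5⟩ := h'
  have e1 : t = s := pt_inj h1 k1 (h4.trans k4.symm)
  subst e1
  exact fl_unique h3 h5 k5

private theorem gen_gg' {X : ℝ} (F : CF) (α : 𝓞 F.1) (hG : Gen F α) (t0 : Tr) (ht0 : minpoly ℤ α = pl t0)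
    (h2 : |(NumberField.discr F.1 : ℝ)| ≤ X) :
    ∃ σ : ℝ, (σ = 1 ∨ σ = -1) ∧ nf t0 ∈ GG σ X ∧ Fl (nf t0) ⟦F⟧ ∧ pt (nf t0) = pt t0 ∧
      D t0 = NumberField.discr F.1 ∧ Ir t0 := by
  have h0 : NumberField.discr F.1 ≠ 0 := NumberField.discr_ne_zero F.1
  rcases lt_or_gt_of_ne h0 with h | h
  · have h' : (NumberField.discr F.1 : ℝ) < 0 := by exact_mod_cast h
    rw [abs_of_neg h'] at h2
    exact ⟨-1, Or.inr rfl, gen_gg F α hG t0 ht0 (by linarith) (by linarith)⟩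
  · have h' : (0 : ℝ) < (NumberField.discr F.1 : ℝ) := by exact_mod_cast h
    rw [abs_of_pos h'] at h2
    exact ⟨1, Or.inl rfl, gen_gg F α hG t0 ht0 (by linarith) (by linarith)⟩

theorem hallF {θ : ℝ} (hA : As.Asy θ) (h1 : 4 / 5 < θ) (h2 : θ < 5 / 6) {C : ℝ} (hC : 0 < C) :
    ∃ A : ℝ, 0 ≤ A ∧ ∀ X : ℝ, 1 ≤ X →
    {e : Cl | ∃ F : CF, e = ⟦F⟧ ∧ |(discr F.1 : ℝ)| ≤ X ∧ ∃ (α : 𝓞 F.1) (t : Tr), Gen F α ∧ minpoly ℤ α = pl t ∧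
      C * |432 * (discr F.1 : ℝ)| ^ 3 < max |(fx t : ℝ)| |(fy t : ℝ)|}.Finite ∧
    (({e : Cl | ∃ F : CF, e = ⟦F⟧ ∧ |(discr F.1 : ℝ)| ≤ X ∧ ∃ (α : 𝓞 F.1) (t : Tr), Gen F α ∧ minpoly ℤ α = pl t ∧
      C * |432 * (discr F.1 : ℝ)| ^ 3 < max |(fx t : ℝ)| |(fy t : ℝ)|}.ncard : ℕ) : ℝ) ≤ A * X ^ θ := by
  obtain ⟨A, hA0, H⟩ := hallP hA h1 h2 hC
  refine ⟨A * 432 ^ θ, by positivity, fun X hX => ?_⟩
  have hX0 : 0 < X := by linarith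
  have hK : 1 ≤ 432 * X := by linarith
  obtain ⟨hf, hb⟩ := H (432 * X) hK
  have key := inj_le _ hf {e : Cl | ∃ F : CF, e = ⟦F⟧ ∧ |(discr F.1 : ℝ)| ≤ X ∧ ∃ (α : 𝓞 F.1) (t : Tr), Gen F α ∧
      minpoly ℤ α = pl t ∧ C * |432 * (discr F.1 : ℝ)| ^ 3 < max |(fx t : ℝ)| |(fy t : ℝ)|} RR ?_ ?_
  · refine ⟨key.1, ?_⟩
    have h3 : (({e : Cl | ∃ F : CF, e = ⟦F⟧ ∧ |(discr F.1 : ℝ)| ≤ X ∧ ∃ (α : 𝓞 F.1) (t : Tr), Gen F α ∧
      minpoly ℤ α = pl t ∧ C * |432 * (discr F.1 : ℝ)| ^ 3 < max |(fx t : ℝ)| |(fy t : ℝ)|}.ncard : ℕ) : ℝ) ≤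
      (({P | P ∈ As.pr (432 * X) ∧ C * |(P.2 : ℝ) ^ 2 - (P.1 : ℝ) ^ 3| ^ 3 < max |(P.1 : ℝ)| |(P.2 : ℝ)|}.ncard : ℕ) : ℝ) := by
      exact_mod_cast key.2
    refine h3.trans (hb.trans ?_)
    rw [Real.mul_rpow (by norm_num) hX0.le, mul_assoc]
  · rintro e ⟨F, he, hD, α, t0, hG, ht0, hv⟩
    obtain ⟨σ, hσ, hg, hfl, hp, hDt, hI⟩ := gen_gg' F α hG t0 ht0 hD
    refine ⟨pt t0, ⟨?_, ?_⟩, nf t0, hg.1.1, hg.2.1, hg.2.2, hp, by rw [he]; exact hfl⟩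
    · have hk : (pt t0).2 ^ 2 - (pt t0).1 ^ 3 = -432 * D t0 := pt_id t0
      have hk' : ((pt t0).2 : ℝ) ^ 2 - ((pt t0).1 : ℝ) ^ 3 = -432 * (D t0 : ℝ) := by exact_mod_cast hk
      refine ⟨?_, ?_⟩
      · intro h
        have h0 : NumberField.discr F.1 ≠ 0 := NumberField.discr_ne_zero F.1
        rw [← hDt] at h0
        apply h0
        have : (pt t0).2 ^ 2 - (pt t0).1 ^ 3 = 0 := by rw [h, sub_self]
        omega
      · rw [hk', abs_mul, hDt]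
        have : |(-432 : ℝ)| = 432 := by norm_num
        rw [this]
        linarith
    · have hk : (pt t0).2 ^ 2 - (pt t0).1 ^ 3 = -432 * D t0 := pt_id t0
      have hk' : ((pt t0).2 : ℝ) ^ 2 - ((pt t0).1 : ℝ) ^ 3 = -432 * (D t0 : ℝ) := by exact_mod_cast hk
      rw [hk', hDt]
      have : |(-432 : ℝ) * (NumberField.discr F.1 : ℝ)| = |432 * (NumberField.discr F.1 : ℝ)| := by
        rw [neg_mul, abs_neg]
      rw [this]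
      exact hv
  · intro P _ e e' h h'
    exact RR_fun h h'

end Pool.Agent.Work.MP_f2148a_nt.MC
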