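import Pool.Agent.Work.MP_f2148a_nt.MC.Defs2
import Pool.Agent.Work.MP_f2148a_nt.As.Two

/-!
# MC/Exc (size M): few points have a partner

Let `F = (As.pr K)` as a finset, `k(P) = P.2² - P.1³` (an integer, `0 < |k| ≤ K` on `F`), `N(k)` the number of `P ∈ F` with
`k(P) = k` (these are all integer points of `y² = x³ + k`), `e(k)` the number of those in `ex K`, `z(k)` the number of
those with `P.2 = 0`. The values `k(P)`, `P ∈ F`, are exactly the elements of `As.sol K`. Claim: for `k ∈ sol K`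
`e(k) ≤ 3 (N(k) - 2 + z(k))` (integers). The fibre is closed under `(x, y) ↦ (x, -y)`.
* `N = 1`: the point has `y = 0`, so `z = 1`, and `e = 0` (a partner would be a second point of the fibre).
* `N = 2`: if `e > 0` then some `P` of the fibre has a partner `Q ≠ P`, `Q ≠ -P`; then the fibre is `{P, Q}` and contains
  `-P`, so `-P = P`, and `-Q = Q`, so both have `y = 0` and `x³ = -k`, `P = Q`, a contradiction. So `e = 0 ≤ 3 z`.
* `N ≥ 3`: `e ≤ N ≤ 3 (N - 2)`.
Sum over `k ∈ sol K`: `#ex ≤ 3 (#pr - 2 #sol + #Z)` with `Z = {P ∈ pr K : P.2 = 0}`, `#Z ≤ 3 K^(1/3)` (`As.card_zero`),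
`#pr = c0 K^(5/6) + O(K^θ)` (`hA`), `#sol = c0/2 K^(5/6) + O(K^θ)` (`As.cnt hA h1`), and `1/3 ≤ θ`.
(Compare the proof of `As.card_two` in `As/Two.lean`.)
-/

set_option autoImplicit false

namespace Pool.Agent.Work.MP_f2148a_nt.MC

theorem exc {θ : ℝ} (hA : As.Asy θ) (h1 : 4 / 5 < θ) : ∃ A : ℝ, 0 ≤ A ∧ ∀ K : ℝ, 1 ≤ K →
    (ex K).Finite ∧ (((ex K).ncard : ℕ) : ℝ) ≤ A * K ^ θ := by
  classical
  obtain ⟨A1, hA1⟩ := As.cnt hA h1
  obtain ⟨A0, hA0⟩ := hA
  refine ⟨2 * |A0| + 4 * |A1| + 6, by positivity, fun K hK => ?_⟩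
  obtain ⟨hfin, hasy⟩ := hA0 K hK
  obtain ⟨hsfin, hsasy⟩ := hA1 K hK
  have htfin : (ex K).Finite := hfin.subset fun P hP => hP.1
  refine ⟨htfin, ?_⟩
  set F : Finset (ℤ × ℤ) := hfin.toFinset with hFdef
  have hFm : ∀ t, t ∈ F ↔ t ∈ As.pr K := fun t => Set.Finite.mem_toFinset _
  have hFc : (As.pr K).ncard = F.card := Set.ncard_eq_toFinset_card _ hfin
  rw [hFc] at hasy
  set S : Finset ℤ := hsfin.toFinset with hSdef
  have hSm : ∀ t, t ∈ S ↔ t ∈ As.sol K := fun t => Set.Finite.mem_toFinset _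
  have hSc : (As.sol K).ncard = S.card := Set.ncard_eq_toFinset_card _ hsfin
  rw [hSc] at hsasy
  set E : Finset (ℤ × ℤ) := htfin.toFinset with hEdef
  have hEm : ∀ t, t ∈ E ↔ t ∈ ex K := fun t => Set.Finite.mem_toFinset _
  have hEc : (ex K).ncard = E.card := Set.ncard_eq_toFinset_card _ htfin
  rw [hEc]
  set φ : ℤ × ℤ → ℤ := fun t => t.2 ^ 2 - t.1 ^ 3 with hφ
  set P := F.filter fun t => 0 ≤ t.2 with hP
  have hsym : ∀ t ∈ F, (t.1, -t.2) ∈ F := by
    intro t ht
    rw [hFm] at ht ⊢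
    obtain ⟨h1, h2⟩ := ht
    refine ⟨by simpa using h1, ?_⟩
    simpa using h2
  have hhalf := As.card_half F hsym
  have hZ := As.card_zero hK (F.filter fun t => t.2 = 0) (fun t ht => by
    rw [Finset.mem_filter, hFm] at ht
    exact ht)
  have hmapsF : ∀ t ∈ F, φ t ∈ S := by
    intro t ht
    rw [hFm] at ht
    rw [hSm]
    refine ⟨sub_ne_zero.mpr ht.1, ?_, t.1, t.2, by simp only [hφ]; ring⟩
    have := ht.2
    simp only [hφ]
    push_cast
    exact this
  have hmaps : ∀ t ∈ P, φ t ∈ S := fun t ht => hmapsF t (Finset.mem_filter.mp ht).1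
  have hmapsE : ∀ t ∈ E, φ t ∈ S := fun t ht => hmapsF t ((hFm t).mpr ((hEm t).mp ht).1)
  have hcount : E.card + 4 * S.card ≤ 4 * P.card := by
    rw [Finset.card_eq_sum_card_fiberwise hmaps, Finset.card_eq_sum_card_fiberwise hmapsE]
    have h1 : 4 * S.card = ∑ k ∈ S, 4 := by
      rw [Finset.sum_const, smul_eq_mul, mul_comm]
    rw [h1, ← Finset.sum_add_distrib, Finset.mul_sum]
    apply Finset.sum_le_sum
    intro k hk
    have hk' := hk
    rw [hSm] at hk
    obtain ⟨h0, hkK, x, y, hxy⟩ := hk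
    obtain ⟨m1, m2⟩ := As.mem_pr_abs h0 hkK hxy
    have hmem : ((x, |y|) : ℤ × ℤ) ∈ P.filter fun t => φ t = k := by
      rw [Finset.mem_filter, hP, Finset.mem_filter, hFm]
      exact ⟨⟨m1, abs_nonneg _⟩, m2⟩
    have hpos : 0 < (P.filter fun t => φ t = k).card := Finset.card_pos.2 ⟨_, hmem⟩
    rcases (E.filter fun t => φ t = k).eq_empty_or_nonempty with hEe | ⟨t, ht⟩
    · rw [hEe, Finset.card_empty]
      omega
    · rw [Finset.mem_filter, hEm] at ht
      obtain ⟨⟨htp, Q, hQ1, hQ2, hQ3⟩, htk⟩ := ht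
      have htk' : t.2 ^ 2 - t.1 ^ 3 = k := htk
      obtain ⟨n1, n2⟩ := As.mem_pr_abs (x := t.1) (y := t.2) h0 hkK (by linarith)
      obtain ⟨l1, l2⟩ := As.mem_pr_abs (x := Q.1) (y := Q.2) h0 hkK (by linarith)
      have h2 : 1 < (P.filter fun t => φ t = k).card := by
        rw [Finset.one_lt_card]
        refine ⟨(t.1, |t.2|), ?_, (Q.1, |Q.2|), ?_, ?_⟩
        · rw [Finset.mem_filter, hP, Finset.mem_filter, hFm]
          exact ⟨⟨n1, abs_nonneg _⟩, n2⟩
        · rw [Finset.mem_filter, hP, Finset.mem_filter, hFm]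
          exact ⟨⟨l1, abs_nonneg _⟩, l2⟩
        · intro h
          obtain ⟨h3, h4⟩ := Prod.mk.inj h
          rcases abs_eq_abs.mp h4 with h5 | h5
          · exact hQ2 (Prod.ext h3.symm h5.symm)
          · refine hQ3 (Prod.ext h3.symm ?_)
            show Q.2 = -t.2
            rw [h5, neg_neg]
      have h3 : (E.filter fun t => φ t = k) ⊆ (P.filter fun t => φ t = k) ∪
          (P.filter fun t => φ t = k).image (fun t => ((t.1, -t.2) : ℤ × ℤ)) := by
        intro r hr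
        rw [Finset.mem_filter, hEm] at hr
        have hrF : r ∈ F := (hFm r).mpr hr.1.1
        rw [Finset.mem_union]
        rcases le_total 0 r.2 with h4 | h4
        · left
          rw [Finset.mem_filter, hP, Finset.mem_filter]
          exact ⟨⟨hrF, h4⟩, hr.2⟩
        · right
          rw [Finset.mem_image]
          refine ⟨(r.1, -r.2), ?_, ?_⟩
          · rw [Finset.mem_filter, hP, Finset.mem_filter]
            refine ⟨⟨hsym r hrF, ?_⟩, ?_⟩
            · show 0 ≤ -r.2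
              omega
            · have h5 : r.2 ^ 2 - r.1 ^ 3 = k := hr.2
              show (-r.2) ^ 2 - r.1 ^ 3 = k
              rw [neg_sq, h5]
          · simp
      have h4 := (Finset.card_le_card h3).trans (Finset.card_union_le _ _)
      have h5 : ((P.filter fun t => φ t = k).image (fun t => ((t.1, -t.2) : ℤ × ℤ))).card ≤
          (P.filter fun t => φ t = k).card := Finset.card_image_le
      omega
  have hK0 : (0 : ℝ) < K := by linarith
  have hcount' : (E.card : ℝ) + 4 * S.card ≤ 4 * P.card := by exact_mod_cast hcount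
  have hhalf' : (F.card : ℝ) + ((F.filter fun t => t.2 = 0).card : ℝ) = 2 * (P.card : ℝ) := by
    exact_mod_cast hhalf
  have hpow : 0 ≤ K ^ θ := Real.rpow_nonneg hK0.le _
  have h13 : K ^ (1 / 3 : ℝ) ≤ K ^ θ := Real.rpow_le_rpow_of_exponent_le hK (by linarith)
  have b0 : A0 * K ^ θ ≤ |A0| * K ^ θ := mul_le_mul_of_nonneg_right (le_abs_self _) hpow
  have b1 : A1 * K ^ θ ≤ |A1| * K ^ θ := mul_le_mul_of_nonneg_right (le_abs_self _) hpow
  have c1 := (abs_le.1 hasy).2
  have c2 := (abs_le.1 hsasy).1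
  have e1 : (2 * |A0| + 4 * |A1| + 6) * K ^ θ = 2 * (|A0| * K ^ θ) + 4 * (|A1| * K ^ θ) + 6 * K ^ θ := by
    ring
  rw [e1]
  linarith

end Pool.Agent.Work.MP_f2148a_nt.MC
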