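import Pool.Agent.Work.MP_f2148a_nt.MC.FlB
import Pool.Agent.Work.MP_f2148a_nt.MC.Exc
import Pool.Agent.Work.MP_f2148a_nt.MC.Half

/-!
# MC/TwoF (size M): few monogenic cubic fields have two essentially different generators

For `e` in the set let `F, α, β` be as in its definition, `minpoly ℤ α = pl t0`, `minpoly ℤ β = pl s0` (`minp`, so `Ir t0`, `Ir s0`), and
`t = nf t0`, `s = nf s0` (`gen_gg` with `σ` the sign of `discr F`), `P = pt t`, `Q = pt s`. Both points are on the curve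
`y² = x³ - 432 discr F`. `Q ≠ P`: otherwise `t = s` (`pt_inj`), so `s0 = sh m t0` for an integer `m` (`nf` is a translate:
`sh_sh`, `sh_zero`), and `minpoly ℤ β = pl (sh m t0) = minpoly ℤ (α + (-m))` by `minp_add`, excluded. `Q ≠ (P.1, -P.2)`:
otherwise `s = nf (rf t0)` (`pt_rf`, `pt_nf`, `pt_inj`), so `s0 = sh m (rf t0)` and
`minpoly ℤ β = minpoly ℤ (-α + (-m))` (`minp_neg`, `minp_add`), excluded. So `P ∈ ex (432 X)`. Use `inj_le` of `MC/Half` with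
`S = ex (432 X)`, `R P e := ∃ t : Tr, Nm t ∧ Mx t ∧ Ir t ∧ pt t = P ∧ Fl t e`, and `exc`.
-/

set_option autoImplicit false

namespace Pool.Agent.Work.MP_f2148a_nt.MC

open Polynomial NumberField

/-- the relation between points and fields -/
private def RR (P : ℤ × ℤ) (e : Cl) : Prop := ∃ t : Tr, Nm t ∧ Mx t ∧ Ir t ∧ pt t = P ∧ Fl t e

private theorem RR_fun {P : ℤ × ℤ} {e e' : Cl} (h : RR P e) (h' : RR P e') : e = e' := by
  obtain ⟨t, h1, h2, h3, h4, h5⟩ := h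
  obtain ⟨s, k1, k2, k3, k4, k5⟩ := h'
  have e1 : t = s := pt_inj h1 k1 (h4.trans k4.symm)
  subst e1
  exact fl_unique h3 h5 k5

private theorem gen_gg' {X : ℝ} (F : CF) (α : 𝓞 F.1) (hG : Gen F α) (t0 : Tr) (ht0 : minpoly ℤ α = pl t0)
    (h2 : |(NumberField.discr F.1 : ℝ)| ≤ X) :
    ∃ σ : ℝ, (σ = 1 ∨ σ = -1) ∧ nf t0 ∈ GG σ X ∧ Fl (nf t0) ⟦F⟧ ∧ pt (nf t0) = pt t0 ∧
      D t0 = NumberField.discr F.1 ∧ Ir t0 := by
  have h0 : NumberField.discr F.1 ≠ 0 := NumberField.discr_ne_zero F.1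
  rcases lt_or_gt_of_ne h0 with h | h
  · have h' : (NumberField.discr F.1 : ℝ) < 0 := by exact_mod_cast h
    rw [abs_of_neg h'] at h2
    exact ⟨-1, Or.inr rfl, gen_gg F α hG t0 ht0 (by linarith) (by linarith)⟩
  · have h' : (0 : ℝ) < (NumberField.discr F.1 : ℝ) := by exact_mod_cast h
    rw [abs_of_pos h'] at h2
    exact ⟨1, Or.inl rfl, gen_gg F α hG t0 ht0 (by linarith) (by linarith)⟩

/-- two triples with the same normal form are translates -/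
private theorem nf_tr {t s : Tr} (h : nf t = nf s) : ∃ m : ℤ, s = sh m t := by
  have h1 : sh (s.1 / 3) (nf s) = s := by
    rw [nf, sh_sh]
    have : -(s.1 / 3) + s.1 / 3 = 0 := by ring
    rw [this, sh_zero]
  refine ⟨-(t.1 / 3) + s.1 / 3, ?_⟩
  rw [← sh_sh, ← h1]
  conv_lhs => rw [← h]
  rw [h1]
  rfl

theorem twoF {θ : ℝ} (hA : As.Asy θ) (h1 : 4 / 5 < θ) : ∃ A : ℝ, 0 ≤ A ∧ ∀ X : ℝ, 1 ≤ X →
    {e : Cl | ∃ F : CF, e = ⟦F⟧ ∧ |(discr F.1 : ℝ)| ≤ X ∧ ∃ α β : 𝓞 F.1, Gen F α ∧ Gen F β ∧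
      ∀ n : ℤ, minpoly ℤ β ≠ minpoly ℤ (α + (n : 𝓞 F.1)) ∧
        minpoly ℤ β ≠ minpoly ℤ (-α + (n : 𝓞 F.1))}.Finite ∧
    (({e : Cl | ∃ F : CF, e = ⟦F⟧ ∧ |(discr F.1 : ℝ)| ≤ X ∧ ∃ α β : 𝓞 F.1, Gen F α ∧ Gen F β ∧
      ∀ n : ℤ, minpoly ℤ β ≠ minpoly ℤ (α + (n : 𝓞 F.1)) ∧
        minpoly ℤ β ≠ minpoly ℤ (-α + (n : 𝓞 F.1))}.ncard : ℕ) : ℝ) ≤ A * X ^ θ := by
  obtain ⟨A, hA0, H⟩ := exc hA h1
  refine ⟨A * 432 ^ θ, by positivity, fun X hX => ?_⟩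
  have hX0 : 0 < X := by linarith
  have hK : 1 ≤ 432 * X := by linarith
  obtain ⟨hf, hb⟩ := H (432 * X) hK
  have key := inj_le _ hf {e : Cl | ∃ F : CF, e = ⟦F⟧ ∧ |(discr F.1 : ℝ)| ≤ X ∧ ∃ α β : 𝓞 F.1, Gen F α ∧ Gen F β ∧
      ∀ n : ℤ, minpoly ℤ β ≠ minpoly ℤ (α + (n : 𝓞 F.1)) ∧
        minpoly ℤ β ≠ minpoly ℤ (-α + (n : 𝓞 F.1))} RR ?_ ?_
  · refine ⟨key.1, ?_⟩
    have h3 : (({e : Cl | ∃ F : CF, e = ⟦F⟧ ∧ |(discr F.1 : ℝ)| ≤ X ∧ ∃ α β : 𝓞 F.1, Gen F α ∧ Gen F β ∧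
      ∀ n : ℤ, minpoly ℤ β ≠ minpoly ℤ (α + (n : 𝓞 F.1)) ∧
        minpoly ℤ β ≠ minpoly ℤ (-α + (n : 𝓞 F.1))}.ncard : ℕ) : ℝ) ≤ (((ex (432 * X)).ncard : ℕ) : ℝ) := by
      exact_mod_cast key.2
    refine h3.trans (hb.trans ?_)
    rw [Real.mul_rpow (by norm_num) hX0.le, mul_assoc]
  · rintro e ⟨F, he, hD, α, β, hα, hβ, hne⟩
    obtain ⟨t0, ht0, -⟩ := minp F α hα
    obtain ⟨s0, hs0, -⟩ := minp F β hβ
    obtain ⟨σ, hσ, hg, hfl, hp, hDt, hI⟩ := gen_gg' F α hα t0 ht0 hD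
    obtain ⟨σ', hσ', hg', hfl', hp', hDs, hI'⟩ := gen_gg' F β hβ s0 hs0 hD
    refine ⟨pt t0, ⟨?_, pt s0, ?_, ?_, ?_⟩, nf t0, hg.1.1, hg.2.1, hg.2.2, hp, by rw [he]; exact hfl⟩
    · have hk : (pt t0).2 ^ 2 - (pt t0).1 ^ 3 = -432 * D t0 := pt_id t0
      have hk' : ((pt t0).2 : ℝ) ^ 2 - ((pt t0).1 : ℝ) ^ 3 = -432 * (D t0 : ℝ) := by exact_mod_cast hk
      refine ⟨?_, ?_⟩
      · intro h
        have h0 : NumberField.discr F.1 ≠ 0 := NumberField.discr_ne_zero F.1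
        rw [← hDt] at h0
        apply h0
        have : (pt t0).2 ^ 2 - (pt t0).1 ^ 3 = 0 := by rw [h, sub_self]
        omega
      · rw [hk', abs_mul, hDt]
        have : |(-432 : ℝ)| = 432 := by norm_num
        rw [this]
        linarith
    · have k1 : (pt t0).2 ^ 2 - (pt t0).1 ^ 3 = -432 * D t0 := pt_id t0
      have k2 : (pt s0).2 ^ 2 - (pt s0).1 ^ 3 = -432 * D s0 := pt_id s0
      rw [k1, k2, hDt, hDs]
    · intro h
      have h4 : nf t0 = nf s0 := pt_inj (nm_nf _) (nm_nf _) (by rw [hp, hp', h])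
      obtain ⟨m, hm⟩ := nf_tr h4
      apply (hne (-m)).1
      rw [minp_add F α t0 hI ht0, hs0, hm, neg_neg]
    · intro h
      have h4 : nf (rf t0) = nf s0 := by
        refine pt_inj (nm_nf _) (nm_nf _) ?_
        rw [pt_nf_rf, hp', h]
      obtain ⟨m, hm⟩ := nf_tr h4
      apply (hne (-m)).2
      rw [minp_add F (-α) (rf t0) ((ir_rf t0).2 hI) (minp_neg F α t0 hI ht0), hs0, hm, neg_neg]
  · intro P _ e e' h h'
    exact RR_fun h h'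

end Pool.Agent.Work.MP_f2148a_nt.MC
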