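import Pool.Agent.Work.MP_f2148a_nt.MC.CountF
import Pool.Agent.Work.MP_f2148a_nt.MC.HallF
import Pool.Agent.Work.MP_f2148a_nt.MC.TwoF
import Pool.Agent.Work.MP_f2148a_nt.BM.Asyq

/-!
# MC/Final: assembly
-/

set_option autoImplicit false

namespace Pool.Agent.Work.MP_f2148a_nt.MC

open MeasureTheory NumberField

theorem ar_one : BM.ar 1 =
    (volume {p : ℝ × ℝ | 0 ≤ p.2 ^ 2 - p.1 ^ 3 ∧ p.2 ^ 2 - p.1 ^ 3 ≤ 1}).toReal := by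
  simp only [BM.ar, one_mul]

theorem ar_neg_one : BM.ar (-1) =
    (volume {p : ℝ × ℝ | 0 ≤ p.1 ^ 3 - p.2 ^ 2 ∧ p.1 ^ 3 - p.2 ^ 2 ≤ 1}).toReal := by
  simp only [BM.ar, neg_mul, one_mul, neg_sub]

theorem mono_one (x : ℝ) : Mono 1 x = {e : Cl | ∃ F : CF, e = ⟦F⟧ ∧ 0 < discr F.1 ∧ (discr F.1 : ℝ) ≤ x ∧
    ∃ α : 𝓞 F.1, Algebra.adjoin ℤ {α} = ⊤} := by
  ext e
  simp only [Mono, Gen, Set.mem_setOf_eq, one_mul, Int.cast_pos]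

theorem mono_neg_one (x : ℝ) : Mono (-1) x = {e : Cl | ∃ F : CF, e = ⟦F⟧ ∧ discr F.1 < 0 ∧ -x ≤ (discr F.1 : ℝ) ∧
    ∃ α : 𝓞 F.1, Algebra.adjoin ℤ {α} = ⊤} := by
  ext e
  simp only [Mono, Gen, Set.mem_setOf_eq, neg_mul, one_mul, Left.neg_pos_iff, Int.cast_lt_zero, neg_le (b := x)]

theorem hall_set (B x : ℝ) : {e : Cl | ∃ F : CF, e = ⟦F⟧ ∧ |(discr F.1 : ℝ)| ≤ x ∧ ∃ (α : 𝓞 F.1) (t : Tr), Gen F α ∧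
      minpoly ℤ α = pl t ∧ B * |432 * (discr F.1 : ℝ)| ^ 3 < max |(fx t : ℝ)| |(fy t : ℝ)|} =
    {e : Cl | ∃ F : CF, e = ⟦F⟧ ∧ |(discr F.1 : ℝ)| ≤ x ∧ ∃ (α : 𝓞 F.1) (a b c : ℤ), Algebra.adjoin ℤ {α} = ⊤ ∧
      minpoly ℤ α = Polynomial.X ^ 3 + Polynomial.C a * Polynomial.X ^ 2 + Polynomial.C b * Polynomial.X +
        Polynomial.C c ∧
      B * |432 * (discr F.1 : ℝ)| ^ 3 <
        max |4 * ((a : ℝ) ^ 2 - 3 * b)| |4 * (-2 * (a : ℝ) ^ 3 + 9 * a * b - 27 * c)|} := by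
  have key : ∀ a b c : ℤ, (fx (a, b, c) : ℝ) = 4 * ((a : ℝ) ^ 2 - 3 * b) ∧
      (fy (a, b, c) : ℝ) = 4 * (-2 * (a : ℝ) ^ 3 + 9 * a * b - 27 * c) := by
    intro a b c
    constructor
    · simp only [fx]; push_cast; ring
    · simp only [fy]; push_cast; ring
  ext e
  constructor
  · rintro ⟨F, he, h1, α, ⟨a, b, c⟩, h2, h3, h4⟩
    rw [(key a b c).1, (key a b c).2] at h4
    exact ⟨F, he, h1, α, a, b, c, h2, h3, h4⟩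
  · rintro ⟨F, he, h1, α, a, b, c, h2, h3, h4⟩
    refine ⟨F, he, h1, α, (a, b, c), h2, h3, ?_⟩
    rw [(key a b c).1, (key a b c).2]
    exact h4

theorem final {θ : ℝ} (hA : As.Asy θ) (h1 : 4 / 5 < θ) (h2 : θ < 5 / 6) :
    ∃ δ : ℝ, 0 < δ ∧
    -- Hall's inequality for the generators of all but few of the monogenic cubic fields
    (∀ B : ℝ, 0 < B → ∃ A : ℝ, ∀ x : ℝ, 1 ≤ x →
      {e : Cl | ∃ F : CF, e = ⟦F⟧ ∧ |(discr F.1 : ℝ)| ≤ x ∧ ∃ (α : 𝓞 F.1) (a b c : ℤ),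
        Algebra.adjoin ℤ {α} = ⊤ ∧
        minpoly ℤ α = Polynomial.X ^ 3 + Polynomial.C a * Polynomial.X ^ 2 + Polynomial.C b * Polynomial.X +
          Polynomial.C c ∧
        B * |432 * (discr F.1 : ℝ)| ^ 3 <
          max |4 * ((a : ℝ) ^ 2 - 3 * b)| |4 * (-2 * (a : ℝ) ^ 3 + 9 * a * b - 27 * c)|}.Finite ∧
      ({e : Cl | ∃ F : CF, e = ⟦F⟧ ∧ |(discr F.1 : ℝ)| ≤ x ∧ ∃ (α : 𝓞 F.1) (a b c : ℤ),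
        Algebra.adjoin ℤ {α} = ⊤ ∧
        minpoly ℤ α = Polynomial.X ^ 3 + Polynomial.C a * Polynomial.X ^ 2 + Polynomial.C b * Polynomial.X +
          Polynomial.C c ∧
        B * |432 * (discr F.1 : ℝ)| ^ 3 <
          max |4 * ((a : ℝ) ^ 2 - 3 * b)| |4 * (-2 * (a : ℝ) ^ 3 + 9 * a * b - 27 * c)|}.ncard : ℝ) ≤
        A * x ^ (5 / 6 - δ)) ∧
    -- all but few of them have one generator, up to sign, translation by integers and conjugation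
    (∃ A : ℝ, ∀ x : ℝ, 1 ≤ x →
      {e : Cl | ∃ F : CF, e = ⟦F⟧ ∧ |(discr F.1 : ℝ)| ≤ x ∧ ∃ α β : 𝓞 F.1,
        Algebra.adjoin ℤ {α} = ⊤ ∧ Algebra.adjoin ℤ {β} = ⊤ ∧
        ∀ n : ℤ, minpoly ℤ β ≠ minpoly ℤ (α + (n : 𝓞 F.1)) ∧
          minpoly ℤ β ≠ minpoly ℤ (-α + (n : 𝓞 F.1))}.Finite ∧
      ({e : Cl | ∃ F : CF, e = ⟦F⟧ ∧ |(discr F.1 : ℝ)| ≤ x ∧ ∃ α β : 𝓞 F.1,
        Algebra.adjoin ℤ {α} = ⊤ ∧ Algebra.adjoin ℤ {β} = ⊤ ∧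
        ∀ n : ℤ, minpoly ℤ β ≠ minpoly ℤ (α + (n : 𝓞 F.1)) ∧
          minpoly ℤ β ≠ minpoly ℤ (-α + (n : 𝓞 F.1))}.ncard : ℝ) ≤ A * x ^ (5 / 6 - δ)) ∧
    -- the number of the monogenic cubic fields, up to isomorphism
    ∃ cp cm : ℝ, 0 < cp ∧ 0 < cm ∧
    cp = (volume {p : ℝ × ℝ | 0 ≤ p.1 ^ 3 - p.2 ^ 2 ∧ p.1 ^ 3 - p.2 ^ 2 ≤ 1}).toReal ∧
    cm = (volume {p : ℝ × ℝ | 0 ≤ p.2 ^ 2 - p.1 ^ 3 ∧ p.2 ^ 2 - p.1 ^ 3 ≤ 1}).toReal ∧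
    ∃ A : ℝ, ∀ x : ℝ, 1 ≤ x →
      ({e : Cl | ∃ F : CF, e = ⟦F⟧ ∧ 0 < discr F.1 ∧ (discr F.1 : ℝ) ≤ x ∧
          ∃ α : 𝓞 F.1, Algebra.adjoin ℤ {α} = ⊤}.Finite ∧
        |({e : Cl | ∃ F : CF, e = ⟦F⟧ ∧ 0 < discr F.1 ∧ (discr F.1 : ℝ) ≤ x ∧
          ∃ α : 𝓞 F.1, Algebra.adjoin ℤ {α} = ⊤}.ncard : ℝ) -
          √3 / (2 ^ (2 / 3 : ℝ) * Real.pi ^ 2) * cp * x ^ (5 / 6 : ℝ)| ≤ A * x ^ (5 / 6 - δ)) ∧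
      {e : Cl | ∃ F : CF, e = ⟦F⟧ ∧ discr F.1 < 0 ∧ -x ≤ (discr F.1 : ℝ) ∧
          ∃ α : 𝓞 F.1, Algebra.adjoin ℤ {α} = ⊤}.Finite ∧
        |({e : Cl | ∃ F : CF, e = ⟦F⟧ ∧ discr F.1 < 0 ∧ -x ≤ (discr F.1 : ℝ) ∧
          ∃ α : 𝓞 F.1, Algebra.adjoin ℤ {α} = ⊤}.ncard : ℝ) -
          √3 / (2 ^ (2 / 3 : ℝ) * Real.pi ^ 2) * cm * x ^ (5 / 6 : ℝ)| ≤ A * x ^ (5 / 6 - δ) := by
  have hQ : BM.AsyQ θ := BM.asyq hA h1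
  have hκ : θ = 5 / 6 - 36 * ((5 / 6 - θ) / 36) := by ring
  have hκ0 : 0 < (5 / 6 - θ) / 36 := by linarith
  have hθ : θ ≤ 5 / 6 - (5 / 6 - θ) / 36 := by linarith
  refine ⟨(5 / 6 - θ) / 36, hκ0, ?_, ?_, ?_⟩
  · intro B hB
    obtain ⟨A, hA0, h⟩ := hallF hA h1 h2 hB
    refine ⟨A, fun x hx => ?_⟩
    obtain ⟨hf, hb⟩ := h x hx
    rw [hall_set] at hf hb
    exact ⟨hf, hb.trans (mul_le_mul_of_nonneg_left (Real.rpow_le_rpow_of_exponent_le hx hθ) hA0)⟩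
  · obtain ⟨A, hA0, h⟩ := twoF hA h1
    refine ⟨A, fun x hx => ?_⟩
    obtain ⟨hf, hb⟩ := h x hx
    exact ⟨hf, hb.trans (mul_le_mul_of_nonneg_left (Real.rpow_le_rpow_of_exponent_le hx hθ) hA0)⟩
  · obtain ⟨A, hA0, h⟩ := countF hA hQ h1 h2 hκ
    refine ⟨BM.ar (-1), BM.ar 1, BM.ar_pos (Or.inr rfl), BM.ar_pos (Or.inl rfl), ar_neg_one, ar_one, A,
      fun x hx => ?_⟩
    obtain ⟨hf, hb⟩ := h 1 (Or.inl rfl) x hx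
    obtain ⟨hf', hb'⟩ := h (-1) (Or.inr rfl) x hx
    rw [mono_one] at hf hb
    rw [mono_neg_one] at hf' hb'
    rw [neg_neg] at hb'
    exact ⟨⟨hf, hb⟩, hf', hb'⟩

end Pool.Agent.Work.MP_f2148a_nt.MC
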