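import Pool.Agent.Work.MP_f2148a_nt.MC.SDefs
import Pool.Agent.Work.MP_f2148a_nt.MC.Final

/-!
# MC/SBr: the sets in the statement of the hand-in are the sets of `final`
-/

set_option autoImplicit false

namespace Pool.Agent.Work.MP_f2148a_nt.MC

open Polynomial NumberField

/-- a generator in `𝓞 F` gives a generator in `ℂ`, with the same minimal polynomial -/
theorem genC_iff (F : CF) (a : ℂ) : OC F = ZC a ↔ ∃ α : 𝓞 F.1, ((α : F.1) : ℂ) = a ∧ Gen F α := by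
  have hval : ∀ (α : 𝓞 F.1) (P : ℤ[X]), (((aeval α P : 𝓞 F.1) : F.1) : ℂ) = aeval ((α : F.1) : ℂ) P := by
    intro α P
    have h1 := (Polynomial.aeval_algebraMap_apply F.1 α P).symm
    have h2 := (Polynomial.aeval_algebraMap_apply ℂ (α : F.1) P).symm
    exact (congrArg (fun z : F.1 => (z : ℂ)) h1).trans h2
  have hint : ∀ β : 𝓞 F.1, ((β : F.1) : ℂ) ∈ OC F := by
    intro β
    exact ⟨(β : F.1).2, (RingOfIntegers.isIntegral_coe β).map (F.1.val.restrictScalars ℤ)⟩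
  have hmk : ∀ z ∈ OC F, ∃ β : 𝓞 F.1, ((β : F.1) : ℂ) = z := by
    rintro z ⟨hz, hi⟩
    have h1 : IsIntegral ℤ (⟨z, hz⟩ : F.1) := by
      refine (isIntegral_algHom_iff (F.1.val.restrictScalars ℤ) ?_).mp hi
      exact F.1.val.injective
    exact ⟨⟨⟨z, hz⟩, h1⟩, rfl⟩
  constructor
  · intro h
    have ha : a ∈ OC F := by
      rw [h]
      exact ⟨X, aeval_X a⟩
    obtain ⟨α, hα⟩ := hmk a ha
    refine ⟨α, hα, ?_⟩
    unfold Gen
    rw [eq_top_iff]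
    intro β _
    have h1 := hint β
    rw [h] at h1
    obtain ⟨P, hP⟩ := h1
    rw [Algebra.adjoin_singleton_eq_range_aeval]
    refine ⟨P, ?_⟩
    apply RingOfIntegers.ext
    apply Subtype.ext
    rw [← hP, ← hα]
    exact hval α P
  · rintro ⟨α, rfl, hg⟩
    ext z
    constructor
    · intro hz
      obtain ⟨β, rfl⟩ := hmk z hz
      have h1 : β ∈ Algebra.adjoin ℤ {α} := by
        rw [show Algebra.adjoin ℤ {α} = ⊤ from hg]
        exact Algebra.mem_top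
      rw [Algebra.adjoin_singleton_eq_range_aeval] at h1
      obtain ⟨P, hP⟩ := h1
      refine ⟨P, ?_⟩
      rw [← hval, ← hP]
      rfl
    · rintro ⟨P, rfl⟩
      rw [← hval]
      exact hint _

theorem minpolyC_val (F : CF) (α : 𝓞 F.1) : minpoly ℤ ((α : F.1) : ℂ) = minpoly ℤ α := by
  have h1 : minpoly ℤ (algebraMap F.1 ℂ (algebraMap (𝓞 F.1) F.1 α)) = minpoly ℤ (algebraMap (𝓞 F.1) F.1 α) :=
    minpoly.algebraMap_eq (algebraMap F.1 ℂ).injective _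
  have h2 : minpoly ℤ (algebraMap (𝓞 F.1) F.1 α) = minpoly ℤ α :=
    minpoly.algebraMap_eq (RingOfIntegers.coe_injective) _
  exact h1.trans h2

theorem hallBad_eq (B x : ℝ) : HallBad B x =
    {e : Cl | ∃ F : CF, e = ⟦F⟧ ∧ |(discr F.1 : ℝ)| ≤ x ∧ ∃ (α : 𝓞 F.1) (a b c : ℤ),
        Algebra.adjoin ℤ {α} = ⊤ ∧
        minpoly ℤ α = Polynomial.X ^ 3 + Polynomial.C a * Polynomial.X ^ 2 + Polynomial.C b * Polynomial.X +
          Polynomial.C c ∧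
        B * |432 * (discr F.1 : ℝ)| ^ 3 <
          max |4 * ((a : ℝ) ^ 2 - 3 * b)| |4 * (-2 * (a : ℝ) ^ 3 + 9 * a * b - 27 * c)|} := by
  ext e
  constructor
  · rintro ⟨F, he, h1, z, a, b, c, h2, h3, h4⟩
    obtain ⟨α, rfl, hg⟩ := (genC_iff F z).mp h2
    rw [minpolyC_val] at h3
    exact ⟨F, he, h1, α, a, b, c, hg, h3, h4⟩
  · rintro ⟨F, he, h1, α, a, b, c, h2, h3, h4⟩
    refine ⟨F, he, h1, ((α : F.1) : ℂ), a, b, c, (genC_iff F _).mpr ⟨α, rfl, h2⟩, ?_, h4⟩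
    rw [minpolyC_val]
    exact h3

theorem twoGen_eq (x : ℝ) : TwoGen x =
    {e : Cl | ∃ F : CF, e = ⟦F⟧ ∧ |(discr F.1 : ℝ)| ≤ x ∧ ∃ α β : 𝓞 F.1,
        Algebra.adjoin ℤ {α} = ⊤ ∧ Algebra.adjoin ℤ {β} = ⊤ ∧
        ∀ n : ℤ, minpoly ℤ β ≠ minpoly ℤ (α + (n : 𝓞 F.1)) ∧
          minpoly ℤ β ≠ minpoly ℤ (-α + (n : 𝓞 F.1))} := by
  have e1 : ∀ (F : CF) (α : 𝓞 F.1) (n : ℤ), ((α : F.1) : ℂ) + n = (((α + (n : 𝓞 F.1) : 𝓞 F.1) : F.1) : ℂ) := by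
    intro F α n
    push_cast
    rfl
  have e2 : ∀ (F : CF) (α : 𝓞 F.1) (n : ℤ), -((α : F.1) : ℂ) + n = (((-α + (n : 𝓞 F.1) : 𝓞 F.1) : F.1) : ℂ) := by
    intro F α n
    push_cast
    rfl
  ext e
  constructor
  · rintro ⟨F, he, h1, z, w, h2, h3, h4⟩
    obtain ⟨α, rfl, hα⟩ := (genC_iff F z).mp h2
    obtain ⟨β, rfl, hβ⟩ := (genC_iff F w).mp h3
    refine ⟨F, he, h1, α, β, hα, hβ, fun n => ?_⟩
    have h5 := h4 n
    rw [e1, e2, minpolyC_val, minpolyC_val, minpolyC_val] at h5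
    exact h5
  · rintro ⟨F, he, h1, α, β, h2, h3, h4⟩
    refine ⟨F, he, h1, ((α : F.1) : ℂ), ((β : F.1) : ℂ), (genC_iff F _).mpr ⟨α, rfl, h2⟩,
      (genC_iff F _).mpr ⟨β, rfl, h3⟩, fun n => ?_⟩
    rw [e1, e2, minpolyC_val, minpolyC_val, minpolyC_val]
    exact h4 n

theorem monoC_eq (σ x : ℝ) : MonoC σ x = Mono σ x := by
  ext e
  constructor
  · rintro ⟨F, he, h1, h2, z, h3⟩
    obtain ⟨α, -, hα⟩ := (genC_iff F z).mp h3
    exact ⟨F, he, h1, h2, α, hα⟩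
  · rintro ⟨F, he, h1, h2, α, hα⟩
    exact ⟨F, he, h1, h2, ((α : F.1) : ℂ), (genC_iff F _).mpr ⟨α, rfl, hα⟩⟩

end Pool.Agent.Work.MP_f2148a_nt.MC
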