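import Pool.Agent.Work.MP_f2148a_nt.MC.Defs

/-!
# MC/Alg (size S-M): identities for the triples

Write `t = (a, b, c)`. All identities follow by unfolding `D, fx, fy, pt, v0, v1, sh, rf, nf` and `ring`
(`Prod.ext`, `Prod.mk.injEq`).

* `pt_id`: `fy² - fx³ = -432 D` (`4 (a² - 3b)³ - (-2a³ + 9ab - 27c)² = 27 D`).
* `bad_sh`: replace `r` by `r + n` resp. `r - n`. `bad_rf`: replace `r` by `-r` (`dvd_neg`).
* `nm_nf`: the first entry of `nf t` is `a - 3 (a / 3) = a % 3`. `nf_eq`: `a / 3 = 0`.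
* `pt_inj`: `fx t = fx s` gives `a² ≡ a'² (mod 3)`, so `a = a'` or `{a, a'} = {1, 2}` (`interval_cases`). If `a = a'` then
  `b = b'` from `fx` and `c = c'` from `fy`. If `a = 1`, `a' = 2`: `b' = b + 1` from `fx`, then `fy` gives
  `-2 + 9b - 27c = 2 + 18 b - 27 c'`, impossible modulo 9 (`omega`).
* `tt_nf_rf`, `gg_nf_rf`: `D (nf (rf t)) = D t`, and `Mx`, `Ir` are invariant.
* `dvd_D`: `D t = D (sh r t)` and `sh r t = (a', v1 t r, v0 t r)`, `a' = a + 3r`; every term of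
  `a'² b'² - 4 b'³ - 4 a'³ c' - 27 c'² + 18 a' b' c'` is divisible by `d²` if `d ∣ b'`, `d² ∣ c'`.
* `uniq_r`: `v0 t s - v0 t r - v1 t r (s - r) = (s - r)² (s + 2r + a)` so `p ∣ (s - r)² (s + 2 r + a)`; if `p ∤ r - s` then
  `p ∣ s + 2r + a`, and by symmetry `p ∣ r + 2s + a`; the difference is `r - s`, a contradiction.
* `v_mod`: if `s = r + d m` then `v1 t s - v1 t r` is divisible by `d` and
  `v0 t s = v0 t r + d m v1 t r + d² m² (3r + a) + d³ m³`.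
* `fy_ne`: if `fy t = 0` then `-2a³ + 9ab - 27c = 0`, so `3 ∣ a`, `a = 3m`, `c = m b - 2 m³`, and `v0 t (-m) = 0`.
-/

set_option autoImplicit false

namespace Pool.Agent.Work.MP_f2148a_nt.MC

theorem pt_id (t : Tr) : fy t ^ 2 - fx t ^ 3 = -432 * D t := by
  simp only [fy, fx, D]; ring

theorem D_sh (n : ℤ) (t : Tr) : D (sh n t) = D t := by
  simp only [D, sh, v0, v1]; ring

theorem pt_sh (n : ℤ) (t : Tr) : pt (sh n t) = pt t := by
  simp only [pt, fx, fy, sh, v0, v1, Prod.mk.injEq]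
  constructor <;> ring

theorem D_rf (t : Tr) : D (rf t) = D t := by
  simp only [D, rf]; ring

theorem pt_rf (t : Tr) : pt (rf t) = (fx t, -fy t) := by
  simp only [pt, fx, fy, rf, Prod.mk.injEq]
  constructor <;> ring

theorem v0_sh (n r : ℤ) (t : Tr) : v0 (sh n t) r = v0 t (r + n) := by
  simp only [sh, v0, v1]; ring

theorem v1_sh (n r : ℤ) (t : Tr) : v1 (sh n t) r = v1 t (r + n) := by
  simp only [sh, v1]; ring

theorem v0_rf (r : ℤ) (t : Tr) : v0 (rf t) r = -v0 t (-r) := by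
  simp only [rf, v0]; ring

theorem v1_rf (r : ℤ) (t : Tr) : v1 (rf t) r = v1 t (-r) := by
  simp only [rf, v1]; ring

theorem sh_sh (m n : ℤ) (t : Tr) : sh m (sh n t) = sh (n + m) t := by
  refine Prod.ext ?_ (Prod.ext ?_ ?_)
  · simp only [sh]; ring
  · simp only [sh, v1]; ring
  · simp only [sh, v0, v1]; ring

theorem sh_zero (t : Tr) : sh 0 t = t := by
  refine Prod.ext ?_ (Prod.ext ?_ ?_)
  · simp only [sh]; ring
  · simp only [sh, v1]; ring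
  · simp only [sh, v0]; ring

theorem rf_rf (t : Tr) : rf (rf t) = t := by
  refine Prod.ext ?_ (Prod.ext ?_ ?_)
  · simp only [rf, neg_neg]
  · simp only [rf]
  · simp only [rf, neg_neg]

theorem bad_sh (p : ℕ) (n : ℤ) (t : Tr) : Bad p (sh n t) ↔ Bad p t := by
  constructor
  · rintro ⟨r, h1, h0⟩
    rw [v1_sh] at h1
    rw [v0_sh] at h0
    exact ⟨r + n, h1, h0⟩
  · rintro ⟨r, h1, h0⟩
    refine ⟨r - n, ?_, ?_⟩
    · rw [v1_sh, sub_add_cancel]; exact h1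
    · rw [v0_sh, sub_add_cancel]; exact h0

theorem bad_rf (p : ℕ) (t : Tr) : Bad p (rf t) ↔ Bad p t := by
  constructor
  · rintro ⟨r, h1, h0⟩
    rw [v1_rf] at h1
    rw [v0_rf, dvd_neg] at h0
    exact ⟨-r, h1, h0⟩
  · rintro ⟨r, h1, h0⟩
    refine ⟨-r, ?_, ?_⟩
    · rw [v1_rf, neg_neg]; exact h1
    · rw [v0_rf, neg_neg, dvd_neg]; exact h0

theorem mx_sh (n : ℤ) (t : Tr) : Mx (sh n t) ↔ Mx t := by
  simp only [Mx, bad_sh]

theorem mx_rf (t : Tr) : Mx (rf t) ↔ Mx t := by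
  simp only [Mx, bad_rf]

theorem ir_sh (n : ℤ) (t : Tr) : Ir (sh n t) ↔ Ir t := by
  simp only [Ir, v0_sh]
  constructor
  · intro h m
    have := h (m - n)
    rwa [sub_add_cancel] at this
  · intro h m
    exact h _

theorem ir_rf (t : Tr) : Ir (rf t) ↔ Ir t := by
  simp only [Ir, v0_rf, ne_eq, neg_eq_zero]
  constructor
  · intro h m
    have := h (-m)
    rwa [neg_neg] at this
  · intro h m
    exact h _

theorem nm_nf (t : Tr) : Nm (nf t) := by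
  simp only [Nm, nf, sh]
  omega

theorem nf_eq {t : Tr} (h : Nm t) : nf t = t := by
  have h0 : t.1 / 3 = 0 := by
    obtain ⟨h1, h2⟩ := h
    omega
  rw [nf, h0, neg_zero, sh_zero]

theorem pt_nf (t : Tr) : pt (nf t) = pt t := pt_sh _ t

theorem D_nf (t : Tr) : D (nf t) = D t := D_sh _ t

theorem pt_inj {t s : Tr} (ht : Nm t) (hs : Nm s) (h : pt t = pt s) : t = s := by
  obtain ⟨a, b, c⟩ := t
  obtain ⟨a', b', c'⟩ := s
  obtain ⟨h1, h2⟩ := ht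
  obtain ⟨h3, h4⟩ := hs
  simp only [pt, fx, fy, Prod.mk.injEq] at h h1 h2 h3 h4
  obtain ⟨hx, hy⟩ := h
  interval_cases a <;> interval_cases a' <;> simp only [Prod.mk.injEq] <;> norm_num at hx hy ⊢ <;> omega

theorem tt_nf_rf {σ X : ℝ} {t : Tr} (h : t ∈ TT σ X) : nf (rf t) ∈ TT σ X := by
  obtain ⟨-, h1, h2⟩ := h
  refine ⟨nm_nf _, ?_, ?_⟩
  · rw [D_nf, D_rf]; exact h1
  · rw [D_nf, D_rf]; exact h2

theorem gg_nf_rf {σ X : ℝ} {t : Tr} (h : t ∈ GG σ X) : nf (rf t) ∈ GG σ X := by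
  obtain ⟨h1, h2, h3⟩ := h
  refine ⟨tt_nf_rf h1, ?_, ?_⟩
  · rw [nf, mx_sh, mx_rf]; exact h2
  · rw [nf, ir_sh, ir_rf]; exact h3

theorem pt_nf_rf (t : Tr) : pt (nf (rf t)) = ((pt t).1, -(pt t).2) := by
  rw [pt_nf, pt_rf]
  rfl

theorem dvd_D {d r : ℤ} {t : Tr} (h1 : d ∣ v1 t r) (h0 : d ^ 2 ∣ v0 t r) : d ^ 2 ∣ D t := by
  rw [← D_sh r t]
  obtain ⟨u, hu⟩ := h1
  obtain ⟨w, hw⟩ := h0
  have : D (sh r t) = (t.1 + 3 * r) ^ 2 * (d * u) ^ 2 - 4 * (d * u) ^ 3 - 4 * (t.1 + 3 * r) ^ 3 * (d ^ 2 * w) -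
      27 * (d ^ 2 * w) ^ 2 + 18 * (t.1 + 3 * r) * (d * u) * (d ^ 2 * w) := by
    rw [← hu, ← hw]
    rfl
  rw [this]
  exact ⟨(t.1 + 3 * r) ^ 2 * u ^ 2 - 4 * d * u ^ 3 - 4 * (t.1 + 3 * r) ^ 3 * w - 27 * d ^ 2 * w ^ 2 +
    18 * (t.1 + 3 * r) * d * u * w, by ring⟩

private theorem uniq_aux {p : ℕ} (hp : p.Prime) {t : Tr} {r s : ℤ} (h1 : (p : ℤ) ∣ v1 t r) (h0 : (p : ℤ) ∣ v0 t r)
    (h0' : (p : ℤ) ∣ v0 t s) (hne : ¬ (p : ℤ) ∣ s - r) : (p : ℤ) ∣ s + 2 * r + t.1 := by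
  have hp' : Prime (p : ℤ) := Nat.prime_iff_prime_int.1 hp
  have h : (p : ℤ) ∣ (s - r) ^ 2 * (s + 2 * r + t.1) := by
    have e : (s - r) ^ 2 * (s + 2 * r + t.1) = v0 t s - v0 t r - v1 t r * (s - r) := by
      simp only [v0, v1]; ring
    rw [e]
    exact dvd_sub (dvd_sub h0' h0) (dvd_mul_of_dvd_left h1 _)
  rcases hp'.dvd_or_dvd h with h | h
  · exact absurd (hp'.dvd_of_dvd_pow h) hne
  · exact h

theorem uniq_r {p : ℕ} (hp : p.Prime) {t : Tr} {r s : ℤ} (h1 : (p : ℤ) ∣ v1 t r) (h0 : (p : ℤ) ∣ v0 t r)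
    (h1' : (p : ℤ) ∣ v1 t s) (h0' : (p : ℤ) ∣ v0 t s) : (p : ℤ) ∣ r - s := by
  by_contra hne
  have hne' : ¬ (p : ℤ) ∣ s - r := by
    rw [← neg_sub, dvd_neg]
    exact hne
  have ha := uniq_aux hp h1 h0 h0' hne'
  have hb := uniq_aux hp h1' h0' h0 hne
  apply hne
  have : r - s = (s + 2 * r + t.1) - (r + 2 * s + t.1) := by ring
  rw [this]
  exact dvd_sub ha hb

theorem v_mod {d r s : ℤ} {t : Tr} (h1 : d ∣ v1 t r) (h0 : d ^ 2 ∣ v0 t r) (h : d ∣ r - s) :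
    d ∣ v1 t s ∧ d ^ 2 ∣ v0 t s := by
  obtain ⟨m, hm⟩ := h
  have hs : s = r - d * m := by linarith
  obtain ⟨u, hu⟩ := h1
  obtain ⟨w, hw⟩ := h0
  constructor
  · have e : v1 t s = v1 t r + d * (-6 * r * m + 3 * d * m ^ 2 - 2 * t.1 * m) := by
      rw [hs]; simp only [v1]; ring
    rw [e, hu]
    exact ⟨u + (-6 * r * m + 3 * d * m ^ 2 - 2 * t.1 * m), by ring⟩
  · have e : v0 t s = v0 t r - d * m * v1 t r + d ^ 2 * m ^ 2 * (3 * r + t.1) - d ^ 3 * m ^ 3 := by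
      rw [hs]; simp only [v0, v1]; ring
    rw [e, hu, hw]
    exact ⟨w - m * u + m ^ 2 * (3 * r + t.1) - d * m ^ 3, by ring⟩

theorem fy_ne {t : Tr} (h : Ir t) : fy t ≠ 0 := by
  intro h0
  obtain ⟨a, b, c⟩ := t
  simp only [fy] at h0
  have h1 : -2 * a ^ 3 + 9 * a * b - 27 * c = 0 := by
    rcases mul_eq_zero.1 h0 with h2 | h2
    · norm_num at h2
    · exact h2
  have h3 : (3 : ℤ) ∣ a := by
    have h4 : (3 : ℤ) ∣ 2 * a ^ 3 := ⟨3 * a * b - 9 * c, by linarith⟩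
    have h5 : Prime (3 : ℤ) := Int.prime_three
    rcases h5.dvd_or_dvd h4 with h6 | h6
    · norm_num at h6
    · exact h5.dvd_of_dvd_pow h6
  obtain ⟨m, rfl⟩ := h3
  have h7 : c = m * b - 2 * m ^ 3 := by
    have h8 : 27 * c = 27 * (m * b - 2 * m ^ 3) := by nlinarith
    linarith
  apply h (-m)
  simp only [v0]
  rw [h7]
  ring

end Pool.Agent.Work.MP_f2148a_nt.MC
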