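import Mathlib
import Pool.Agent.Work.MP_f2148a_nt.QuadCong

/-!
# MC/Arc (size S): integers `y` in a class with `0 < σ (y² - u) ≤ K`

Split `Y` in its elements `≥ 0` and `< 0`. If `y, y'` are two elements `≥ 0` then `|y² - y'²| ≤ K`
(both `σ (y² - u)` are in `(0, K]`), and `(y - y')² ≤ |y - y'| (y + y') = |y² - y'²| ≤ K`, so `|y - y'| ≤ √K`; they are
congruent modulo `N`, so `|y - y'| ≥ N` if they are different. By `card_separated_le` of `QuadCong.lean` there are at most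
`1 + √K / N` of them. The same for the elements `< 0`.
-/

set_option autoImplicit false

namespace Pool.Agent.Work.MP_f2148a_nt.MC

private theorem arcHalf {σ u K : ℝ} (hσ : σ = 1 ∨ σ = -1) {N : ℕ} (hN : 0 < N) (y0 : ℤ)
    (Y : Finset ℤ) (ε : ℝ) (hε : ε = 1 ∨ ε = -1) (hpos : ∀ y ∈ Y, 0 ≤ ε * (y : ℝ))
    (h : ∀ y ∈ Y, 0 < σ * ((y : ℝ) ^ 2 - u) ∧ σ * ((y : ℝ) ^ 2 - u) ≤ K ∧ (N : ℤ) ∣ y - y0) :
    (Y.card : ℝ) ≤ 1 + √K / N := by
  have hN' : (0 : ℝ) < N := by exact_mod_cast hN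
  refine card_separated_le Y N (√K) hN' (Real.sqrt_nonneg K) ?_ ?_
  · intro y hy y' hy' hne
    obtain ⟨k, hk⟩ : (N : ℤ) ∣ y - y' := by
      have := dvd_sub (h y hy).2.2 (h y' hy').2.2
      rwa [sub_sub_sub_cancel_right] at this
    have hk0 : k ≠ 0 := by
      rintro rfl
      rw [mul_zero] at hk
      exact hne (by linarith)
    have hk1 : (1 : ℝ) ≤ |(k : ℝ)| := by
      rw [← Int.cast_abs]
      exact_mod_cast Int.one_le_abs hk0
    have hr : (y : ℝ) - y' = N * k := by exact_mod_cast hk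
    rw [hr, abs_mul, abs_of_pos hN']
    nlinarith
  · intro y hy y' hy'
    obtain ⟨a1, a2, -⟩ := h y hy
    obtain ⟨b1, b2, -⟩ := h y' hy'
    have hp := hpos y hy
    have hp' := hpos y' hy'
    refine Real.abs_le_sqrt ?_
    have e1 : (y : ℝ) ^ 2 - (y' : ℝ) ^ 2 ≤ K ∧ (y' : ℝ) ^ 2 - (y : ℝ) ^ 2 ≤ K := by
      rcases hσ with rfl | rfl <;> constructor <;> nlinarith
    rcases hε with rfl | rfl
    · rw [one_mul] at hp hp'
      rcases le_total (y : ℝ) (y' : ℝ) with hle | hle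
      · nlinarith [mul_nonneg hp (sub_nonneg.2 hle)]
      · nlinarith [mul_nonneg hp' (sub_nonneg.2 hle)]
    · have q1 : (y : ℝ) ≤ 0 := by linarith
      have q2 : (y' : ℝ) ≤ 0 := by linarith
      rcases le_total (y : ℝ) (y' : ℝ) with hle | hle
      · nlinarith [mul_nonneg (neg_nonneg.2 q2) (sub_nonneg.2 hle)]
      · nlinarith [mul_nonneg (neg_nonneg.2 q1) (sub_nonneg.2 hle)]

theorem arc {σ u K : ℝ} (hσ : σ = 1 ∨ σ = -1) (hK : 0 ≤ K) {N : ℕ} (hN : 0 < N) (y0 : ℤ) (Y : Finset ℤ)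
    (h : ∀ y ∈ Y, 0 < σ * ((y : ℝ) ^ 2 - u) ∧ σ * ((y : ℝ) ^ 2 - u) ≤ K ∧ (N : ℤ) ∣ y - y0) :
    (Y.card : ℝ) ≤ 2 * (√K / N + 1) := by
  have _ := hK
  have h1 := arcHalf hσ hN y0 (Y.filter fun y => 0 ≤ y) 1 (Or.inl rfl) (fun y hy => by
    rw [one_mul]; exact_mod_cast (Finset.mem_filter.1 hy).2)
    (fun y hy => h y (Finset.mem_filter.1 hy).1)
  have h2 := arcHalf hσ hN y0 (Y.filter fun y => ¬ 0 ≤ y) (-1) (Or.inr rfl) (fun y hy => by
    have : y < 0 := not_le.1 (Finset.mem_filter.1 hy).2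
    have : (y : ℝ) < 0 := by exact_mod_cast this
    linarith)
    (fun y hy => h y (Finset.mem_filter.1 hy).1)
  have h3 : ((Y.filter fun y => 0 ≤ y).card : ℝ) + ((Y.filter fun y => ¬ 0 ≤ y).card : ℝ) = Y.card := by
    exact_mod_cast Finset.card_filter_add_card_filter_not (s := Y) (fun y => 0 ≤ y)
  linarith

end Pool.Agent.Work.MP_f2148a_nt.MC
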