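import Pool.Agent.Work.MP_f2148a_nt.MC.Defs
import Pool.Agent.Work.MP_f2148a_nt.BM.Defs

/-!
# MP_f2148a_nt, block MC: the exceptional points (FIXED, do not change)
-/

set_option autoImplicit false

namespace Pool.Agent.Work.MP_f2148a_nt.MC

/-- the pairs `P` of `As.pr K` such that the Mordell curve `y² = x³ + k` through `P` has an integer point besides
`P` and `-P` -/
def ex (K : ℝ) : Set (ℤ × ℤ) := {P | P ∈ As.pr K ∧
  ∃ Q : ℤ × ℤ, Q.2 ^ 2 - Q.1 ^ 3 = P.2 ^ 2 - P.1 ^ 3 ∧ Q ≠ P ∧ Q ≠ (P.1, -P.2)}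

end Pool.Agent.Work.MP_f2148a_nt.MC
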