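import Pool.Agent.Work.MP_f2148a_nt.MC.Alg
import Pool.Agent.Work.MP_f2148a_nt.MC.Defs2

/-!
# MC/Cntd (size M): the triples with `d ∣ f'(r)`, `d² ∣ f(r)`, `r` fixed

Write `K = 432 X`, `t = (a, b, c)`. The set is the disjoint union of its parts with `a = 0, 1, 2`. Fix `a` and put
`b0 = -3r² - 2ar`, so `v1 t r = b - b0`, `g x = 4 (-2a³ + 9 a b - 27 c0)` where `b = (4a² - x) / 12`,
`c0 = -(r³ + a r² + b r)`, so `v0 t r = c - c0`. Then `t ↦ pt t = (x, y)` is a bijection of the part with first entry `a`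
onto `BM.cl (-σ) K (12 d) (108 d²) (4 a² - 12 b0) g`:
* `x - (4a² - 12 b0) = -12 (b - b0)`, and `b = (4a² - x)/12` exactly; `y - g x = -108 (c - c0)`;
  `y² - x³ = -432 D` (`pt_id`), so `0 < σ D ≤ X` iff `0 < -σ (y² - x³) ≤ K`.
* conversely if `12 d ∣ x - (4a² - 12 b0)` put `b = (4a² - x)/12` (integer), `d ∣ b - b0`, and
  `c = c0 - (y - g x)/108`.
Hence by `hQ` (with `-σ`) each part has `ar(-σ) / (12 d · 108 d²) K^(5/6) + O(A K^θ)` elements; the sum of the three is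
`ar(-σ) / (432 d³) K^(5/6) + O(3 A K^θ)` (`K ≥ 1`; enlarge `A` to be `≥ 0`).
(Model: the proof of `BM.cntP` in `BM/CntP.lean`.)
-/

set_option autoImplicit false

namespace Pool.Agent.Work.MP_f2148a_nt.MC

/-- the residue of `b` -/
def b0 (r a : ℤ) : ℤ := -3 * r ^ 2 - 2 * a * r

/-- the residue of `y` as a function of `x` -/
def gy (r a x : ℤ) : ℤ :=
  4 * (-2 * a ^ 3 + 9 * a * ((4 * a ^ 2 - x) / 12) - 27 * (-(r ^ 3 + a * r ^ 2 + (4 * a ^ 2 - x) / 12 * r)))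

/-- the part with first entry `a` -/
def part (σ X : ℝ) (d : ℕ) (r a : ℤ) : Set Tr :=
  {t | t.1 = a ∧ 0 < σ * (D t : ℝ) ∧ σ * (D t : ℝ) ≤ X ∧ (d : ℤ) ∣ v1 t r ∧ (d : ℤ) ^ 2 ∣ v0 t r}

private theorem div12 (a b : ℤ) : (4 * a ^ 2 - 4 * (a ^ 2 - 3 * b)) / 12 = b := by
  have : 4 * a ^ 2 - 4 * (a ^ 2 - 3 * b) = 12 * b := by ring
  rw [this]
  exact Int.mul_ediv_cancel_left _ (by norm_num)

private theorem rg_iff (σ X : ℝ) (t : Tr) :
    pt t ∈ BM.rg (-σ) (432 * X) ↔ 0 < σ * (D t : ℝ) ∧ σ * (D t : ℝ) ≤ X := by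
  have h : ((fy t : ℤ) : ℝ) ^ 2 - ((fx t : ℤ) : ℝ) ^ 3 = -432 * (D t : ℝ) := by
    have := pt_id t
    exact_mod_cast this
  simp only [BM.rg, pt, Set.mem_ofPred_eq]
  rw [h]
  constructor
  · rintro ⟨h1, h2⟩
    constructor <;> nlinarith
  · rintro ⟨h1, h2⟩
    constructor <;> nlinarith

private theorem part_img (σ X : ℝ) (d : ℕ) (hd : 0 < d) (r a : ℤ) : pt '' part σ X d r a =
    BM.cl (-σ) (432 * X) (12 * d) (108 * d ^ 2) (4 * a ^ 2 - 12 * b0 r a) (gy r a) := by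
  ext P
  constructor
  · rintro ⟨t, ⟨ha, h1, h2, h3, h4⟩, rfl⟩
    refine ⟨(rg_iff σ X t).2 ⟨h1, h2⟩, ?_, ?_⟩
    · obtain ⟨u, hu⟩ := h3
      refine ⟨-u, ?_⟩
      simp only [pt, fx, b0]
      simp only [v1] at hu
      rw [← ha]
      push_cast
      linear_combination (-12 : ℤ) * hu
    · obtain ⟨w, hw⟩ := h4
      refine ⟨-w, ?_⟩
      simp only [v0] at hw
      simp only [pt, gy, fx]
      rw [← ha, div12]
      simp only [fy]
      push_cast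
      linear_combination (-108 : ℤ) * hw
  · rintro ⟨h1, ⟨u, hu⟩, ⟨w, hw⟩⟩
    obtain ⟨x, y⟩ := P
    simp only at hu hw
    push_cast at hu hw
    set b : ℤ := b0 r a - d * u with hb
    have hx : x = 4 * (a ^ 2 - 3 * b) := by
      rw [hb]; linear_combination hu
    have hbx : (4 * a ^ 2 - x) / 12 = b := by
      rw [hx]; exact div12 a b
    set c : ℤ := -(r ^ 3 + a * r ^ 2 + b * r) - d ^ 2 * w with hc
    have hy : y = 4 * (-2 * a ^ 3 + 9 * a * b - 27 * c) := by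
      simp only [gy] at hw
      rw [hbx] at hw
      rw [hc]
      linear_combination hw
    have hpt : pt (a, b, c) = (x, y) := by
      simp only [pt, fx, fy]
      rw [hx, hy]
    refine ⟨(a, b, c), ⟨rfl, ?_, ?_, ?_, ?_⟩, hpt⟩
    · rw [← hpt] at h1
      exact ((rg_iff σ X _).1 h1).1
    · rw [← hpt] at h1
      exact ((rg_iff σ X _).1 h1).2
    · refine ⟨-u, ?_⟩
      simp only [v1]
      rw [hb, b0]
      ring
    · refine ⟨-w, ?_⟩
      simp only [v0]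
      rw [hc]
      ring

private theorem pt_injOn (a : ℤ) {t s : Tr} (ht : t.1 = a) (hs : s.1 = a) (h : pt t = pt s) : t = s := by
  obtain ⟨a1, b, c⟩ := t
  obtain ⟨a2, b', c'⟩ := s
  simp only at ht hs
  subst ht
  subst hs
  simp only [pt, fx, fy, Prod.mk.injEq] at h
  obtain ⟨hx, hy⟩ := h
  have hb : b = b' := by linarith
  subst hb
  have hc : c = c' := by linarith
  subst hc
  rfl

private theorem set_eq (σ X : ℝ) (d : ℕ) (r : ℤ) :
    {t | t ∈ TT σ X ∧ (d : ℤ) ∣ v1 t r ∧ (d : ℤ) ^ 2 ∣ v0 t r} =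
      part σ X d r 0 ∪ part σ X d r 1 ∪ part σ X d r 2 := by
  ext t
  simp only [TT, Nm, part, Set.mem_ofPred_eq, Set.mem_union]
  constructor
  · rintro ⟨⟨⟨h1, h2⟩, h3, h4⟩, h5, h6⟩
    have : t.1 = 0 ∨ t.1 = 1 ∨ t.1 = 2 := by omega
    rcases this with h | h | h
    · exact Or.inl (Or.inl ⟨h, h3, h4, h5, h6⟩)
    · exact Or.inl (Or.inr ⟨h, h3, h4, h5, h6⟩)
    · exact Or.inr ⟨h, h3, h4, h5, h6⟩
  · rintro ((⟨h, h3, h4, h5, h6⟩ | ⟨h, h3, h4, h5, h6⟩) | ⟨h, h3, h4, h5, h6⟩)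
    · exact ⟨⟨⟨by omega, by omega⟩, h3, h4⟩, h5, h6⟩
    · exact ⟨⟨⟨by omega, by omega⟩, h3, h4⟩, h5, h6⟩
    · exact ⟨⟨⟨by omega, by omega⟩, h3, h4⟩, h5, h6⟩

theorem cntd {θ : ℝ} (hQ : BM.AsyQ θ) {σ : ℝ} (hσ : σ = 1 ∨ σ = -1) : ∃ A : ℝ, 0 ≤ A ∧
    ∀ (d : ℕ) (r : ℤ) (X : ℝ), 0 < d → 1 ≤ X →
    {t | t ∈ TT σ X ∧ (d : ℤ) ∣ v1 t r ∧ (d : ℤ) ^ 2 ∣ v0 t r}.Finite ∧
    |(({t | t ∈ TT σ X ∧ (d : ℤ) ∣ v1 t r ∧ (d : ℤ) ^ 2 ∣ v0 t r}.ncard : ℕ) : ℝ) -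
      BM.ar (-σ) / (432 * (d : ℝ) ^ 3) * (432 * X) ^ (5 / 6 : ℝ)| ≤ A * (432 * X) ^ θ := by
  have hτ : -σ = 1 ∨ -σ = -1 := by
    rcases hσ with rfl | rfl
    · right; rfl
    · left; norm_num
  obtain ⟨A, hA⟩ := hQ (-σ) hτ
  refine ⟨3 * |A|, by positivity, fun d r X hd hX => ?_⟩
  have hK : 1 ≤ 432 * X := by linarith
  have hd0 : (0 : ℝ) < d := by exact_mod_cast hd
  have key : ∀ a : ℤ, (part σ X d r a).Finite ∧ |((part σ X d r a).ncard : ℝ) -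
      BM.ar (-σ) / (1296 * (d : ℝ) ^ 3) * (432 * X) ^ (5 / 6 : ℝ)| ≤ |A| * (432 * X) ^ θ := by
    intro a
    obtain ⟨hf, hb⟩ := hA (12 * d) (108 * d ^ 2) (by positivity) (by positivity) (4 * a ^ 2 - 12 * b0 r a)
      (gy r a) (432 * X) hK
    rw [← part_img σ X d hd r a] at hf hb
    have hinj : Set.InjOn pt (part σ X d r a) := fun t ht s hs h => pt_injOn a ht.1 hs.1 h
    have hfin : (part σ X d r a).Finite := Set.Finite.of_finite_image hf hinj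
    refine ⟨hfin, ?_⟩
    rw [Set.InjOn.ncard_image hinj] at hb
    have e : BM.ar (-σ) / (((12 * d : ℕ) : ℝ) * ((108 * d ^ 2 : ℕ) : ℝ)) =
        BM.ar (-σ) / (1296 * (d : ℝ) ^ 3) := by
      congr 1
      push_cast
      ring
    rw [e] at hb
    exact hb.trans (mul_le_mul_of_nonneg_right (le_abs_self A) (by positivity))
  obtain ⟨f0, k0⟩ := key 0
  obtain ⟨f1, k1⟩ := key 1
  obtain ⟨f2, k2⟩ := key 2
  rw [set_eq]
  refine ⟨(f0.union f1).union f2, ?_⟩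
  have d1 : Disjoint (part σ X d r 0) (part σ X d r 1) := by
    rw [Set.disjoint_left]
    intro t h h'
    have := h.1.symm.trans h'.1
    norm_num at this
  have d2 : Disjoint (part σ X d r 0 ∪ part σ X d r 1) (part σ X d r 2) := by
    rw [Set.disjoint_left]
    rintro t (h | h) h'
    · have := h.1.symm.trans h'.1
      norm_num at this
    · have := h.1.symm.trans h'.1
      norm_num at this
  have hc : (part σ X d r 0 ∪ part σ X d r 1 ∪ part σ X d r 2).ncard =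
      (part σ X d r 0).ncard + (part σ X d r 1).ncard + (part σ X d r 2).ncard := by
    rw [Set.ncard_union_eq d2 (f0.union f1) f2, Set.ncard_union_eq d1 f0 f1]
  rw [hc]
  push_cast
  have e : BM.ar (-σ) / (432 * (d : ℝ) ^ 3) = 3 * (BM.ar (-σ) / (1296 * (d : ℝ) ^ 3)) := by
    field_simp
    ring
  rw [e]
  set M := BM.ar (-σ) / (1296 * (d : ℝ) ^ 3) * (432 * X) ^ (5 / 6 : ℝ) with hM
  rw [abs_le] at k0 k1 k2 ⊢
  have e2 : 3 * (BM.ar (-σ) / (1296 * (d : ℝ) ^ 3)) * (432 * X) ^ (5 / 6 : ℝ) = 3 * M := by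
    rw [hM]; ring
  rw [e2]
  constructor
  · linarith [k0.1, k1.1, k2.1]
  · linarith [k0.2, k1.2, k2.2]

end Pool.Agent.Work.MP_f2148a_nt.MC
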