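import Pool.Agent.Work.MP_f2148a_nt.MC.Rad
import Pool.Agent.Work.MP_f2148a_nt.MC.Cntd

/-!
# MC/Cop (size S-M): the triples with `d ∣ q t`

For `t ∈ TT σ X` we have `D t ≠ 0`. By `q_dvd`, `q_uniq` and `v_mod` the set `{t ∈ TT σ X : d ∣ q t}` is the disjoint union over
the `r = 0, 1, ..., d - 1` of the sets of `cntd` (`v_mod`: if `r` works then so does `r % d`; two `r`'s in `[0, d)` that work
are congruent modulo `d`, hence equal). Sum the `d` formulas: `d · ar / (432 d³) = ar / (432 d²)` and the error is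
`d A (432 X)^θ`. (`d ≥ 1` as it is squarefree. Use `Set.ncard` of a finite disjoint union, for instance through
`Finset.card_biUnion` for the finsets `Set.Finite.toFinset`.)
-/

set_option autoImplicit false

namespace Pool.Agent.Work.MP_f2148a_nt.MC

private theorem D_ne {σ X : ℝ} {t : Tr} (ht : t ∈ TT σ X) : D t ≠ 0 := by
  intro h
  have := ht.2.1
  rw [h] at this
  simp at this

private theorem set_eq (σ X : ℝ) {d : ℕ} (hd : Squarefree d) :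
    {t | t ∈ TT σ X ∧ d ∣ q t} =
      ⋃ r ∈ Finset.range d, {t | t ∈ TT σ X ∧ (d : ℤ) ∣ v1 t (r : ℤ) ∧ (d : ℤ) ^ 2 ∣ v0 t (r : ℤ)} := by
  ext t
  simp only [Set.mem_ofPred_eq, Set.mem_iUnion, exists_prop, Finset.mem_range]
  constructor
  · rintro ⟨h1, h2⟩
    obtain ⟨r, h3, h4⟩ := (q_dvd (D_ne h1) hd).1 h2
    have hd0 : (0 : ℤ) < d := by
      have : d ≠ 0 := hd.ne_zero
      omega
    have h5 : (d : ℤ) ∣ r - r % d := Int.dvd_self_sub_emod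
    obtain ⟨h6, h7⟩ := v_mod h3 h4 h5
    have h8 : ((r % d).toNat : ℤ) = r % d := Int.toNat_of_nonneg (Int.emod_nonneg r hd0.ne')
    have h9 := Int.emod_lt_of_pos r hd0
    refine ⟨(r % d).toNat, by omega, h1, ?_, ?_⟩
    · rw [h8]; exact h6
    · rw [h8]; exact h7
  · rintro ⟨r, -, h1, h2, h3⟩
    exact ⟨h1, (q_dvd (D_ne h1) hd).2 ⟨r, h2, h3⟩⟩

theorem cop {θ : ℝ} (hQ : BM.AsyQ θ) {σ : ℝ} (hσ : σ = 1 ∨ σ = -1) : ∃ A : ℝ, 0 ≤ A ∧
    ∀ (d : ℕ) (X : ℝ), Squarefree d → 1 ≤ X →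
    {t | t ∈ TT σ X ∧ d ∣ q t}.Finite ∧
    |(({t | t ∈ TT σ X ∧ d ∣ q t}.ncard : ℕ) : ℝ) -
      BM.ar (-σ) / (432 * (d : ℝ) ^ 2) * (432 * X) ^ (5 / 6 : ℝ)| ≤ A * d * (432 * X) ^ θ := by
  classical
  obtain ⟨A, hA0, hA⟩ := cntd hQ hσ
  refine ⟨A, hA0, fun d X hd hX => ?_⟩
  have hd0 : 0 < d := Nat.pos_of_ne_zero hd.ne_zero
  have hd0' : (0 : ℝ) < d := by exact_mod_cast hd0
  have hfin := fun r : ℕ => (hA d r X hd0 hX).1
  have hest := fun r : ℕ => (hA d r X hd0 hX).2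
  have hF : {t | t ∈ TT σ X ∧ d ∣ q t}.Finite := by
    rw [set_eq σ X hd]
    exact Set.Finite.biUnion (Finset.range d).finite_toSet fun i _ => hfin i
  refine ⟨hF, ?_⟩
  have hcard : {t | t ∈ TT σ X ∧ d ∣ q t}.ncard = ∑ r ∈ Finset.range d,
      {t | t ∈ TT σ X ∧ (d : ℤ) ∣ v1 t (r : ℤ) ∧ (d : ℤ) ^ 2 ∣ v0 t (r : ℤ)}.ncard := by
    have h1 : {t | t ∈ TT σ X ∧ d ∣ q t}.ncard =
        ((Finset.range d).biUnion fun r => (hfin r).toFinset).card := by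
      rw [← Set.ncard_coe_finset]
      congr 1
      rw [set_eq σ X hd]
      ext t
      simp
    rw [h1, Finset.card_biUnion]
    · refine Finset.sum_congr rfl fun i _ => ?_
      rw [Set.ncard_eq_toFinset_card _ (hfin i)]
    · intro i hi j hj hij
      change Disjoint (hfin i).toFinset (hfin j).toFinset
      rw [Finset.disjoint_left]
      intro t ht ht'
      rw [Set.Finite.mem_toFinset] at ht ht'
      apply hij
      obtain ⟨-, h1, h0⟩ := ht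
      obtain ⟨-, h1', h0'⟩ := ht'
      have h2 := q_uniq hd h1 h0 h1' h0'
      rw [Finset.mem_coe, Finset.mem_range] at hi hj
      have h3 : ((i : ℤ) - j) = 0 := by
        refine Int.eq_zero_of_abs_lt_dvd h2 ?_
        rw [abs_lt]
        constructor <;> omega
      omega
  have hsum : (({t | t ∈ TT σ X ∧ d ∣ q t}.ncard : ℕ) : ℝ) -
      BM.ar (-σ) / (432 * (d : ℝ) ^ 2) * (432 * X) ^ (5 / 6 : ℝ) =
      ∑ r ∈ Finset.range d,
        ((({t | t ∈ TT σ X ∧ (d : ℤ) ∣ v1 t (r : ℤ) ∧ (d : ℤ) ^ 2 ∣ v0 t (r : ℤ)}.ncard : ℕ) : ℝ) -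
        BM.ar (-σ) / (432 * (d : ℝ) ^ 3) * (432 * X) ^ (5 / 6 : ℝ)) := by
    rw [Finset.sum_sub_distrib, Finset.sum_const, Finset.card_range, hcard, nsmul_eq_mul]
    push_cast
    congr 1
    field_simp
  rw [hsum]
  calc _ ≤ ∑ r ∈ Finset.range d,
        |(({t | t ∈ TT σ X ∧ (d : ℤ) ∣ v1 t (r : ℤ) ∧ (d : ℤ) ^ 2 ∣ v0 t (r : ℤ)}.ncard : ℕ) : ℝ) -
        BM.ar (-σ) / (432 * (d : ℝ) ^ 3) * (432 * X) ^ (5 / 6 : ℝ)| := Finset.abs_sum_le_sum_abs _ _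
    _ ≤ ∑ _r ∈ Finset.range d, A * (432 * X) ^ θ := Finset.sum_le_sum fun i _ => hest i
    _ = A * d * (432 * X) ^ θ := by
        rw [Finset.sum_const, Finset.card_range, nsmul_eq_mul]
        ring

end Pool.Agent.Work.MP_f2148a_nt.MC
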