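import Pool.Agent.Work.MP_f2148a_nt.MC.Alg

/-!
# MC/Red (size M): few triples have an integer root

For `t = (a, b, c) ∈ S` choose an integer `n` with `v0 t n = 0` and put `(a', b') = (a + 3n, v1 t n)`, so
`sh n t = (a', b', 0)`; `D t = D (sh n t) = b'² (a'² - 4 b')` (`D_sh`), hence `b' ≠ 0` and `0 < b'² |a'² - 4b'| ≤ X`. The map
`t ↦ (a', b')` is injective: `a = a' % 3`, `n = (a' - a)/3` and `t = sh (-n) (a', b', 0)` (`sh_sh`, `sh_zero`; or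
`t = nf (a', b', 0)`, `nf_eq`). So `S.card` is at most the number of the pairs `(a', b')`: `1 ≤ |b'| ≤ √X` (as
`|a'² - 4b'| ≥ 1`) and for given `b'`, `a'² ≤ 4 |b'| + X / b'²`, so `|a'| ≤ 2 √|b'| + √X / |b'|` and the number of `a'` is at
most `2 (2 √|b'| + √X / |b'|) + 1`. With `|b'| ≤ √X` the sum over `b'` is at most
`2 ∑_{1 ≤ b ≤ √X} (4 X^(1/4) + 2 √X / b + 1) ≤ 8 X^(3/4) + 4 √X (1 + log √X) + 2 √X ≤ C X^(3/4)`
(`∑_{b ≤ m} 1/b ≤ 1 + log m`, `log X ≤ 4 X^(1/4)`: `Real.log_le_rpow_div`). A cheaper bound of the middle sum: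
`√X / b ≤ √X · b^(-1)`, `∑_{b ≤ √X} b^(-1) ≤ ∑ b^(-1/2) ≤ 2 X^(1/4)`.
-/

set_option autoImplicit false

namespace Pool.Agent.Work.MP_f2148a_nt.MC

private theorem sum_inv_le (m : ℕ) : ∑ k ∈ Finset.Icc 1 m, (1 / (k : ℝ)) ≤ 2 * Real.sqrt m := by
  induction m with
  | zero => simp
  | succ m ih =>
    rw [Finset.sum_Icc_succ_top (by omega)]
    have h0 : (0 : ℝ) ≤ m := Nat.cast_nonneg m
    have h1 : (0 : ℝ) < m + 1 := by linarith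
    have hs0 : 0 ≤ Real.sqrt m := Real.sqrt_nonneg _
    have hs1 : 0 < Real.sqrt (m + 1) := Real.sqrt_pos.2 h1
    have e0 : Real.sqrt m ^ 2 = m := Real.sq_sqrt h0
    have e1 : Real.sqrt (m + 1) ^ 2 = m + 1 := Real.sq_sqrt h1.le
    have h2 : Real.sqrt m ≤ Real.sqrt (m + 1) := Real.sqrt_le_sqrt (by linarith)
    have h3 : 1 ≤ Real.sqrt (m + 1) := by
      rw [Real.one_le_sqrt]
      linarith
    have h4 : 1 / ((m : ℝ) + 1) ≤ 2 * (Real.sqrt (m + 1) - Real.sqrt m) := by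
      rw [div_le_iff₀ h1]
      nlinarith
    push_cast
    linarith

private theorem nf_sh {t : Tr} (h : Nm t) (n : ℤ) : nf (sh n t) = t := by
  have h0 : (sh n t).1 / 3 = n := by
    obtain ⟨h1, h2⟩ := h
    show (t.1 + 3 * n) / 3 = n
    omega
  rw [nf, h0, sh_sh, add_neg_cancel, sh_zero]

private theorem D_root {t : Tr} {n : ℤ} (h : v0 t n = 0) :
    D t = (sh n t).2.1 ^ 2 * ((sh n t).1 ^ 2 - 4 * (sh n t).2.1) := by
  rw [← D_sh n t]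
  have h1 : (sh n t).2.2 = 0 := h
  unfold D
  rw [h1]
  ring

/-- the bounds for `a'` and `b'` -/
private theorem bounds {Q : ℝ} (hQ : 1 ≤ Q) {a b : ℤ} (h0 : b ^ 2 * (a ^ 2 - 4 * b) ≠ 0)
    (h1 : |((b ^ 2 * (a ^ 2 - 4 * b) : ℤ) : ℝ)| ≤ Q ^ 4) :
    1 ≤ b.natAbs ∧ (b.natAbs : ℝ) ≤ Q ^ 2 ∧ |(a : ℝ)| ≤ 2 * Q + Q ^ 2 * (1 / (b.natAbs : ℝ)) := by
  have hb0 : b ≠ 0 := by
    rintro rfl
    exact h0 (by ring)
  have hc0 : a ^ 2 - 4 * b ≠ 0 := by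
    intro h
    exact h0 (by rw [h, mul_zero])
  have hk : 1 ≤ b.natAbs := Int.natAbs_pos.2 hb0
  have hkr : (1 : ℝ) ≤ b.natAbs := by exact_mod_cast hk
  have hkb : ((b.natAbs : ℕ) : ℝ) = |(b : ℝ)| := by
    rw [Nat.cast_natAbs, Int.cast_abs]
  have hk2 : ((b.natAbs : ℕ) : ℝ) ^ 2 = (b : ℝ) ^ 2 := by rw [hkb, sq_abs]
  have hc1 : (1 : ℝ) ≤ |((a ^ 2 - 4 * b : ℤ) : ℝ)| := by
    rw [← Int.cast_abs]
    exact_mod_cast Int.one_le_abs hc0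
  have h2 : ((b.natAbs : ℕ) : ℝ) ^ 2 * |((a ^ 2 - 4 * b : ℤ) : ℝ)| ≤ Q ^ 4 := by
    rw [hk2]
    have h3 : |((b ^ 2 * (a ^ 2 - 4 * b) : ℤ) : ℝ)| = (b : ℝ) ^ 2 * |((a ^ 2 - 4 * b : ℤ) : ℝ)| := by
      rw [Int.cast_mul, abs_mul, Int.cast_pow, abs_of_nonneg (sq_nonneg (b : ℝ))]
    rw [← h3]
    exact h1
  have hQ0 : 0 < Q := by linarith
  have hkpos : (0 : ℝ) < b.natAbs := by linarith
  have hkQ : (b.natAbs : ℝ) ≤ Q ^ 2 := by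
    have h3 : ((b.natAbs : ℕ) : ℝ) ^ 2 ≤ (Q ^ 2) ^ 2 := by nlinarith
    exact (sq_le_sq₀ hkpos.le (by positivity)).1 h3
  refine ⟨hk, hkQ, ?_⟩
  have h4 : |((a ^ 2 - 4 * b : ℤ) : ℝ)| ≤ (Q ^ 2 * (1 / (b.natAbs : ℝ))) ^ 2 := by
    have h5 : (Q ^ 2 * (1 / (b.natAbs : ℝ))) ^ 2 = Q ^ 4 / (b.natAbs : ℝ) ^ 2 := by
      field_simp
    rw [h5, le_div_iff₀ (by positivity), mul_comm]
    exact h2
  have h6 : (a : ℝ) ^ 2 ≤ (Q ^ 2 * (1 / (b.natAbs : ℝ))) ^ 2 + 4 * (b.natAbs : ℝ) := by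
    have h7 : (a : ℝ) ^ 2 = ((a ^ 2 - 4 * b : ℤ) : ℝ) + 4 * (b : ℝ) := by
      push_cast
      ring
    have h8 := le_abs_self ((a ^ 2 - 4 * b : ℤ) : ℝ)
    have h9 := le_abs_self (b : ℝ)
    rw [h7, hkb]
    rw [hkb] at h4
    linarith
  have h10 : (a : ℝ) ^ 2 ≤ (2 * Q + Q ^ 2 * (1 / (b.natAbs : ℝ))) ^ 2 := by
    have h11 : 0 ≤ Q ^ 2 * (1 / (b.natAbs : ℝ)) := by positivity
    nlinarith [mul_nonneg hQ0.le h11]
  exact abs_le_of_sq_le_sq h10 (by positivity)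

private theorem count_sum {Q : ℝ} (hQ : 1 ≤ Q) {m : ℕ} (hm : (m : ℝ) ≤ Q ^ 2) :
    2 * ∑ k ∈ Finset.Icc 1 m, (2 * (2 * Q + Q ^ 2 * (1 / (k : ℝ))) + 1) ≤ 18 * Q ^ 3 := by
  have h1 := sum_inv_le m
  have h2 : Real.sqrt m ≤ Q := by
    rw [Real.sqrt_le_left (by linarith)]
    exact hm
  have h3 : ∑ k ∈ Finset.Icc 1 m, (2 * (2 * Q + Q ^ 2 * (1 / (k : ℝ))) + 1) =
      m * (4 * Q + 1) + 2 * Q ^ 2 * ∑ k ∈ Finset.Icc 1 m, (1 / (k : ℝ)) := by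
    have h7 : ∀ k ∈ Finset.Icc 1 m, 2 * (2 * Q + Q ^ 2 * (1 / (k : ℝ))) + 1 =
        (4 * Q + 1) + 2 * Q ^ 2 * (1 / (k : ℝ)) := fun k _ => by ring
    rw [Finset.mul_sum, Finset.sum_congr rfl h7, Finset.sum_add_distrib, Finset.sum_const,
      Nat.card_Icc, nsmul_eq_mul]
    simp
  rw [h3]
  have h4 : (m : ℝ) * (4 * Q + 1) ≤ Q ^ 2 * (4 * Q + 1) :=
    mul_le_mul_of_nonneg_right hm (by linarith)
  have h5 : 2 * Q ^ 2 * ∑ k ∈ Finset.Icc 1 m, (1 / (k : ℝ)) ≤ 2 * Q ^ 2 * (2 * Q) :=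
    mul_le_mul_of_nonneg_left (by linarith) (by positivity)
  have h6 : Q ^ 2 * 1 ≤ Q ^ 2 * Q := mul_le_mul_of_nonneg_left hQ (by positivity)
  nlinarith

theorem red : ∃ A : ℝ, 0 ≤ A ∧ ∀ σ : ℝ, (σ = 1 ∨ σ = -1) → ∀ X : ℝ, 1 ≤ X → ∀ S : Finset Tr,
    (∀ t ∈ S, t ∈ TT σ X ∧ ∃ n : ℤ, v0 t n = 0) → (S.card : ℝ) ≤ A * X ^ (3 / 4 : ℝ) := by
  refine ⟨18, by norm_num, fun σ hσ X hX S hS => ?_⟩
  have hX0 : 0 < X := by linarith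
  obtain ⟨Q, hQdef⟩ : ∃ Q : ℝ, Q = X ^ (1 / 4 : ℝ) := ⟨_, rfl⟩
  have hQ1 : 1 ≤ Q := by
    rw [hQdef]
    exact Real.one_le_rpow hX (by norm_num)
  have hQ4 : Q ^ 4 = X := by
    rw [hQdef, ← Real.rpow_natCast, ← Real.rpow_mul hX0.le]
    norm_num
  have hQ3 : X ^ (3 / 4 : ℝ) = Q ^ 3 := by
    rw [hQdef, ← Real.rpow_natCast, ← Real.rpow_mul hX0.le]
    norm_num
  have hch : ∀ t : Tr, ∃ n : ℤ, t ∈ S → v0 t n = 0 := by
    intro t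
    by_cases ht : t ∈ S
    · obtain ⟨n, hn⟩ := (hS t ht).2
      exact ⟨n, fun _ => hn⟩
    · exact ⟨0, fun h => absurd h ht⟩
  choose n hn using hch
  have hfloor : ∀ k : ℕ, 0 ≤ ⌊2 * Q + Q ^ 2 * (1 / (k : ℝ))⌋ := by
    intro k
    apply Int.floor_nonneg.2
    positivity
  have hmem : ∀ t ∈ S, 1 ≤ (sh (n t) t).2.1.natAbs ∧
      ((sh (n t) t).2.1.natAbs : ℝ) ≤ Q ^ 2 ∧
      |((sh (n t) t).1 : ℝ)| ≤ 2 * Q + Q ^ 2 * (1 / ((sh (n t) t).2.1.natAbs : ℝ)) := by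
    intro t ht
    obtain ⟨⟨-, h1, h2⟩, -⟩ := hS t ht
    have h3 := D_root (hn t ht)
    apply bounds hQ1
    · rw [← h3]
      intro h4
      rw [h4] at h1
      simp at h1
    · rw [← h3, hQ4]
      rcases hσ with rfl | rfl
      · rw [one_mul] at h1 h2
        rw [abs_of_pos h1]
        exact h2
      · rw [neg_one_mul] at h1 h2
        rw [abs_of_neg (by linarith)]
        exact h2
  have hcard : S.card ≤ ((Finset.univ : Finset Bool) ×ˢ ((Finset.Icc 1 ⌊Q ^ 2⌋₊).sigma fun k =>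
      Finset.Icc (-⌊2 * Q + Q ^ 2 * (1 / (k : ℝ))⌋) ⌊2 * Q + Q ^ 2 * (1 / (k : ℝ))⌋)).card := by
    apply Finset.card_le_card_of_injOn (fun t => (decide (0 < (sh (n t) t).2.1),
      (⟨(sh (n t) t).2.1.natAbs, (sh (n t) t).1⟩ : Σ _ : ℕ, ℤ)))
    · intro t ht
      obtain ⟨h1, h2, h3⟩ := hmem t ht
      rw [Finset.mem_coe, Finset.mem_product, Finset.mem_sigma, Finset.mem_Icc, Finset.mem_Icc]
      refine ⟨Finset.mem_univ _, ⟨h1, Nat.le_floor h2⟩, ?_⟩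
      rw [abs_le] at h3
      constructor
      · rw [neg_le]
        apply Int.le_floor.2
        push_cast
        linarith [h3.1]
      · exact Int.le_floor.2 h3.2
    · intro t ht t' ht' h
      rw [Finset.mem_coe] at ht ht'
      simp only [Prod.mk.injEq, Sigma.mk.injEq, decide_eq_decide] at h
      obtain ⟨h1, h2, h3⟩ := h
      have h4 : (sh (n t) t).2.1 = (sh (n t') t').2.1 := by omega
      have h5 : (sh (n t) t).1 = (sh (n t') t').1 := eq_of_heq h3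
      have h6 : (sh (n t) t).2.2 = (sh (n t') t').2.2 := by
        show v0 t (n t) = v0 t' (n t')
        rw [hn t ht, hn t' ht']
      have h7 : sh (n t) t = sh (n t') t' := Prod.ext h5 (Prod.ext h4 h6)
      rw [← nf_sh (hS t ht).1.1 (n t), ← nf_sh (hS t' ht').1.1 (n t'), h7]
  rw [Finset.card_product, Finset.card_univ, Fintype.card_bool, Finset.card_sigma] at hcard
  have hcard' : (S.card : ℝ) ≤ 2 * ∑ k ∈ Finset.Icc 1 ⌊Q ^ 2⌋₊,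
      (2 * (2 * Q + Q ^ 2 * (1 / (k : ℝ))) + 1) := by
    refine le_trans (Nat.cast_le.2 hcard) ?_
    rw [Nat.cast_mul, Nat.cast_sum, Nat.cast_ofNat]
    refine mul_le_mul_of_nonneg_left (Finset.sum_le_sum fun k _ => ?_) (by norm_num)
    rw [Int.card_Icc]
    have h1 := hfloor k
    have h2 := Int.floor_le (2 * Q + Q ^ 2 * (1 / (k : ℝ)))
    have h3 : (((⌊2 * Q + Q ^ 2 * (1 / (k : ℝ))⌋ + 1 - -⌊2 * Q + Q ^ 2 * (1 / (k : ℝ))⌋).toNat : ℕ) : ℝ)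
        = ((2 * ⌊2 * Q + Q ^ 2 * (1 / (k : ℝ))⌋ + 1 : ℤ) : ℝ) := by
      rw [← Int.cast_natCast]
      congr 1
      omega
    rw [h3]
    push_cast
    linarith
  rw [hQ3]
  exact hcard'.trans (count_sum hQ1 (Nat.floor_le (by positivity)))

end Pool.Agent.Work.MP_f2148a_nt.MC
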