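import Pool.Agent.Work.MP_f2148a_nt.MC.NMax
import Pool.Agent.Work.MP_f2148a_nt.MC.Red

/-!
# MC/NG (size S): the number of the maximal irreducible triples

`{t ∈ TT σ X : Mx t}` is the disjoint union of `GG σ X` and of its part with an integer root (`¬ Ir t`), which has at most
`A X^(3/4)` elements (`red`); `3/4 ≤ 5/6 - κ` as `κ < 1/1080` (from `4/5 < θ`). Use `nMax`.
-/

set_option autoImplicit false

namespace Pool.Agent.Work.MP_f2148a_nt.MC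

theorem nG {θ κ : ℝ} (hA : As.Asy θ) (hQ : BM.AsyQ θ) (h1 : 4 / 5 < θ) (h2 : θ < 5 / 6)
    (hκ : θ = 5 / 6 - 36 * κ) :
    ∃ A : ℝ, 0 ≤ A ∧ ∀ σ : ℝ, (σ = 1 ∨ σ = -1) → ∀ X : ℝ, 1 ≤ X → (GG σ X).Finite ∧
    |(((GG σ X).ncard : ℕ) : ℝ) -
      BM.ar (-σ) / 432 * (6 / Real.pi ^ 2) * (432 * X) ^ (5 / 6 : ℝ)| ≤ A * X ^ (5 / 6 - κ) := by
  obtain ⟨A, hA0, hA'⟩ := nMax hA hQ h1 h2 hκ
  obtain ⟨B, hB0, hB⟩ := red
  refine ⟨A + B, by positivity, ?_⟩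
  intro σ hσ X hX
  obtain ⟨hfin, hest⟩ := hA' σ hσ X hX
  have hX0 : 0 < X := by linarith
  have hsub : GG σ X ⊆ {t | t ∈ TT σ X ∧ Mx t} := fun t ht => ⟨ht.1, ht.2.1⟩
  have hP : {t | t ∈ TT σ X ∧ Mx t}.Finite := hfin.subset fun t ht => ht.1
  have hG : (GG σ X).Finite := hP.subset hsub
  refine ⟨hG, ?_⟩
  have hdiff : ({t | t ∈ TT σ X ∧ Mx t} \ GG σ X).Finite := hP.subset Set.diff_subset
  have hcard := Set.ncard_sdiff_add_ncard_of_subset hsub hP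
  have hred : ((({t | t ∈ TT σ X ∧ Mx t} \ GG σ X).ncard : ℕ) : ℝ) ≤ B * X ^ (3 / 4 : ℝ) := by
    rw [Set.ncard_eq_toFinset_card _ hdiff]
    refine hB σ hσ X hX _ ?_
    intro t ht
    rw [hdiff.mem_toFinset] at ht
    refine ⟨ht.1.1, ?_⟩
    by_contra hno
    push Not at hno
    exact ht.2 ⟨ht.1.1, ht.1.2, hno⟩
  have hexp : X ^ (3 / 4 : ℝ) ≤ X ^ (5 / 6 - κ) := Real.rpow_le_rpow_of_exponent_le hX (by linarith)
  have hred2 : ((({t | t ∈ TT σ X ∧ Mx t} \ GG σ X).ncard : ℕ) : ℝ) ≤ B * X ^ (5 / 6 - κ) :=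
    hred.trans (mul_le_mul_of_nonneg_left hexp hB0)
  have hcard' : (((GG σ X).ncard : ℕ) : ℝ) = (({t | t ∈ TT σ X ∧ Mx t}.ncard : ℕ) : ℝ) -
      ((({t | t ∈ TT σ X ∧ Mx t} \ GG σ X).ncard : ℕ) : ℝ) := by
    rw [← hcard]
    push_cast
    ring
  have hnn : (0 : ℝ) ≤ ((({t | t ∈ TT σ X ∧ Mx t} \ GG σ X).ncard : ℕ) : ℝ) := Nat.cast_nonneg _
  rw [hcard', abs_le]
  rw [abs_le] at hest
  constructor
  · nlinarith [hest.1, hest.2]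
  · nlinarith [hest.1, hest.2, Real.rpow_nonneg hX0.le (5 / 6 - κ), mul_nonneg hB0 (Real.rpow_nonneg hX0.le (5 / 6 - κ))]

end Pool.Agent.Work.MP_f2148a_nt.MC
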