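import Pool.Agent.Work.MP_f2148a_nt.MC.FlB
import Pool.Agent.Work.MP_f2148a_nt.MC.Half
import Pool.Agent.Work.MP_f2148a_nt.MC.Exc
import Pool.Agent.Work.MP_f2148a_nt.MC.NG

/-!
# MC/CountF (size M): the number of the monogenic cubic fields

`K = 432 X`, `S = pt '' GG σ X`, `M = Mono σ X`, `R P e := ∃ t ∈ GG σ X, pt t = P ∧ Fl t e`. Hypotheses of `half`:
* `hpr`: from `hA`. `hS`: for `t ∈ GG σ X`, `(x, y) = pt t`: `y² - x³ = -432 D t` (`pt_id`), `0 < |D t| ≤ X`, so `pt t ∈ As.pr K`;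
  `y ≠ 0` by `fy_ne`; `(x, -y) = pt (nf (rf t))` (`pt_nf_rf`, `gg_nf_rf`).
* `h1`: `fl_ex`, `gg_mono`. `h2`: `mono_gg`. `h3`: `t` is determined by `P` (`pt_inj`, both normalised), then `fl_unique`.
* `h4`: `nf (rf t)` and `fl_nf_rf`. `h5`: `fl_D` and `pt_id`.
`#S = #GG` (`pt_inj`, `Set.ncard_image_of_injOn`). So `|#Mono - #GG / 2| ≤ #ex(K) ≤ A K^θ` (`exc`), `θ = 5/6 - 36κ ≤ 5/6 - κ`,
and `nG` gives the main term `(1/2) (ar(-σ)/432) (6/π²) (432 X)^(5/6)`. Finally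
`(1/2) (1/432) · 6 · 432^(5/6) = 3 / 432^(1/6) = √3 / 2^(2/3)` (`432 = 2⁴ 3³`, so `432^(1/6) = 2^(2/3) √3`).
-/

set_option autoImplicit false

namespace Pool.Agent.Work.MP_f2148a_nt.MC

/-- the relation between points and fields -/
private def RR (σ X : ℝ) (P : ℤ × ℤ) (e : Cl) : Prop := ∃ t ∈ GG σ X, pt t = P ∧ Fl t e

private theorem k_eq (t : Tr) : (pt t).2 ^ 2 - (pt t).1 ^ 3 = -432 * D t := pt_id t

private theorem pt_pr {σ X : ℝ} (hσ : σ = 1 ∨ σ = -1) {t : Tr} (ht : t ∈ TT σ X) : pt t ∈ As.pr (432 * X) := by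
  obtain ⟨-, h1, h2⟩ := ht
  have hk := k_eq t
  have hk' : ((pt t).2 : ℝ) ^ 2 - ((pt t).1 : ℝ) ^ 3 = -432 * (D t : ℝ) := by exact_mod_cast hk
  have hD : |(D t : ℝ)| = σ * (D t : ℝ) := by
    rcases hσ with rfl | rfl
    · rw [one_mul] at h1 ⊢
      exact abs_of_pos h1
    · rw [neg_one_mul] at h1 ⊢
      exact abs_of_neg (by linarith)
  refine ⟨?_, ?_⟩
  · intro h
    have h3 : D t = 0 := by
      have : (pt t).2 ^ 2 - (pt t).1 ^ 3 = 0 := by rw [h, sub_self]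
      omega
    rw [h3] at h1
    simp at h1
  · rw [hk', abs_mul, hD]
    have : |(-432 : ℝ)| = 432 := by norm_num
    rw [this]
    linarith

private theorem const_eq (X : ℝ) (hX : 1 ≤ X) (c : ℝ) :
    (c / 432 * (6 / Real.pi ^ 2) * (432 * X) ^ (5 / 6 : ℝ)) / 2 =
      √3 / (2 ^ (2 / 3 : ℝ) * Real.pi ^ 2) * c * X ^ (5 / 6 : ℝ) := by
  have hX0 : 0 ≤ X := by linarith
  have h1 : (432 * X) ^ (5 / 6 : ℝ) = 432 ^ (5 / 6 : ℝ) * X ^ (5 / 6 : ℝ) :=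
    Real.mul_rpow (by norm_num) hX0
  have h2 : (432 : ℝ) ^ (5 / 6 : ℝ) * 3 / 432 = √3 / 2 ^ (2 / 3 : ℝ) := by
    have e1 : (432 : ℝ) = 2 ^ (4 : ℝ) * 3 ^ (3 : ℝ) := by norm_num
    have e2 : (432 : ℝ) ^ (5 / 6 : ℝ) = 2 ^ (10 / 3 : ℝ) * 3 ^ (5 / 2 : ℝ) := by
      conv_lhs => rw [e1]
      rw [Real.mul_rpow (by positivity) (by positivity), ← Real.rpow_mul (by norm_num), ← Real.rpow_mul (by norm_num)]
      norm_num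
    have e3 : (2 : ℝ) ^ (10 / 3 : ℝ) * 2 ^ (2 / 3 : ℝ) = 16 := by
      rw [← Real.rpow_add (by norm_num)]
      norm_num
    have e4 : (3 : ℝ) ^ (5 / 2 : ℝ) = 9 * √3 := by
      rw [Real.sqrt_eq_rpow]
      have : (5 / 2 : ℝ) = 2 + 1 / 2 := by norm_num
      rw [this, Real.rpow_add (by norm_num)]
      norm_num
    have h0 : (0 : ℝ) < 2 ^ (2 / 3 : ℝ) := by positivity
    rw [eq_div_iff h0.ne', e2, e4]
    have : (2 : ℝ) ^ (10 / 3 : ℝ) * (9 * √3) * 3 / 432 * 2 ^ (2 / 3 : ℝ) =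
      (2 ^ (10 / 3 : ℝ) * 2 ^ (2 / 3 : ℝ)) * (27 * √3 / 432) := by ring
    rw [this, e3]
    ring
  have hpi : Real.pi ≠ 0 := Real.pi_ne_zero
  rw [h1]
  have h3 : √3 / (2 ^ (2 / 3 : ℝ) * Real.pi ^ 2) = (√3 / 2 ^ (2 / 3 : ℝ)) / Real.pi ^ 2 := by
    rw [div_div]
  rw [h3, ← h2]
  field_simp
  ring

theorem countF {θ κ : ℝ} (hA : As.Asy θ) (hQ : BM.AsyQ θ) (h1 : 4 / 5 < θ) (h2 : θ < 5 / 6)
    (hκ : θ = 5 / 6 - 36 * κ) :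
    ∃ A : ℝ, 0 ≤ A ∧ ∀ σ : ℝ, (σ = 1 ∨ σ = -1) → ∀ X : ℝ, 1 ≤ X → (Mono σ X).Finite ∧
    |(((Mono σ X).ncard : ℕ) : ℝ) -
      √3 / (2 ^ (2 / 3 : ℝ) * Real.pi ^ 2) * BM.ar (-σ) * X ^ (5 / 6 : ℝ)| ≤ A * X ^ (5 / 6 - κ) := by
  obtain ⟨A1, hA1, hG⟩ := nG hA hQ h1 h2 hκ
  obtain ⟨A2, hA2, hE⟩ := exc hA h1
  obtain ⟨A0, hA0⟩ := id hA
  have hθ : θ ≤ 5 / 6 - κ := by linarith
  have h432 : (0 : ℝ) ≤ 432 ^ θ := by positivity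
  refine ⟨A1 / 2 + A2 * 432 ^ θ, by positivity, fun σ hσ X hX => ?_⟩
  have hX0 : 0 < X := by linarith
  have hK : 1 ≤ 432 * X := by linarith
  obtain ⟨gf, gb⟩ := hG σ hσ X hX
  obtain ⟨ef, eb⟩ := hE (432 * X) hK
  have hpr : (As.pr (432 * X)).Finite := (hA0 _ hK).1
  have hinj : Set.InjOn pt (GG σ X) := fun t ht s hs h => pt_inj ht.1.1 hs.1.1 h
  have H := half (K := 432 * X) hpr (pt '' GG σ X) (Mono σ X) (RR σ X) ?_ ?_ ?_ ?_ ?_ ?_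
  · obtain ⟨mf, mb⟩ := H
    refine ⟨mf, ?_⟩
    rw [Set.InjOn.ncard_image hinj] at mb
    have h3 : (((ex (432 * X)).ncard : ℕ) : ℝ) ≤ A2 * 432 ^ θ * X ^ (5 / 6 - κ) := by
      refine eb.trans ?_
      rw [Real.mul_rpow (by norm_num) hX0.le, mul_assoc]
      refine mul_le_mul_of_nonneg_left ?_ hA2
      exact mul_le_mul_of_nonneg_left (Real.rpow_le_rpow_of_exponent_le hX hθ) h432
    rw [← const_eq X hX]
    rw [abs_le] at gb mb ⊢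
    have h4 : (A1 / 2 + A2 * 432 ^ θ) * X ^ (5 / 6 - κ) =
      A1 * X ^ (5 / 6 - κ) / 2 + A2 * 432 ^ θ * X ^ (5 / 6 - κ) := by ring
    rw [h4]
    constructor
    · linarith [gb.1, mb.1]
    · linarith [gb.2, mb.2]
  · rintro _ ⟨t, ht, rfl⟩
    refine ⟨pt_pr hσ ht.1, fy_ne ht.2.2, nf (rf t), gg_nf_rf ht, pt_nf_rf t⟩
  · rintro _ ⟨t, ht, rfl⟩
    obtain ⟨e, he⟩ := fl_ex ht.2.2
    exact ⟨e, gg_mono ht he, t, ht, rfl, he⟩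
  · intro e he
    obtain ⟨t, ht, hf⟩ := mono_gg he
    exact ⟨pt t, ⟨t, ht, rfl⟩, t, ht, rfl, hf⟩
  · rintro _ ⟨t, ht, rfl⟩ e e' ⟨s, hs, hp, hf⟩ ⟨s', hs', hp', hf'⟩
    have e1 : s = s' := hinj hs hs' (hp.trans hp'.symm)
    subst e1
    exact fl_unique hs.2.2 hf hf'
  · rintro _ ⟨t, ht, rfl⟩ e ⟨s, hs, hp, hf⟩
    refine ⟨nf (rf s), gg_nf_rf hs, ?_, fl_nf_rf hf⟩
    rw [pt_nf_rf, hp]
  · rintro _ ⟨t, ht, rfl⟩ _ ⟨t', ht', rfl⟩ e ⟨s, hs, hp, hf⟩ ⟨s', hs', hp', hf'⟩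
    rw [← hp, ← hp', k_eq, k_eq, fl_D hs.2.1 hs.2.2 hs'.2.1 hs'.2.2 hf hf']

end Pool.Agent.Work.MP_f2148a_nt.MC
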