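import Mathlib

/-!
# MP_f2148a_nt, block MC (monogenic cubic fields): definitions (FIXED, do not change)

A triple `t = (a, b, c)` of integers stands for the monic cubic `f = X³ + a X² + b X + c`; `D t` is its discriminant,
`v0 t r = f(r)`, `v1 t r = f'(r)`, `pt t = (x, y) = (4 (a² - 3b), 4 (-2a³ + 9ab - 27c))`, and
`y² = x³ - 432 D` (an integer point on a Mordell curve). `sh n t` is `f(X + n)`, `rf t` is `-f(-X)`, `Nm t` says that
`0 ≤ a ≤ 2` (each `f` has exactly one translate of this kind, `nf t`). `Bad p t`: the order `ℤ[X]/f` is not maximal at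
`p` (there is `r` with `p ∣ f'(r)`, `p² ∣ f(r)`), `Mx t`: maximal at all primes.
-/

set_option autoImplicit false

namespace Pool.Agent.Work.MP_f2148a_nt.MC

open Polynomial NumberField

/-- the triple `(a, b, c)` stands for the monic cubic `X³ + a X² + b X + c` -/
abbrev Tr : Type := ℤ × ℤ × ℤ

/-- the discriminant -/
def D (t : Tr) : ℤ :=
  t.1 ^ 2 * t.2.1 ^ 2 - 4 * t.2.1 ^ 3 - 4 * t.1 ^ 3 * t.2.2 - 27 * t.2.2 ^ 2 + 18 * t.1 * t.2.1 * t.2.2

/-- the first coordinate of the integer point of `t` -/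
def fx (t : Tr) : ℤ := 4 * (t.1 ^ 2 - 3 * t.2.1)

/-- the second coordinate of the integer point of `t` -/
def fy (t : Tr) : ℤ := 4 * (-2 * t.1 ^ 3 + 9 * t.1 * t.2.1 - 27 * t.2.2)

/-- the integer point of `t`; it is on `y² = x³ - 432 D` -/
def pt (t : Tr) : ℤ × ℤ := (fx t, fy t)

/-- the value `f(r)` -/
def v0 (t : Tr) (r : ℤ) : ℤ := r ^ 3 + t.1 * r ^ 2 + t.2.1 * r + t.2.2

/-- the value `f'(r)` -/
def v1 (t : Tr) (r : ℤ) : ℤ := 3 * r ^ 2 + 2 * t.1 * r + t.2.1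

/-- the translate `f(X + n)` -/
def sh (n : ℤ) (t : Tr) : Tr := (t.1 + 3 * n, v1 t n, v0 t n)

/-- the reflection `-f(-X)` -/
def rf (t : Tr) : Tr := (-t.1, t.2.1, -t.2.2)

/-- the translate with `0 ≤ a ≤ 2` -/
def nf (t : Tr) : Tr := sh (-(t.1 / 3)) t

/-- normalised: `0 ≤ a ≤ 2` -/
def Nm (t : Tr) : Prop := 0 ≤ t.1 ∧ t.1 < 3

/-- not maximal at `p` -/
def Bad (p : ℕ) (t : Tr) : Prop := ∃ r : ℤ, (p : ℤ) ∣ v1 t r ∧ (p : ℤ) ^ 2 ∣ v0 t r

/-- maximal at all primes -/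
def Mx (t : Tr) : Prop := ∀ p : ℕ, p.Prime → ¬ Bad p t

/-- no integer root (equivalently: irreducible over `ℚ`) -/
def Ir (t : Tr) : Prop := ∀ n : ℤ, v0 t n ≠ 0

/-- the normalised triples with `0 < σ D ≤ X` -/
def TT (σ X : ℝ) : Set Tr := {t | Nm t ∧ 0 < σ * (D t : ℝ) ∧ σ * (D t : ℝ) ≤ X}

/-- the normalised triples with `0 < σ D ≤ X`, maximal and irreducible -/
def GG (σ X : ℝ) : Set Tr := {t | t ∈ TT σ X ∧ Mx t ∧ Ir t}

/-- the polynomial of `t` -/
noncomputable def pl (t : Tr) : ℤ[X] := X ^ 3 + C t.1 * X ^ 2 + C t.2.1 * X + C t.2.2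

/-- the product of the primes `p` at which `t` is not maximal (they divide `D t`; `D t ≠ 0`) -/
noncomputable def q (t : Tr) : ℕ := by
  classical
  exact ∏ p ∈ (D t).natAbs.primeFactors.filter (fun p => Bad p t), p

/-! ### cubic fields -/

/-- the subfields of `ℂ` of degree 3 (every cubic number field is isomorphic to one of them) -/
def CF : Type := {F : IntermediateField ℚ ℂ // Module.finrank ℚ F = 3}

instance (F : CF) : NumberField F.1 :=
  { to_charZero := inferInstance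
    to_finiteDimensional := Module.finite_of_finrank_pos (by rw [F.2]; norm_num) }

/-- isomorphism -/
instance rel : Setoid CF where
  r F G := Nonempty (F.1 ≃ₐ[ℚ] G.1)
  iseqv := ⟨fun F => ⟨AlgEquiv.refl⟩, fun ⟨e⟩ => ⟨e.symm⟩, fun ⟨e⟩ ⟨e'⟩ => ⟨e.trans e'⟩⟩

/-- isomorphism classes of cubic fields -/
abbrev Cl : Type := Quotient rel

/-- `𝓞 F = ℤ[α]` -/
def Gen (F : CF) (α : 𝓞 F.1) : Prop := Algebra.adjoin ℤ {α} = ⊤

/-- `e` is the class of a cubic field that contains a root of `t` -/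
def Fl (t : Tr) (e : Cl) : Prop := ∃ F : CF, e = ⟦F⟧ ∧ ∃ z : F.1, Polynomial.aeval z (pl t) = 0

/-- the isomorphism classes of the monogenic cubic fields with `0 < σ D_F ≤ X` -/
def Mono (σ X : ℝ) : Set Cl := {e | ∃ F : CF, e = ⟦F⟧ ∧ 0 < σ * (discr F.1 : ℝ) ∧
  σ * (discr F.1 : ℝ) ≤ X ∧ ∃ α : 𝓞 F.1, Gen F α}

end Pool.Agent.Work.MP_f2148a_nt.MC
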