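import Pool.Agent.Work.MP_f2148a_nt.MC.MinP

/-!
# MC/DiscG (size M-L): the discriminant of `ℤ[α]`

`1, α, α²` is a `ℤ`-basis of `𝓞 F` (`gen_repr` spans, `uniqc` gives the independence; or the power basis of
`Algebra.adjoin` / `PowerBasis.ofAdjoinEqTop'`), so `NumberField.discr_eq_discr` says that
`NumberField.discr F = Algebra.discr ℤ (1, α, α²) = det (Tr (α^(i+j)))`, a `3 × 3` determinant. With `f = X³ + aX² + bX + c`:
`Tr 1 = 3`, `Tr α = -a`, `Tr α² = a² - 2b`, and `Tr α³ = -a Tr α² - b Tr α - c Tr 1`, `Tr α⁴ = -a Tr α³ - b Tr α² - c Tr α`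
(linearity of the trace, `α³ = -aα² - bα - c`). `Tr α`, `Tr α²` are the traces of the matrices of the multiplication in
the basis `1, α, α²` (`Algebra.trace_eq_matrix_trace`, `Algebra.leftMulMatrix_apply`, the columns for `α` are
`(0,1,0), (0,0,1), (-c,-b,-a)`, for `α²`: `(0,0,1), (-c,-b,-a), (ac, ab - c, a² - b)`). The determinant
`3 (s2 s4 - s3²) - s1 (s1 s4 - s2 s3) + s2 (s1 s3 - s2²)` is `D t` by `ring` (checked numerically). Alternative: `Algebra.discr_powerBasis_eq_prod''`,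
or `Algebra.discr_powerBasis_eq_norm` and the norm of `f'(α)` as a determinant.
-/

set_option autoImplicit false

namespace Pool.Agent.Work.MP_f2148a_nt.MC

open Polynomial NumberField

private theorem dg_basis (F : CF) (α : 𝓞 F.1) (h : Gen F α) (t : Tr) (ht : minpoly ℤ α = pl t) :
    ∃ B : Module.Basis (Fin 3) ℤ (𝓞 F.1), ∀ i, B i = α ^ (i : ℕ) := by
  have hint : IsIntegral ℤ α := Algebra.IsIntegral.isIntegral α
  have hdeg : (minpoly ℤ α).natDegree = 3 := by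
    rw [ht]
    unfold pl
    compute_degree!
  have hdim : (PowerBasis.ofAdjoinEqTop' hint h).dim = 3 := by
    rw [PowerBasis.ofAdjoinEqTop'_dim, hdeg]
  refine ⟨(PowerBasis.ofAdjoinEqTop' hint h).basis.reindex (finCongr hdim), fun i => ?_⟩
  rw [Module.Basis.reindex_apply, PowerBasis.basis_eq_pow, PowerBasis.ofAdjoinEqTop'_gen]
  rfl

private theorem dg_cube (F : CF) (α : 𝓞 F.1) (t : Tr) (ht : minpoly ℤ α = pl t) :
    α ^ 3 = (-t.2.2) • (1 : 𝓞 F.1) + (-t.2.1) • α + (-t.1) • α ^ 2 := by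
  have h1 := minpoly.aeval ℤ α
  rw [ht] at h1
  unfold pl at h1
  simp only [map_add, map_mul, map_pow, aeval_X, aeval_C] at h1
  simp only [zsmul_eq_mul, Int.cast_neg]
  have h2 : ∀ n : ℤ, algebraMap ℤ (𝓞 F.1) n = (n : 𝓞 F.1) := fun n => rfl
  rw [h2, h2, h2] at h1
  linear_combination h1

private theorem dg_repr (F : CF) (B : Module.Basis (Fin 3) ℤ (𝓞 F.1)) (x y z : ℤ) :
    B.repr (x • B 0 + y • B 1 + z • B 2) 0 = x ∧ B.repr (x • B 0 + y • B 1 + z • B 2) 1 = y ∧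
      B.repr (x • B 0 + y • B 1 + z • B 2) 2 = z := by
  have h1 : B.repr (x • B 0 + y • B 1 + z • B 2) =
      x • Finsupp.single 0 1 + y • Finsupp.single 1 1 + z • Finsupp.single 2 1 := by
    rw [map_add, map_add, map_smul, map_smul, map_smul, B.repr_self, B.repr_self, B.repr_self]
  rw [h1]
  refine ⟨?_, ?_, ?_⟩ <;>
    simp [Finsupp.single_apply]

theorem discG (F : CF) (α : 𝓞 F.1) (h : Gen F α) (t : Tr) (ht : minpoly ℤ α = pl t) :
    NumberField.discr F.1 = D t := by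
  obtain ⟨B, hB⟩ := dg_basis F α h t ht
  have hc := dg_cube F α t ht
  have b0 : B 0 = 1 := by rw [hB]; exact pow_zero α
  have b1 : B 1 = α := by rw [hB]; exact pow_one α
  have b2 : B 2 = α ^ 2 := hB 2
  have h4 : α ^ 4 = (t.1 * t.2.2) • (1 : 𝓞 F.1) + (t.1 * t.2.1 - t.2.2) • α +
      (t.1 ^ 2 - t.2.1) • α ^ 2 := by
    have h5 : α ^ 4 = α * α ^ 3 := by ring
    have h6 : α ^ 4 = (-t.2.2) • α + (-t.2.1) • α ^ 2 + (-t.1) • α ^ 3 := by
      rw [h5]
      nth_rewrite 1 [hc]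
      simp only [zsmul_eq_mul]
      ring
    rw [h6, hc]
    simp only [zsmul_eq_mul]
    push_cast
    ring
  have s0 : Algebra.trace ℤ (𝓞 F.1) 1 = 3 := by
    rw [Algebra.trace_eq_matrix_trace B, map_one, Matrix.trace_one, Fintype.card_fin]
    rfl
  have s1 : Algebra.trace ℤ (𝓞 F.1) α = -t.1 := by
    rw [Algebra.trace_eq_matrix_trace B, Matrix.trace_fin_three,
      Algebra.leftMulMatrix_eq_repr_mul, Algebra.leftMulMatrix_eq_repr_mul,
      Algebra.leftMulMatrix_eq_repr_mul, b0, b1, b2]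
    have e0 : α * 1 = B 1 := by rw [b1, mul_one]
    have e1 : α * α = B 2 := by rw [b2, sq]
    have e2 : α * α ^ 2 = (-t.2.2) • B 0 + (-t.2.1) • B 1 + (-t.1) • B 2 := by
      rw [b0, b1, b2, ← hc]
      ring
    rw [e0, e1, e2, B.repr_self, B.repr_self, (dg_repr F B _ _ _).2.2]
    simp [Finsupp.single_apply]
  have s2 : Algebra.trace ℤ (𝓞 F.1) (α ^ 2) = t.1 ^ 2 - 2 * t.2.1 := by
    rw [Algebra.trace_eq_matrix_trace B, Matrix.trace_fin_three,
      Algebra.leftMulMatrix_eq_repr_mul, Algebra.leftMulMatrix_eq_repr_mul,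
      Algebra.leftMulMatrix_eq_repr_mul, b0, b1, b2]
    have e0 : α ^ 2 * 1 = B 2 := by rw [b2, mul_one]
    have e1 : α ^ 2 * α = (-t.2.2) • B 0 + (-t.2.1) • B 1 + (-t.1) • B 2 := by
      rw [b0, b1, b2, ← hc]
      ring
    have e2 : α ^ 2 * α ^ 2 = (t.1 * t.2.2) • B 0 + (t.1 * t.2.1 - t.2.2) • B 1 +
        (t.1 ^ 2 - t.2.1) • B 2 := by
      rw [b0, b1, b2, ← h4]
      ring
    rw [e0, e1, e2, B.repr_self, (dg_repr F B _ _ _).2.1, (dg_repr F B _ _ _).2.2]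
    simp [Finsupp.single_apply]
    ring
  have s3 : Algebra.trace ℤ (𝓞 F.1) (α ^ 3) =
      -t.2.2 * 3 + -t.2.1 * -t.1 + -t.1 * (t.1 ^ 2 - 2 * t.2.1) := by
    rw [hc, map_add, map_add, map_smul, map_smul, map_smul, s0, s1, s2]
    rfl
  have s4 : Algebra.trace ℤ (𝓞 F.1) (α ^ 4) =
      (t.1 * t.2.2) * 3 + (t.1 * t.2.1 - t.2.2) * -t.1 +
        (t.1 ^ 2 - t.2.1) * (t.1 ^ 2 - 2 * t.2.1) := by
    rw [h4, map_add, map_add, map_smul, map_smul, map_smul, s0, s1, s2]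
    rfl
  rw [← NumberField.discr_eq_discr F.1 B, Algebra.discr_def, Matrix.det_fin_three]
  simp only [Algebra.traceMatrix_apply, Algebra.traceForm_apply]
  rw [b0, b1, b2]
  have m00 : (1 : 𝓞 F.1) * 1 = 1 := one_mul 1
  have m11 : α * α = α ^ 2 := by ring
  have m12 : α * α ^ 2 = α ^ 3 := by ring
  have m21 : α ^ 2 * α = α ^ 3 := by ring
  have m22 : α ^ 2 * α ^ 2 = α ^ 4 := by ring
  rw [m00, one_mul, one_mul, mul_one, mul_one, m11, m12, m21, m22, s0, s1, s2, s3, s4]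
  unfold D
  ring

end Pool.Agent.Work.MP_f2148a_nt.MC
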