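import Pool.Agent.Work.MP_f2148a_nt.MC.IntC
import Pool.Agent.Work.MP_f2148a_nt.MC.Alg

/-!
# MC/FlA (size M): the cubic field of an irreducible triple

* `fl_ex`: the polynomial `pl t` has a root `θ` in `ℂ`; it is irreducible over `ℚ` (a monic cubic with integer
  coefficients and a rational root has an integer root; `Polynomial.Monic.irreducible_of_irreducible_map`,
  `Polynomial.irreducible_of_degree_le_three_of_not_isRoot`, `isInteger_of_is_root_of_monic`), so `F = ℚ(θ)` has degree 3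
  (`IntermediateField.adjoin.finrank`, `minpoly.eq_of_irreducible_of_monic`) and contains the root `θ`
  (`IntermediateField.AdjoinSimple.gen`).
* `fl_unique`: if `F` and `G` are cubic and contain roots `z`, `z'` of the irreducible `pl t` then `F = ℚ(z)` and
  `G = ℚ(z')` (degree 3) are both isomorphic to `ℚ[X]/(f)` (`IntermediateField.adjoinRootEquivAdjoin`,
  `minpoly.algEquiv`, or `IntermediateField.algEquivOfAlgHom...`: there is a homomorphism `F → G` sending `z` to `z'` (power
  basis), injective, and bijective by the dimension `LinearMap.injective_iff_surjective_of_finrank_eq_finrank`).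
* `fl_sh`: `z` is a root of `t` iff `z - n` is a root of `sh n t`; `fl_rf`: iff `-z` is a root of `rf t`
  (`pl_eval`, `ring`).
* `fl_root`: for `F` in the class and `Ir t` there is `α : 𝓞 F` with `minpoly ℤ α = pl t`: `F` is isomorphic to a `G` that
  contains a root, so `F` contains a root `z`, integral as `pl t` is monic; `minp_of_root`.
-/

set_option autoImplicit false

namespace Pool.Agent.Work.MP_f2148a_nt.MC

open Polynomial NumberField

private theorem pl_monic (t : Tr) : (pl t).Monic := by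
  unfold pl
  monicity!

private theorem pl_deg (t : Tr) : (pl t).natDegree = 3 := by
  unfold pl
  compute_degree!

/-- the polynomial over `ℚ` -/
private noncomputable def fq (t : Tr) : ℚ[X] := (pl t).map (algebraMap ℤ ℚ)

private theorem fq_monic (t : Tr) : (fq t).Monic := (pl_monic t).map _

private theorem fq_deg (t : Tr) : (fq t).natDegree = 3 := by
  unfold fq
  rw [(pl_monic t).natDegree_map, pl_deg]

private theorem fq_irr {t : Tr} (h : Ir t) : Irreducible (fq t) := by
  rw [(fq_monic t).irreducible_iff_roots_eq_zero_of_degree_le_three (by rw [fq_deg]; norm_num) (by rw [fq_deg])]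
  rw [Multiset.eq_zero_iff_forall_notMem]
  intro r hr
  rw [Polynomial.mem_roots (fq_monic t).ne_zero, Polynomial.IsRoot.def] at hr
  have h1 : Polynomial.aeval r (pl t) = 0 := by
    rw [Polynomial.aeval_def, ← Polynomial.eval_map]
    exact hr
  obtain ⟨n, hn⟩ := isInteger_of_is_root_of_monic (pl_monic t) h1
  rw [← hn, pl_eval] at h1
  apply h n
  have h2 : ((v0 t n : ℤ) : ℚ) = 0 := by
    rw [← h1]
    simp only [v0, eq_intCast]
    push_cast
    ring
  exact_mod_cast h2

private theorem fq_aeval {K : Type*} [Field K] [Algebra ℚ K] {t : Tr} {z : K} (h : Polynomial.aeval z (pl t) = 0) :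
    Polynomial.aeval z (fq t) = 0 := by
  unfold fq
  rw [Polynomial.aeval_map_algebraMap]
  exact h

/-- a cubic field which contains a root is `ℚ[X]/(f)` -/
private theorem fl_iso {K : Type*} [Field K] [Algebra ℚ K] (hK : Module.finrank ℚ K = 3) {t : Tr} (h : Ir t) {z : K}
    (hz : Polynomial.aeval z (pl t) = 0) : Nonempty (AdjoinRoot (fq t) ≃ₐ[ℚ] K) := by
  have : Fact (Irreducible (fq t)) := ⟨fq_irr h⟩
  have hev : (fq t).eval₂ (Algebra.ofId ℚ K) z = 0 := fq_aeval hz
  let φ : AdjoinRoot (fq t) →ₐ[ℚ] K := AdjoinRoot.liftAlgHom (fq t) (Algebra.ofId ℚ K) z hev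
  have hinj : Function.Injective φ := φ.toRingHom.injective
  have hfr : Module.finrank ℚ (AdjoinRoot (fq t)) = 3 := by
    rw [(AdjoinRoot.powerBasis (fq_monic t).ne_zero).finrank, AdjoinRoot.powerBasis_dim, fq_deg]
  have : FiniteDimensional ℚ (AdjoinRoot (fq t)) := Module.finite_of_finrank_pos (by rw [hfr]; norm_num)
  have : FiniteDimensional ℚ K := Module.finite_of_finrank_pos (by rw [hK]; norm_num)
  have hsurj : Function.Surjective φ.toLinearMap :=
    (LinearMap.injective_iff_surjective_of_finrank_eq_finrank (hfr.trans hK.symm)).1 hinj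
  exact ⟨AlgEquiv.ofBijective φ ⟨hinj, hsurj⟩⟩

theorem fl_ex {t : Tr} (h : Ir t) : ∃ e : Cl, Fl t e := by
  obtain ⟨θ, hθ⟩ := IsAlgClosed.exists_aeval_eq_zero (k := ℂ) (pl t) (by
    rw [Polynomial.degree_eq_natDegree (pl_monic t).ne_zero, pl_deg]
    norm_num)
  have hθq : Polynomial.aeval θ (fq t) = 0 := fq_aeval hθ
  have hint : IsIntegral ℚ θ := ⟨fq t, fq_monic t, hθq⟩
  have hmin : fq t = minpoly ℚ θ := minpoly.eq_of_irreducible_of_monic (fq_irr h) hθq (fq_monic t)
  have hfin : Module.finrank ℚ (IntermediateField.adjoin ℚ {θ}) = 3 := by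
    rw [IntermediateField.adjoin.finrank hint, ← hmin, fq_deg]
  refine ⟨⟦⟨IntermediateField.adjoin ℚ {θ}, hfin⟩⟧, ⟨IntermediateField.adjoin ℚ {θ}, hfin⟩, rfl,
    IntermediateField.AdjoinSimple.gen ℚ θ, ?_⟩
  rw [pl_eval] at hθ ⊢
  apply Subtype.coe_injective
  push_cast
  rw [IntermediateField.AdjoinSimple.coe_gen]
  exact hθ

theorem fl_unique {t : Tr} (h : Ir t) {e e' : Cl} (he : Fl t e) (he' : Fl t e') : e = e' := by
  obtain ⟨F, rfl, z, hz⟩ := he
  obtain ⟨G, rfl, z', hz'⟩ := he'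
  obtain ⟨i⟩ := fl_iso F.2 h hz
  obtain ⟨j⟩ := fl_iso G.2 h hz'
  exact Quotient.sound ⟨i.symm.trans j⟩

theorem fl_sh (n : ℤ) {t : Tr} {e : Cl} (h : Fl t e) : Fl (sh n t) e := by
  obtain ⟨F, rfl, z, hz⟩ := h
  refine ⟨F, rfl, z - (n : F.1), ?_⟩
  rw [pl_eval] at hz ⊢
  simp only [sh, v0, v1]
  push_cast
  linear_combination hz

theorem fl_rf {t : Tr} {e : Cl} (h : Fl t e) : Fl (rf t) e := by
  obtain ⟨F, rfl, z, hz⟩ := h
  refine ⟨F, rfl, -z, ?_⟩
  rw [pl_eval] at hz ⊢
  simp only [rf]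
  push_cast
  linear_combination -hz

theorem fl_nf_rf {t : Tr} {e : Cl} (h : Fl t e) : Fl (nf (rf t)) e := fl_sh _ (fl_rf h)

theorem fl_root {t : Tr} (ht : Ir t) (F : CF) (h : Fl t ⟦F⟧) : ∃ α : 𝓞 F.1, minpoly ℤ α = pl t := by
  obtain ⟨G, hFG, z, hz⟩ := h
  obtain ⟨i⟩ := Quotient.exact hFG
  have hz1 : Polynomial.aeval (i.symm z) (pl t) = 0 := by
    rw [pl_eval] at hz ⊢
    have h1 := congrArg i.symm hz
    simp only [map_add, map_mul, map_pow, map_intCast, map_zero] at h1
    exact h1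
  have hint : IsIntegral ℤ (i.symm z) := ⟨pl t, pl_monic t, hz1⟩
  obtain ⟨α, hα⟩ : ∃ α : 𝓞 F.1, algebraMap (𝓞 F.1) F.1 α = i.symm z := ⟨⟨i.symm z, hint⟩, rfl⟩
  refine ⟨α, (minp_of_root F α t ht ?_).1⟩
  have h2 : algebraMap (𝓞 F.1) F.1 (Polynomial.aeval α (pl t)) = 0 := by
    rw [pl_eval] at hz1 ⊢
    simp only [map_add, map_mul, map_pow, map_intCast]
    rw [hα]
    exact hz1
  exact RingOfIntegers.coe_eq_zero_iff.1 h2

theorem fl_of_minp {t : Tr} (F : CF) (α : 𝓞 F.1) (h : minpoly ℤ α = pl t) : Fl t ⟦F⟧ := by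
  refine ⟨F, rfl, algebraMap (𝓞 F.1) F.1 α, ?_⟩
  have h1 := minpoly.aeval ℤ α
  rw [h, pl_eval] at h1
  rw [pl_eval]
  have h2 := congrArg (algebraMap (𝓞 F.1) F.1) h1
  simp only [map_add, map_mul, map_pow, map_intCast, map_zero] at h2
  exact h2

end Pool.Agent.Work.MP_f2148a_nt.MC
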