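import Pool.Agent.Work.MP_f2148a_nt.MC.MinP

/-!
# MC/MaxB (size M): reduction to a monic element of degree 1 or 2

Say that `(u, v, w)` is good if there is `ω : 𝓞 F` with `p ω = u + vα + wα²`. Good triples are closed under sums,
multiples by integers, and `(p u, p v, p w)` is good; `(u, 0, 0)` good implies `p ∣ u` (`u / p` is an integral rational
number; formally: `p ω = u`, so `ω` is rational, hence an integer by `deg3`/`uniqc` or the norm, and `p ∣ u`).
(1) If some good `(u, v, 0)` has not both entries divisible by `p`, then `p ∤ v` (if `p ∣ v` subtract `(0, v, 0)`, so `(u, 0, 0)` is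
good, `p ∣ u`), and with `v v' ≡ 1 (mod p)`, `(u v', v v', 0)` and then `(u v', 1, 0)` is good: `r = -u v'`, first alternative.
(2) Otherwise let `(u, v, w)` be the given good triple, not divisible by `p`. If `p ∣ w` then `(u, v, 0)` is good and not
divisible by `p`: excluded. So `p ∤ w`; multiplying by the inverse of `w` we get a good `(v1, u1, 1)`, that is
`p ω = α² + u1 α + v1`. Multiply by `α - r` with `r = u1 - a`:
`(α² + u1 α + v1)(α - r) = (α³ + aα² + bα + c) + (v1 - u1 r - b) α + (-v1 r - c)`, so `(-v1 r - c, v1 - u1 r - b, 0)` is good and by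
the exclusion of (1) both entries are divisible by `p`: second alternative.
-/

set_option autoImplicit false

namespace Pool.Agent.Work.MP_f2148a_nt.MC

open Polynomial NumberField

private def Gd {R : Type*} [CommRing R] (α : R) (p : ℕ) (u v w : ℤ) : Prop :=
  ∃ ω : R, (p : R) * ω = (u : R) + (v : R) * α + (w : R) * α ^ 2

private theorem gd_add {R : Type*} [CommRing R] {α : R} {p : ℕ} {u v w u' v' w' : ℤ} (h : Gd α p u v w)
    (h' : Gd α p u' v' w') : Gd α p (u + u') (v + v') (w + w') := by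
  obtain ⟨a, ha⟩ := h
  obtain ⟨b, hb⟩ := h'
  refine ⟨a + b, ?_⟩
  push_cast
  linear_combination ha + hb

private theorem gd_mul {R : Type*} [CommRing R] {α : R} {p : ℕ} {u v w : ℤ} (h : Gd α p u v w) (k : ℤ) :
    Gd α p (k * u) (k * v) (k * w) := by
  obtain ⟨a, ha⟩ := h
  refine ⟨k * a, ?_⟩
  push_cast
  linear_combination (k : R) * ha

private theorem gd_p {R : Type*} [CommRing R] (α : R) (p : ℕ) (u v w : ℤ) :
    Gd α p (p * u) (p * v) (p * w) := by
  refine ⟨(u : R) + (v : R) * α + (w : R) * α ^ 2, ?_⟩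
  push_cast
  ring

private theorem gd0 (F : CF) (α : 𝓞 F.1) {p : ℕ} (hp : p.Prime) {u : ℤ} (h : Gd α p u 0 0) : (p : ℤ) ∣ u := by
  obtain ⟨ω, hω⟩ := h
  simp only [Int.cast_zero, zero_mul, add_zero] at hω
  by_cases hn : ∀ n : ℤ, ω ≠ (n : 𝓞 F.1)
  · exfalso
    have e := congrArg (algebraMap (𝓞 F.1) F.1) hω
    simp only [map_mul, map_natCast, map_intCast] at e
    have := uniqc F ω hn (-u) p 0 (by
      push_cast
      linear_combination e)
    exact hp.ne_zero (by exact_mod_cast this.2.1)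
  · push Not at hn
    obtain ⟨n, hn⟩ := hn
    rw [hn] at hω
    have : (p : ℤ) * n = u := by exact_mod_cast hω
    exact ⟨n, this.symm⟩

theorem maxB (F : CF) (α : 𝓞 F.1) (t : Tr) (ht : Ir t) (hα : minpoly ℤ α = pl t) {p : ℕ} (hp : p.Prime) (u v w : ℤ)
    (h : ¬ ((p : ℤ) ∣ u ∧ (p : ℤ) ∣ v ∧ (p : ℤ) ∣ w))
    (hω : ∃ ω : 𝓞 F.1, (p : 𝓞 F.1) * ω = (u : 𝓞 F.1) + (v : 𝓞 F.1) * α + (w : 𝓞 F.1) * α ^ 2) :
    (∃ (r : ℤ) (ω : 𝓞 F.1), (p : 𝓞 F.1) * ω = α - (r : 𝓞 F.1)) ∨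
    (∃ (m n : ℤ) (ω : 𝓞 F.1), (p : 𝓞 F.1) * ω = α ^ 2 + (m : 𝓞 F.1) * α + (n : 𝓞 F.1) ∧
      (p : ℤ) ∣ n - m * (m - t.1) - t.2.1 ∧ (p : ℤ) ∣ n * (m - t.1) + t.2.2) := by
  have h0 : α ^ 3 + (t.1 : 𝓞 F.1) * α ^ 2 + (t.2.1 : 𝓞 F.1) * α + (t.2.2 : 𝓞 F.1) = 0 := by
    have h := minpoly.aeval ℤ α
    rw [hα, pl_eval] at h
    exact h
  have hpp : Prime (p : ℤ) := Nat.prime_iff_prime_int.1 hp
  have hg : Gd α p u v w := hω
  by_cases hE : ∃ u v : ℤ, Gd α p u v 0 ∧ ¬ ((p : ℤ) ∣ u ∧ (p : ℤ) ∣ v)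
  · left
    obtain ⟨u, v, hg, hn⟩ := hE
    have hpv : ¬ (p : ℤ) ∣ v := by
      rintro ⟨k, hk⟩
      have h2 := gd_add hg (gd_p α p 0 (-k) 0)
      have e2 : v + p * (-k) = 0 := by rw [hk]; ring
      rw [e2, mul_zero, add_zero, add_zero] at h2
      exact hn ⟨gd0 F α hp h2, ⟨k, hk⟩⟩
    obtain ⟨x, y, hxy⟩ := (hpp.irreducible.coprime_iff_not_dvd).2 hpv
    have h2 := gd_add (gd_mul hg y) (gd_p α p 0 x 0)
    have e2 : y * v + p * x = 1 := by linarith
    rw [e2, mul_zero, mul_zero, add_zero, add_zero] at h2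
    obtain ⟨ω, hω⟩ := h2
    refine ⟨-(y * u), ω, ?_⟩
    rw [hω]
    push_cast
    ring
  · right
    push Not at hE
    have hpw : ¬ (p : ℤ) ∣ w := by
      rintro ⟨k, hk⟩
      have h2 := gd_add hg (gd_p α p 0 0 (-k))
      have e2 : w + p * (-k) = 0 := by rw [hk]; ring
      rw [e2, mul_zero, add_zero, add_zero] at h2
      have h3 := hE _ _ h2
      exact h ⟨h3.1, h3.2, ⟨k, hk⟩⟩
    obtain ⟨x, y, hxy⟩ := (hpp.irreducible.coprime_iff_not_dvd).2 hpw
    have h2 := gd_add (gd_mul hg y) (gd_p α p 0 0 x)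
    have e2 : y * w + p * x = 1 := by linarith
    rw [e2, mul_zero, add_zero, add_zero] at h2
    obtain ⟨ω, hω⟩ := h2
    have h3 : Gd α p (-(y * u * (y * v - t.1) + t.2.2)) (y * u - (y * v) * (y * v - t.1) - t.2.1) 0 := by
      refine ⟨ω * (α - ((y * v - t.1 : ℤ) : 𝓞 F.1)), ?_⟩
      rw [← mul_assoc, hω]
      push_cast
      linear_combination h0
    have h4 := hE _ _ h3
    refine ⟨y * v, y * u, ω, ?_, h4.2, (dvd_neg).1 h4.1⟩
    rw [hω]
    push_cast
    ring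

end Pool.Agent.Work.MP_f2148a_nt.MC
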