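import Pool.Agent.Work.MP_f2148a_nt.MC.MinP
import Pool.Agent.Work.MP_f2148a_nt.MC.Alg

/-!
# MC/MaxC (size M): both alternatives of `maxB` give `Bad p t`

First alternative (`maxC1`), `p ω = η = α - r`: `η³ + a' η² + b' η + c' = 0` with `(a', b', c') = sh r t = (a + 3r, v1 t r, v0 t r)`,
so `ω³ + (a'/p) ω² + (b'/p²) ω + c'/p³ = 0`; `ω` is not an integer (else `α` is one), so by `intc` `b'/p²` and `c'/p³` are
integers: `p ∣ b'`, `p² ∣ c'`, so `Bad p t` with `r`.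

Second alternative (`maxC2`), `p ω = α² + m α + n`. Put `r = m - a`, `η = α - r`, `(a', b', c') = sh r t`. Then
`a' = a + 3r = m + 2r`, `α² + mα + n = η² + a' η + (r² + m r + n)`, and `p ∣ n - m r - b` gives
`b' = 3r² + 2ar + b ≡ 3r² + 2(m - r) r + n - m r = r² + m r + n (mod p)`; with `p ∣ n r + c`,
`c' = r³ + a r² + b r + c ≡ r³ + (m - r) r² + (n - m r) r - n r = 0 (mod p)`. Let `c' = p c1` and
`ω' = ω + (b' - (r² + m r + n))/p` (add an integer), so `p ω' = η² + a' η + b'` and `ω' η p = -c'`, i.e. `ω' η = -c1`. From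
these: `p² ω'³ - p b' ω'² + a' c1 p ω'... ` precisely
`(p ω')³ - b' (p ω')² + a' c' (p ω') - c'² = 0` (with `h = p ω'`, `η h = -c'`: `h² - b' h = h η (η + a') = -c' (η + a')`, so
`h³ - b' h² = -c' (η h + a' h) = c'² - a' c' h`); divide by `p³`: `ω'³ - (b'/p) ω'² + (a' c1/p) ω' - c1²/p = 0`. `ω'` is not an
integer (otherwise `η² + a'η + b'` is an integer, against `uniqc`), so by `intc` `b'/p` and `c1²/p` are integers: `p ∣ b'`,
`p ∣ c1² `, so `p ∣ c1` and `p² ∣ c'`: `Bad p t` with `r`.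
-/

set_option autoImplicit false

namespace Pool.Agent.Work.MP_f2148a_nt.MC

open Polynomial NumberField

private theorem cub (F : CF) (α : 𝓞 F.1) (t : Tr) (hα : minpoly ℤ α = pl t) :
    α ^ 3 + (t.1 : 𝓞 F.1) * α ^ 2 + (t.2.1 : 𝓞 F.1) * α + (t.2.2 : 𝓞 F.1) = 0 := by
  have h := minpoly.aeval ℤ α
  rw [hα, pl_eval] at h
  exact h

theorem maxC1 (F : CF) (α : 𝓞 F.1) (t : Tr) (ht : Ir t) (hα : minpoly ℤ α = pl t) {p : ℕ} (hp : p.Prime) (r : ℤ)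
    (ω : 𝓞 F.1) (hω : (p : 𝓞 F.1) * ω = α - (r : 𝓞 F.1)) : Bad p t := by
  have h0 := cub F α t hα
  have hroot : Polynomial.aeval α (pl t) = 0 := by
    rw [pl_eval]
    exact h0
  have hnr := (minp_of_root F α t ht hroot).2
  have hωn : ∀ n : ℤ, ω ≠ (n : 𝓞 F.1) := by
    intro n hn
    apply hnr (p * n + r)
    rw [hn] at hω
    push_cast
    linear_combination -hω
  have e1 : ((p : 𝓞 F.1) * ω) ^ 3 + ((t.1 + 3 * r : ℤ) : 𝓞 F.1) * ((p : 𝓞 F.1) * ω) ^ 2 +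
      ((v1 t r : ℤ) : 𝓞 F.1) * ((p : 𝓞 F.1) * ω) + ((v0 t r : ℤ) : 𝓞 F.1) = 0 := by
    rw [hω]
    simp only [v0, v1]
    push_cast
    linear_combination h0
  have e2 := congrArg (fun z : 𝓞 F.1 => (z : F.1)) e1
  simp only [map_add, map_mul, map_pow, map_intCast, map_natCast, map_zero] at e2
  have hpF : (p : F.1) ≠ 0 := Nat.cast_ne_zero.2 hp.ne_zero
  have hpQ : (p : ℚ) ≠ 0 := Nat.cast_ne_zero.2 hp.ne_zero
  obtain ⟨A', B', C', hA, hB, hC⟩ := intc F ω hωn ((t.1 + 3 * r : ℤ) / p) ((v1 t r : ℤ) / p ^ 2)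
    ((v0 t r : ℤ) / p ^ 3) (by
      push_cast at e2 ⊢
      field_simp
      linear_combination e2)
  refine ⟨r, ?_, ?_⟩
  · rw [div_eq_iff (by positivity)] at hB
    have h1 : v1 t r = B' * (p : ℤ) ^ 2 := by exact_mod_cast hB
    rw [h1, pow_two, ← mul_assoc]
    exact Dvd.intro_left _ rfl
  · rw [div_eq_iff (by positivity)] at hC
    have h1 : v0 t r = C' * (p : ℤ) ^ 3 := by exact_mod_cast hC
    rw [h1]
    exact ⟨C' * p, by ring⟩

theorem maxC2 (F : CF) (α : 𝓞 F.1) (t : Tr) (ht : Ir t) (hα : minpoly ℤ α = pl t) {p : ℕ} (hp : p.Prime) (m n : ℤ)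
    (ω : 𝓞 F.1) (hω : (p : 𝓞 F.1) * ω = α ^ 2 + (m : 𝓞 F.1) * α + (n : 𝓞 F.1))
    (h1 : (p : ℤ) ∣ n - m * (m - t.1) - t.2.1) (h2 : (p : ℤ) ∣ n * (m - t.1) + t.2.2) : Bad p t := by
  have h0 := cub F α t hα
  have hroot : Polynomial.aeval α (pl t) = 0 := by
    rw [pl_eval]
    exact h0
  have hnr := (minp_of_root F α t ht hroot).2
  obtain ⟨k1, hk1⟩ := h1
  obtain ⟨k2, hk2⟩ := h2
  -- c' is divisible by p
  have hc : v0 t (m - t.1) = p * (-(m - t.1) * k1 + k2) := by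
    simp only [v0]
    linear_combination (-(m - t.1)) * hk1 + hk2
  obtain ⟨c1, hc1⟩ : ∃ c1, c1 = -(m - t.1) * k1 + k2 := ⟨_, rfl⟩
  rw [← hc1] at hc
  obtain ⟨η, hη⟩ : ∃ η : 𝓞 F.1, η = α - ((m - t.1 : ℤ) : 𝓞 F.1) := ⟨_, rfl⟩
  obtain ⟨w, hw⟩ : ∃ w : 𝓞 F.1, w = ω - (k1 : 𝓞 F.1) := ⟨_, rfl⟩
  have hk1' : (n : 𝓞 F.1) - m * (m - t.1) - t.2.1 = p * k1 := by exact_mod_cast congrArg (fun z : ℤ => (z : 𝓞 F.1)) hk1
  have hpw : (p : 𝓞 F.1) * w = η ^ 2 + ((t.1 + 3 * (m - t.1) : ℤ) : 𝓞 F.1) * η +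
      ((v1 t (m - t.1) : ℤ) : 𝓞 F.1) := by
    rw [hw, hη]
    simp only [v1]
    push_cast
    linear_combination hω + hk1'
  have hηc : η ^ 3 + ((t.1 + 3 * (m - t.1) : ℤ) : 𝓞 F.1) * η ^ 2 +
      ((v1 t (m - t.1) : ℤ) : 𝓞 F.1) * η + ((v0 t (m - t.1) : ℤ) : 𝓞 F.1) = 0 := by
    rw [hη]
    simp only [v0, v1]
    push_cast
    linear_combination h0
  have hc' : ((v0 t (m - t.1) : ℤ) : 𝓞 F.1) = p * c1 := by
    rw [hc]
    push_cast
    ring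
  have e1 : ((p : 𝓞 F.1) * w) ^ 3 - ((v1 t (m - t.1) : ℤ) : 𝓞 F.1) * ((p : 𝓞 F.1) * w) ^ 2 +
      ((t.1 + 3 * (m - t.1) : ℤ) : 𝓞 F.1) * (p * c1) * ((p : 𝓞 F.1) * w) - (p * c1) ^ 2 = 0 := by
    rw [hpw]
    rw [hc'] at hηc
    generalize ((t.1 + 3 * (m - t.1) : ℤ) : 𝓞 F.1) = a' at *
    generalize ((v1 t (m - t.1) : ℤ) : 𝓞 F.1) = b' at *
    generalize (p : 𝓞 F.1) * (c1 : 𝓞 F.1) = d at *
    have hh : η * (η ^ 2 + a' * η + b') = -d := by linear_combination hηc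
    linear_combination ((η + a') * (η ^ 2 + a' * η + b') - d) * hh
  have hwn : ∀ z : ℤ, w ≠ (z : 𝓞 F.1) := by
    intro z hz
    rw [hz, hη] at hpw
    have e3 := congrArg (fun z : 𝓞 F.1 => (z : F.1)) hpw
    simp only [map_add, map_sub, map_mul, map_pow, map_intCast, map_natCast] at e3
    have := uniqc F α hnr
      ((m - t.1 : ℤ) ^ 2 - (t.1 + 3 * (m - t.1) : ℤ) * (m - t.1 : ℤ) + (v1 t (m - t.1) : ℤ) - p * z)
      (-2 * (m - t.1 : ℤ) + (t.1 + 3 * (m - t.1) : ℤ)) 1 (by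
        push_cast at e3 ⊢
        linear_combination -e3)
    exact one_ne_zero this.2.2
  have e2 := congrArg (fun z : 𝓞 F.1 => (z : F.1)) e1
  simp only [map_add, map_sub, map_mul, map_pow, map_intCast, map_natCast, map_zero] at e2
  have hpF : (p : F.1) ≠ 0 := Nat.cast_ne_zero.2 hp.ne_zero
  have hpQ : (p : ℚ) ≠ 0 := Nat.cast_ne_zero.2 hp.ne_zero
  obtain ⟨A', B', C', hA, hB, hC⟩ := intc F w hwn (-((v1 t (m - t.1) : ℤ) / p))
    ((t.1 + 3 * (m - t.1) : ℤ) * c1 / p) (-((c1 : ℤ) ^ 2 / p)) (by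
      push_cast at e2 ⊢
      field_simp
      have h3 : (p : F.1) ^ 2 ≠ 0 := pow_ne_zero _ hpF
      apply mul_left_cancel₀ h3
      linear_combination e2)
  have hB1 : v1 t (m - t.1) = -A' * p := by
    have : ((v1 t (m - t.1) : ℤ) : ℚ) / p = -A' := by rw [← hA, neg_neg]
    rw [div_eq_iff hpQ] at this
    exact_mod_cast this
  have hC1 : c1 ^ 2 = -C' * p := by
    have : ((c1 : ℤ) : ℚ) ^ 2 / p = -C' := by rw [← hC, neg_neg]
    rw [div_eq_iff hpQ] at this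
    exact_mod_cast this
  have hpp : Prime (p : ℤ) := Nat.prime_iff_prime_int.1 hp
  have hpc : (p : ℤ) ∣ c1 := by
    apply hpp.dvd_of_dvd_pow (n := 2)
    rw [hC1]
    exact Dvd.intro_left _ rfl
  refine ⟨m - t.1, ?_, ?_⟩
  · rw [hB1]
    exact Dvd.intro_left _ rfl
  · rw [hc, pow_two]
    exact mul_dvd_mul_left _ hpc

end Pool.Agent.Work.MP_f2148a_nt.MC
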