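import Pool.Agent.Work.MP_f2148a_nt.MC.MaxA
import Pool.Agent.Work.MP_f2148a_nt.MC.MaxB
import Pool.Agent.Work.MP_f2148a_nt.MC.MaxC

/-!
# MC/MaxG (size S): assembly: a root of a maximal triple generates the ring of integers
-/

set_option autoImplicit false

namespace Pool.Agent.Work.MP_f2148a_nt.MC

open Polynomial NumberField

theorem maxG (F : CF) (α : 𝓞 F.1) (t : Tr) (ht : Ir t) (hα : minpoly ℤ α = pl t) (hM : Mx t) : Gen F α := by
  by_contra hG
  have hn : ∀ n : ℤ, α ≠ (n : 𝓞 F.1) := by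
    have h0 : Polynomial.aeval α (pl t) = 0 := by
      rw [← hα]
      exact minpoly.aeval ℤ α
    exact (minp_of_root F α t ht h0).2
  obtain ⟨p, hp, u, v, w, hne, hω⟩ := maxA F α hn hG
  rcases maxB F α t ht hα hp u v w hne hω with ⟨r, ω, h⟩ | ⟨m, n, ω, h, h1, h2⟩
  · exact hM p hp (maxC1 F α t ht hα hp r ω h)
  · exact hM p hp (maxC2 F α t ht hα hp m n ω h h1 h2)

end Pool.Agent.Work.MP_f2148a_nt.MC
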