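import Pool.Agent.Work.MP_f2148a_nt.MC.MinP
import Pool.Agent.Work.MP_f2148a_nt.MC.Alg

/-!
# MC/NonM (size M): a generator has a maximal triple

Suppose `Bad p t` with `r`: put `η = α - r`, `a' = a + 3r`, `v1 t r = p β`, `v0 t r = p² γ`, so
`η³ + a' η² + p β η + p² γ = 0` (`η` is a root of `sh r t`). Let `h = η² + a' η + p β` (an element of `𝓞 F`) and
`ω = h / p` (an element of `F`). Then `η h = -p² γ`, and
`h³ - p β h² + p² a' γ h - p⁴ γ² = 0` (indeed `h² - p β h = h η (η + a') = -p² γ (η + a')`, so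
`h³ - p β h² = -p² γ (η h + a' h) = p⁴ γ² - p² a' γ h`); divide by `p³`: `ω³ - β ω² + a' γ ω - p γ² = 0`, so `ω` is
integral over `ℤ`, an element of `𝓞 F = ℤ[α]`. By `gen_repr` `ω = u + v α + w α²`, so
`p u + p v α + p w α² = h = α² + (a' - 2r) α + (r² - a' r + p β)` and by `uniqc` (`gen_nonint`) `p w = 1`, a contradiction.
-/

set_option autoImplicit false

namespace Pool.Agent.Work.MP_f2148a_nt.MC

open Polynomial NumberField

private theorem cub (F : CF) (α : 𝓞 F.1) (t : Tr) (hα : minpoly ℤ α = pl t) :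
    α ^ 3 + (t.1 : 𝓞 F.1) * α ^ 2 + (t.2.1 : 𝓞 F.1) * α + (t.2.2 : 𝓞 F.1) = 0 := by
  have h := minpoly.aeval ℤ α
  rw [hα, pl_eval] at h
  exact h

theorem nonM (F : CF) (α : 𝓞 F.1) (h : Gen F α) (t : Tr) (ht : minpoly ℤ α = pl t) : Mx t := by
  intro p hp hbad
  obtain ⟨r, ⟨β, hβ⟩, ⟨γ, hγ⟩⟩ := hbad
  have h0 := cub F α t ht
  have hnr := gen_nonint F α h
  have hpF : (p : F.1) ≠ 0 := Nat.cast_ne_zero.2 hp.ne_zero
  obtain ⟨η, hη⟩ : ∃ η : 𝓞 F.1, η = α - (r : 𝓞 F.1) := ⟨_, rfl⟩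
  obtain ⟨g, hg⟩ : ∃ g : 𝓞 F.1, g = η ^ 2 + ((t.1 + 3 * r : ℤ) : 𝓞 F.1) * η + p * β := ⟨_, rfl⟩
  have hβ' : ((v1 t r : ℤ) : 𝓞 F.1) = p * β := by
    rw [hβ]
    push_cast
    ring
  have hγ' : ((v0 t r : ℤ) : 𝓞 F.1) = p ^ 2 * γ := by
    rw [hγ]
    push_cast
    ring
  have hηc : η ^ 3 + ((t.1 + 3 * r : ℤ) : 𝓞 F.1) * η ^ 2 + p * β * η + p ^ 2 * γ = 0 := by
    rw [← hβ', ← hγ', hη]
    simp only [v0, v1]
    push_cast
    linear_combination h0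
  have e1 : g ^ 3 - p * β * g ^ 2 + p ^ 2 * ((t.1 + 3 * r : ℤ) : 𝓞 F.1) * γ * g -
      p ^ 4 * γ ^ 2 = 0 := by
    have hh : η * g = -(p ^ 2 * γ) := by
      rw [hg]
      linear_combination hηc
    have hg2 : g - p * β = η * (η + ((t.1 + 3 * r : ℤ) : 𝓞 F.1)) := by
      rw [hg]
      ring
    have hg3 : g ^ 3 - p * β * g ^ 2 = (g - p * β) * g ^ 2 := by ring
    rw [hg3, hg2]
    linear_combination (g * (η + ((t.1 + 3 * r : ℤ) : 𝓞 F.1)) - p ^ 2 * γ) * hh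
  have e2 := congrArg (algebraMap (𝓞 F.1) F.1) e1
  simp only [map_add, map_sub, map_mul, map_pow, map_intCast, map_natCast, map_zero] at e2
  obtain ⟨x, hx⟩ : ∃ x : F.1, x = algebraMap (𝓞 F.1) F.1 g / p := ⟨_, rfl⟩
  have hgx : algebraMap (𝓞 F.1) F.1 g = p * x := by
    rw [hx]
    field_simp
  have hint : IsIntegral ℤ x := by
    refine ⟨pl (-β, (t.1 + 3 * r) * γ, -(p * γ ^ 2)), ?_, ?_⟩
    · unfold pl
      monicity!
    · have h3 := pl_eval (R := F.1) (-β, (t.1 + 3 * r) * γ, -(p * γ ^ 2)) x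
      rw [Polynomial.aeval_def] at h3
      rw [h3]
      have h4 : (p : F.1) ^ 3 ≠ 0 := pow_ne_zero _ hpF
      apply mul_left_cancel₀ h4
      rw [hgx] at e2
      push_cast at e2 ⊢
      linear_combination e2
  obtain ⟨ω, hω⟩ : ∃ ω : 𝓞 F.1, algebraMap (𝓞 F.1) F.1 ω = x := ⟨⟨x, hint⟩, rfl⟩
  obtain ⟨u, v, w, hu⟩ := gen_repr F α h ω
  have e3 := congrArg (algebraMap (𝓞 F.1) F.1) hu
  simp only [map_add, map_sub, map_mul, map_pow, map_intCast] at e3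
  have e4 := congrArg (algebraMap (𝓞 F.1) F.1) hg
  have e5 := congrArg (algebraMap (𝓞 F.1) F.1) hη
  simp only [map_add, map_sub, map_mul, map_pow, map_intCast, map_natCast] at e4 e5
  rw [hω] at e3
  rw [e5, hgx, e3] at e4
  have := uniqc F α hnr
    ((r : ℤ) ^ 2 - (t.1 + 3 * r : ℤ) * r + p * β - p * u)
    (-2 * r + (t.1 + 3 * r : ℤ) - p * v) (1 - p * w) (by
      push_cast at e4 ⊢
      linear_combination -e4)
  have h6 : (p : ℚ) * w = 1 := by linarith [this.2.2]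
  have h7 : (p : ℤ) * w = 1 := by exact_mod_cast h6
  have h8 : (p : ℤ) ∣ 1 := ⟨w, h7.symm⟩
  have hpp : Prime (p : ℤ) := Nat.prime_iff_prime_int.1 hp
  exact hpp.not_unit (isUnit_of_dvd_one h8)

end Pool.Agent.Work.MP_f2148a_nt.MC
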