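import Pool.Agent.Work.MP_f2148a_nt.MC.FlA
import Pool.Agent.Work.MP_f2148a_nt.MC.MaxG
import Pool.Agent.Work.MP_f2148a_nt.MC.NonM
import Pool.Agent.Work.MP_f2148a_nt.MC.DiscG

/-!
# MC/FlB (size S-M): the monogenic cubic fields are the fields of the triples of `GG`

* `fl_gen`: `t` maximal and irreducible, `Fl t ⟦F⟧`: by `fl_root` there is `α` with `minpoly ℤ α = pl t`, `Gen F α` by `maxG`,
  `discr F = D t` by `discG`.
* `gg_mono`: for `t ∈ GG σ X` and `Fl t e`, `e = ⟦F⟧` for some `F` (definition of `Fl`), so `e ∈ Mono σ X`.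
* `mono_gg`: for `e = ⟦F⟧ ∈ Mono σ X` with `Gen F α`: `minp` gives `t0` with `minpoly ℤ α = pl t0`, `Ir t0`; `Mx t0` by `nonM`,
  `D t0 = discr F` by `discG`; take `t = nf t0 = sh n t0` (invariance: `mx_sh`, `ir_sh`, `D_nf`, `nm_nf`, `fl_sh`), `pt_nf`.
* `gen_gg`: the same with the generator given.
* `fl_D`: `Fl t e`, `Fl s e`, both maximal and irreducible: `D t = discr F = D s`.
-/

set_option autoImplicit false

namespace Pool.Agent.Work.MP_f2148a_nt.MC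

open Polynomial NumberField

theorem fl_gen {t : Tr} (hM : Mx t) (hI : Ir t) (F : CF) (h : Fl t ⟦F⟧) :
    NumberField.discr F.1 = D t ∧ ∃ α : 𝓞 F.1, minpoly ℤ α = pl t ∧ Gen F α := by
  obtain ⟨α, hα⟩ := fl_root hI F h
  have hG := maxG F α t hI hα hM
  exact ⟨discG F α hG t hα, α, hα, hG⟩

theorem gg_mono {σ X : ℝ} {t : Tr} (ht : t ∈ GG σ X) {e : Cl} (h : Fl t e) : e ∈ Mono σ X := by
  obtain ⟨⟨_, h1, h2⟩, hM, hI⟩ := ht
  obtain ⟨F, rfl, hz⟩ := h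
  obtain ⟨hd, α, _, hG⟩ := fl_gen hM hI F ⟨F, rfl, hz⟩
  refine ⟨F, rfl, ?_, ?_, α, hG⟩
  · rw [hd]
    exact h1
  · rw [hd]
    exact h2

theorem gen_gg {σ X : ℝ} (F : CF) (α : 𝓞 F.1) (hG : Gen F α) (t0 : Tr) (ht0 : minpoly ℤ α = pl t0)
    (h1 : 0 < σ * (NumberField.discr F.1 : ℝ)) (h2 : σ * (NumberField.discr F.1 : ℝ) ≤ X) :
    nf t0 ∈ GG σ X ∧ Fl (nf t0) ⟦F⟧ ∧ pt (nf t0) = pt t0 ∧ D t0 = NumberField.discr F.1 ∧ Ir t0 := by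
  obtain ⟨t1, h3, h4⟩ := minp F α hG
  have h5 : t1 = t0 := pl_inj (h3.symm.trans ht0)
  rw [h5] at h4
  have hD : D t0 = NumberField.discr F.1 := (discG F α hG t0 ht0).symm
  have hM : Mx t0 := nonM F α hG t0 ht0
  refine ⟨⟨⟨nm_nf t0, ?_, ?_⟩, ?_, ?_⟩, ?_, pt_nf t0, hD, h4⟩
  · rw [D_nf, hD]
    exact h1
  · rw [D_nf, hD]
    exact h2
  · exact (mx_sh _ t0).2 hM
  · exact (ir_sh _ t0).2 h4
  · exact fl_sh _ (fl_of_minp F α ht0)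

theorem mono_gg {σ X : ℝ} {e : Cl} (he : e ∈ Mono σ X) : ∃ t ∈ GG σ X, Fl t e := by
  obtain ⟨F, rfl, h1, h2, α, hG⟩ := he
  obtain ⟨t0, h3, _⟩ := minp F α hG
  obtain ⟨h5, h6, _⟩ := gen_gg F α hG t0 h3 h1 h2
  exact ⟨_, h5, h6⟩

theorem fl_D {t s : Tr} (htM : Mx t) (htI : Ir t) (hsM : Mx s) (hsI : Ir s) {e : Cl} (h : Fl t e) (h' : Fl s e) :
    D t = D s := by
  obtain ⟨F, rfl, hz⟩ := h
  rw [← (fl_gen htM htI F ⟨F, rfl, hz⟩).1, ← (fl_gen hsM hsI F h').1]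

end Pool.Agent.Work.MP_f2148a_nt.MC
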