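import Pool.Agent.Work.MP_f2148a_nt.MC.Alg
import Pool.Agent.Work.MP_f2148a_nt.MC.Defs2
import Pool.Agent.Work.MP_f2148a_nt.BM.BigP

/-!
# MC/Giant (size S): the triples with large `fy t`

Apply `BM.bigP` with `K = 432 X` and `T`. For `t ∈ S`, `(x, y) = pt t`, `y² - x³ = -432 D t` (`pt_id`), so
`0 < |y² - x³| ≤ 432 X` and `T |y² - x³|^(1/2) ≤ T √(432 X) < |y|`: `pt t` is in the set of `bigP`; `pt` is injective on
the normalised triples (`pt_inj`). Finally `(432 X)^(5/6) = 432^(5/6) X^(5/6)` and `(432 X)^θ = 432^θ X^θ`.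
-/

set_option autoImplicit false

namespace Pool.Agent.Work.MP_f2148a_nt.MC

theorem giant {θ : ℝ} (hA : As.Asy θ) (h1 : 4 / 5 < θ) (h2 : θ < 5 / 6) : ∃ A : ℝ, 0 ≤ A ∧
    ∀ σ : ℝ, (σ = 1 ∨ σ = -1) → ∀ X T : ℝ, 1 ≤ X → 1 ≤ T → ∀ S : Finset Tr,
    (∀ t ∈ S, t ∈ TT σ X ∧ T * √(432 * X) < |(fy t : ℝ)|) →
    (S.card : ℝ) ≤ A * (T ^ (-(1 / 3) : ℝ) * X ^ (5 / 6 : ℝ) + X ^ θ) := by
  classical
  obtain ⟨A, hA0, hAb⟩ := BM.bigP hA h1 h2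
  refine ⟨A * 432, by positivity, fun σ hσ X T hX hT S hS => ?_⟩
  have hX0 : (0 : ℝ) < X := by linarith
  obtain ⟨hfin, hcard⟩ := hAb (432 * X) (by linarith) T (by linarith)
  set B : Set (ℤ × ℤ) := {t : ℤ × ℤ | t ∈ As.pr (432 * X) ∧
      T * |(t.2 : ℝ) ^ 2 - (t.1 : ℝ) ^ 3| ^ (1 / 2 : ℝ) < |(t.2 : ℝ)|} with hB
  have hsub : ((S.image pt : Finset (ℤ × ℤ)) : Set (ℤ × ℤ)) ⊆ B := by
    intro p hp
    rw [Finset.coe_image] at hp
    obtain ⟨t, ht, rfl⟩ := hp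
    obtain ⟨⟨hn, hp1, hp2⟩, hlt⟩ := hS t ht
    have hid : ((fy t : ℝ)) ^ 2 - (fx t : ℝ) ^ 3 = -432 * (D t : ℝ) := by
      have := pt_id t
      exact_mod_cast this
    have habs : |(fy t : ℝ) ^ 2 - (fx t : ℝ) ^ 3| = 432 * (σ * (D t : ℝ)) := by
      rw [hid]
      rcases hσ with rfl | rfl
      · rw [abs_of_neg (by linarith)]
        ring
      · rw [abs_of_pos (by linarith)]
        ring
    refine ⟨⟨?_, ?_⟩, ?_⟩
    · show fy t ^ 2 ≠ fx t ^ 3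
      intro he
      have h3 : (fy t : ℝ) ^ 2 - (fx t : ℝ) ^ 3 = 0 := by
        have : (fy t : ℝ) ^ 2 = (fx t : ℝ) ^ 3 := by exact_mod_cast he
        linarith
      rw [h3, abs_zero] at habs
      linarith
    · show |(fy t : ℝ) ^ 2 - (fx t : ℝ) ^ 3| ≤ 432 * X
      rw [habs]
      linarith
    · show T * |(fy t : ℝ) ^ 2 - (fx t : ℝ) ^ 3| ^ (1 / 2 : ℝ) < |(fy t : ℝ)|
      refine lt_of_le_of_lt ?_ hlt
      rw [habs, ← Real.sqrt_eq_rpow]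
      exact mul_le_mul_of_nonneg_left (Real.sqrt_le_sqrt (by linarith)) (by linarith)
  have hinj : Set.InjOn pt (S : Set Tr) := by
    intro t ht s hs hts
    exact pt_inj (hS t ht).1.1 (hS s hs).1.1 hts
  have hc1 : S.card ≤ B.ncard := by
    rw [← Finset.card_image_of_injOn hinj, ← Set.ncard_coe_finset]
    exact Set.ncard_le_ncard hsub hfin
  have hc2 : (S.card : ℝ) ≤ (B.ncard : ℝ) := by exact_mod_cast hc1
  have e1 : (432 * X) ^ (5 / 6 : ℝ) ≤ 432 * X ^ (5 / 6 : ℝ) := by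
    rw [Real.mul_rpow (by norm_num) hX0.le]
    refine mul_le_mul_of_nonneg_right ?_ (Real.rpow_nonneg hX0.le _)
    calc (432 : ℝ) ^ (5 / 6 : ℝ) ≤ (432 : ℝ) ^ (1 : ℝ) :=
          Real.rpow_le_rpow_of_exponent_le (by norm_num) (by norm_num)
      _ = 432 := Real.rpow_one _
  have e2 : (432 * X) ^ θ ≤ 432 * X ^ θ := by
    rw [Real.mul_rpow (by norm_num) hX0.le]
    refine mul_le_mul_of_nonneg_right ?_ (Real.rpow_nonneg hX0.le _)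
    calc (432 : ℝ) ^ θ ≤ (432 : ℝ) ^ (1 : ℝ) :=
          Real.rpow_le_rpow_of_exponent_le (by norm_num) (by linarith)
      _ = 432 := Real.rpow_one _
  have hT0 : 0 ≤ T ^ (-(1 / 3) : ℝ) := Real.rpow_nonneg (by linarith) _
  calc (S.card : ℝ) ≤ (B.ncard : ℝ) := hc2
    _ ≤ A * (T ^ (-(1 / 3) : ℝ) * (432 * X) ^ (5 / 6 : ℝ) + (432 * X) ^ θ) := hcard
    _ ≤ A * (T ^ (-(1 / 3) : ℝ) * (432 * X ^ (5 / 6 : ℝ)) + 432 * X ^ θ) := by
        refine mul_le_mul_of_nonneg_left ?_ hA0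
        exact add_le_add (mul_le_mul_of_nonneg_left e1 hT0) e2
    _ = A * 432 * (T ^ (-(1 / 3) : ℝ) * X ^ (5 / 6 : ℝ) + X ^ θ) := by ring

end Pool.Agent.Work.MP_f2148a_nt.MC
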