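import Pool.Agent.Work.MP_f2148a_nt.MC.Defs

/-!
# MC/IntC (size M): integral elements of a cubic field

* `deg3`: `ω : 𝓞 F` not rational (`ω ≠ n` for all integers `n`; an integral rational number is an integer), so the degree of
  `minpoly ℚ (ω : F)` is not 1; it divides `[F : ℚ] = 3` (`minpoly.degree_dvd` / `IntermediateField.adjoin.finrank` and
  `Module.finrank_mul_finrank`), so it is 3. `minpoly ℚ ω = (minpoly ℤ ω).map` (`minpoly.isIntegrallyClosed_eq_field_fractions'`),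
  so `minpoly ℤ ω` is monic of degree 3: write it as `pl s` with `s` its coefficients.
  Conclusion: there is a triple `s` with `minpoly ℤ ω = pl s`; moreover `Ir s` (an integer root `n` would give
  `(X - n) ∣ minpoly ℤ ω` and `minpoly` is irreducible of degree 3; or: `ω - n ≠ 0` divides zero... use
  `minpoly.irreducible`, `minpoly.natDegree_le`).
* `uniqc`: if `1, ω, ω²` satisfy `A + B ω + C ω² = 0` with rational `A, B, C` then `A = B = C = 0` (degree 3).
* `intc`: if `ω³ + A ω² + B ω + C = 0` with rational `A, B, C` then they are integers: subtract the equation of `pl s` and use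
  `uniqc`.
-/

set_option autoImplicit false

namespace Pool.Agent.Work.MP_f2148a_nt.MC

open Polynomial NumberField

private theorem ic_pl_nat (t : Tr) : (pl t).natDegree = 3 := by
  unfold pl
  compute_degree!

private theorem ic_pl_monic (t : Tr) : (pl t).Monic := by
  unfold pl
  monicity!

private theorem ic_c0 (t : Tr) : (pl t).coeff 0 = t.2.2 := by
  unfold pl
  rw [coeff_add, coeff_add, coeff_add, coeff_C_mul, coeff_C_mul, coeff_X_pow, coeff_X_pow, coeff_X, coeff_C]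
  norm_num

private theorem ic_c1 (t : Tr) : (pl t).coeff 1 = t.2.1 := by
  unfold pl
  rw [coeff_add, coeff_add, coeff_add, coeff_C_mul, coeff_C_mul, coeff_X_pow, coeff_X_pow, coeff_X, coeff_C]
  norm_num

private theorem ic_c2 (t : Tr) : (pl t).coeff 2 = t.1 := by
  unfold pl
  rw [coeff_add, coeff_add, coeff_add, coeff_C_mul, coeff_C_mul, coeff_X_pow, coeff_X_pow, coeff_X, coeff_C]
  norm_num

/-- `pl` is injective -/
private theorem ic_inj {t s : Tr} (h : pl t = pl s) : t = s := by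
  have h0 := ic_c0 t
  have h1 := ic_c1 t
  have h2 := ic_c2 t
  rw [h] at h0 h1 h2
  rw [ic_c0] at h0
  rw [ic_c1] at h1
  rw [ic_c2] at h2
  exact Prod.ext h2.symm (Prod.ext h1.symm h0.symm)

private theorem ic_eval {R : Type*} [CommRing R] (t : Tr) (z : R) :
    Polynomial.aeval z (pl t) = z ^ 3 + (t.1 : R) * z ^ 2 + (t.2.1 : R) * z + (t.2.2 : R) := by
  unfold pl
  simp

private theorem ic_nr (F : CF) (ω : 𝓞 F.1) (h : ∀ n : ℤ, ω ≠ (n : 𝓞 F.1)) (r : ℚ) :
    (ω : F.1) ≠ algebraMap ℚ F.1 r := by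
  intro h1
  have h2 : IsIntegral ℤ (algebraMap ℚ F.1 r) := by
    rw [← h1]
    exact RingOfIntegers.isIntegral_coe ω
  have h3 : IsIntegral ℤ r := (isIntegral_algebraMap_iff (algebraMap ℚ F.1).injective).1 h2
  obtain ⟨n, hn⟩ := IsIntegrallyClosed.isIntegral_iff.1 h3
  have h4 : (ω : F.1) = ((n : 𝓞 F.1) : F.1) := by
    rw [h1, ← hn]
    simp
  exact h n (RingOfIntegers.coe_injective h4)

private theorem ic_deg (F : CF) (ω : 𝓞 F.1) (h : ∀ n : ℤ, ω ≠ (n : 𝓞 F.1)) :
    (minpoly ℚ (ω : F.1)).natDegree = 3 := by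
  have hi : IsIntegral ℚ (ω : F.1) := Algebra.IsIntegral.isIntegral _
  have h1 := IntermediateField.adjoin.finrank hi
  have h2 := Module.finrank_mul_finrank ℚ (IntermediateField.adjoin ℚ {(ω : F.1)}) F.1
  rw [h1, F.2] at h2
  have h3 : (minpoly ℚ (ω : F.1)).natDegree ∣ 3 := ⟨_, h2.symm⟩
  rcases (Nat.dvd_prime Nat.prime_three).1 h3 with h4 | h4
  · rw [minpoly.natDegree_eq_one_iff] at h4
    obtain ⟨r, hr⟩ := h4
    exact absurd hr.symm (ic_nr F ω h r)
  · exact h4

private theorem ic_map (F : CF) (ω : 𝓞 F.1) :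
    minpoly ℚ (ω : F.1) = (minpoly ℤ ω).map (algebraMap ℤ ℚ) := by
  rw [minpoly.isIntegrallyClosed_eq_field_fractions' ℚ (RingOfIntegers.isIntegral_coe ω),
    RingOfIntegers.minpoly_coe]

theorem deg3 (F : CF) (ω : 𝓞 F.1) (h : ∀ n : ℤ, ω ≠ (n : 𝓞 F.1)) : ∃ s : Tr, minpoly ℤ ω = pl s ∧ Ir s := by
  have hd := ic_deg F ω h
  have hm := ic_map F ω
  have hmon : (minpoly ℤ ω).Monic := minpoly.monic (RingOfIntegers.isIntegral ω)
  have hd' : (minpoly ℤ ω).natDegree = 3 := by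
    rw [hm, hmon.natDegree_map] at hd
    exact hd
  have hc3 : (minpoly ℤ ω).coeff 3 = 1 := by
    have h5 : (minpoly ℤ ω).coeff (minpoly ℤ ω).natDegree = 1 := hmon
    rwa [hd'] at h5
  have hpl : minpoly ℤ ω = pl ((minpoly ℤ ω).coeff 2, (minpoly ℤ ω).coeff 1, (minpoly ℤ ω).coeff 0) := by
    conv_lhs => rw [(minpoly ℤ ω).as_sum_range_C_mul_X_pow, hd']
    unfold pl
    rw [Finset.sum_range_succ, Finset.sum_range_succ, Finset.sum_range_succ, Finset.sum_range_succ,
      Finset.sum_range_zero, hc3]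
    simp only [zero_add, pow_zero, pow_one, map_one, one_mul, mul_one]
    ring
  refine ⟨_, hpl, ?_⟩
  intro n hn
  have h1 : (minpoly ℚ (ω : F.1)).IsRoot (n : ℚ) := by
    rw [hm, hpl, IsRoot.def, eval_map_algebraMap, ic_eval]
    have h2 := congrArg (fun z : ℤ => (z : ℚ)) hn
    simp only [v0] at h2
    push_cast at h2
    exact h2
  have hirr : Irreducible (minpoly ℚ (ω : F.1)) := minpoly.irreducible (Algebra.IsIntegral.isIntegral _)
  have h3 := degree_eq_one_of_irreducible_of_root hirr h1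
  have h4 : (minpoly ℚ (ω : F.1)).natDegree = 1 := natDegree_eq_of_degree_eq_some (by rw [h3]; rfl)
  rw [hd] at h4
  exact absurd h4 (by norm_num)

theorem uniqc (F : CF) (ω : 𝓞 F.1) (h : ∀ n : ℤ, ω ≠ (n : 𝓞 F.1)) (A B C : ℚ)
    (h0 : (A : F.1) + (B : F.1) * (ω : F.1) + (C : F.1) * (ω : F.1) ^ 2 = 0) : A = 0 ∧ B = 0 ∧ C = 0 := by
  have hd := ic_deg F ω h
  have h1 : aeval (ω : F.1) (Polynomial.C A + Polynomial.C B * X + Polynomial.C C * X ^ 2) = 0 := by
    simpa using h0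
  have h2 := minpoly.dvd ℚ (ω : F.1) h1
  have h3 : Polynomial.C A + Polynomial.C B * X + Polynomial.C C * X ^ 2 = 0 := by
    refine eq_zero_of_dvd_of_natDegree_lt h2 ?_
    rw [hd]
    refine lt_of_le_of_lt (b := 2) ?_ (by norm_num)
    compute_degree
  refine ⟨?_, ?_, ?_⟩
  · have := congrArg (fun p => coeff p 0) h3
    simpa [coeff_X, coeff_C, coeff_X_pow] using this
  · have := congrArg (fun p => coeff p 1) h3
    simpa [coeff_X, coeff_C, coeff_X_pow] using this
  · have := congrArg (fun p => coeff p 2) h3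
    simpa [coeff_X, coeff_C, coeff_X_pow] using this

theorem intc (F : CF) (ω : 𝓞 F.1) (h : ∀ n : ℤ, ω ≠ (n : 𝓞 F.1)) (A B C : ℚ)
    (h0 : (ω : F.1) ^ 3 + (A : F.1) * (ω : F.1) ^ 2 + (B : F.1) * (ω : F.1) + (C : F.1) = 0) :
    ∃ A' B' C' : ℤ, A = A' ∧ B = B' ∧ C = C' := by
  obtain ⟨s, hs, -⟩ := deg3 F ω h
  have h1 : aeval ω (pl s) = 0 := by
    rw [← hs]
    exact minpoly.aeval ℤ ω
  rw [ic_eval] at h1
  have h2 : (ω : F.1) ^ 3 + ((s.1 : ℚ) : F.1) * (ω : F.1) ^ 2 + ((s.2.1 : ℚ) : F.1) * (ω : F.1) +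
      ((s.2.2 : ℚ) : F.1) = 0 := by
    have h3 := congrArg (fun z : 𝓞 F.1 => (z : F.1)) h1
    simpa using h3
  have h4 := uniqc F ω h (C - s.2.2) (B - s.2.1) (A - s.1) (by
    push_cast
    push_cast at h2
    linear_combination h0 - h2)
  exact ⟨s.1, s.2.1, s.2.2, by linarith [h4.2.2], by linarith [h4.2.1], by linarith [h4.1]⟩

/-- the value of the polynomial of `t` -/
theorem pl_eval {R : Type*} [CommRing R] (t : Tr) (z : R) :
    Polynomial.aeval z (pl t) = z ^ 3 + (t.1 : R) * z ^ 2 + (t.2.1 : R) * z + (t.2.2 : R) :=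
  ic_eval t z

/-- a root of an irreducible `pl t` in `𝓞 F` has `pl t` as its minimal polynomial and is not rational -/
theorem minp_of_root (F : CF) (α : 𝓞 F.1) (t : Tr) (ht : Ir t) (h : Polynomial.aeval α (pl t) = 0) :
    minpoly ℤ α = pl t ∧ ∀ n : ℤ, α ≠ (n : 𝓞 F.1) := by
  have hn : ∀ n : ℤ, α ≠ (n : 𝓞 F.1) := by
    intro n hn
    rw [hn, ic_eval] at h
    apply ht n
    have h1 : ((v0 t n : ℤ) : 𝓞 F.1) = 0 := by
      unfold v0
      push_cast
      exact h
    exact_mod_cast h1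
  obtain ⟨s, hs, -⟩ := deg3 F α hn
  have h1 := minpoly.isIntegrallyClosed_dvd (RingOfIntegers.isIntegral α) h
  refine ⟨?_, hn⟩
  rw [hs] at h1 ⊢
  exact (eq_of_monic_of_dvd_of_natDegree_le (ic_pl_monic s) (ic_pl_monic t) h1
    (by rw [ic_pl_nat, ic_pl_nat])).symm

/-- `pl` is injective -/
theorem pl_inj {t s : Tr} (h : pl t = pl s) : t = s := ic_inj h

end Pool.Agent.Work.MP_f2148a_nt.MC
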