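import Mathlib

/-!
# MC/Jar (size M-L): integer points on the conic `y² - m z² = n` in a box (no import except Mathlib)

`P = (y, z)`. It is enough to bound the number of the points with `y ≥ 0`, `z ≥ 0` by `10 B^(2/3)` (the four
quadrants `(±y, ±z)` map injectively into this one; constant 40).
Let `U` be the finite set of the points of `S` (or of their images) in the quadrant.
(1) Two different points of `U` have different `z` (`y² = n + m z²`, `y ≥ 0`) and different `y` (`m ≠ 0`, `z ≥ 0`). If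
`m > 0` then `z < z'` implies `y < y'`; if `m < 0` then `z < z'` implies `y > y'`.
(2) Let `H = ⌈B^(1/3)⌉₊ ≥ 1`. The cell of a point is `(i, j) = (y / H, z / H)` (integer quotients, `0 ≤ i, j ≤ B / H`). If
`m > 0`, different cells of points of `U` have different `i + j` (if `i + j = i' + j'` and `i < i'` then `j > j'`, so
`y < y'` and `z > z'`, impossible); if `m < 0`, different cells have different `i - j`. So there are at most
`2 B / H + 1` cells.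
(3) In each cell let `P0` be the point with the smallest `z`. For another point `P` of the cell put `h = z - z0`,
`l = y - y0`: `1 ≤ h ≤ H - 1` and `1 ≤ |l| ≤ H - 1`, the sign of `l` is that of `m`. Claim: for given `(h, l)` there are
at most two possible `P0`. Indeed `y² - y0² = m (z² - z0²)` gives `l (2 y0 + l) = m h (2 z0 + h)`, so
`2 l y0 = 2 m h z0 + (m h² - l²)`; multiply `y0² - m z0² = n` by `4 l²`:
`(2 m h z0 + m h² - l²)² - 4 l² m z0² = 4 l² n`, that is `4 m (m h² - l²) z0² + 4 m h (m h² - l²) z0 + (m h² - l²)² = 4 l² n`.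
If `m h² ≠ l²` this is a quadratic equation with leading coefficient `≠ 0`: at most two `z0` (and `z0` determines `y0`). If
`m h² = l²` it says `0 = 4 l² n`, impossible. So there are at most `2 (H - 1)²` points which are not the `P0` of their cell.
(4) Total: `2 B / H + 1 + 2 (H - 1)² ≤ 2 B^(2/3) + 1 + 2 B^(2/3) ≤ 5 B^(2/3)`, as `B^(1/3) ≤ H < B^(1/3) + 1`, `B ≥ 1`.
-/

set_option autoImplicit false

namespace Pool.Agent.Work.MP_f2148a_nt.MC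

private theorem jarMono {m n : ℤ} {s : ℤ} (hs : (s = 1 ∧ 0 < m) ∨ (s = -1 ∧ m < 0)) {w z w' z' : ℤ}
    (hw : 0 ≤ s * w) (hw' : 0 ≤ s * w') (hz : 0 ≤ z) (h : w ^ 2 - m * z ^ 2 = n)
    (h' : w' ^ 2 - m * z' ^ 2 = n) (hzz : z ≤ z') : w ≤ w' := by
  have h1 : z ^ 2 ≤ z' ^ 2 := by nlinarith
  rcases hs with ⟨rfl, hm⟩ | ⟨rfl, hm⟩
  · have h2 : w ^ 2 ≤ w' ^ 2 := by nlinarith
    exact abs_le_of_sq_le_sq' h2 (by linarith) |>.2
  · have h2 : w' ^ 2 ≤ w ^ 2 := by nlinarith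
    have h3 : -w' ≤ -w → w ≤ w' := fun h => by linarith
    by_contra hc
    nlinarith

private theorem jarCell {H w z w' z' : ℤ} (hH : 0 < H) (hww : w ≤ w') (hzz : z ≤ z')
    (hk : w / H + z / H = w' / H + z' / H) : w' - w < H ∧ z' - z < H := by
  have h1 := Int.ediv_le_ediv hH hww
  have h2 := Int.ediv_le_ediv hH hzz
  have e1 : w / H = w' / H := by omega
  have e2 : z / H = z' / H := by omega
  have a1 := Int.emod_add_mul_ediv w H
  have a2 := Int.emod_add_mul_ediv w' H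
  have a3 := Int.emod_add_mul_ediv z H
  have a4 := Int.emod_add_mul_ediv z' H
  have b1 := Int.emod_nonneg w hH.ne'
  have b2 := Int.emod_lt_of_pos w' hH
  have b3 := Int.emod_nonneg z hH.ne'
  have b4 := Int.emod_lt_of_pos z' hH
  rw [e1] at a1
  rw [e2] at a3
  constructor <;> linarith

private theorem jarUnq {m n l h z w z' w' : ℤ} (hm : m ≠ 0) (hn : n ≠ 0) (hl : 1 ≤ l) (hh : 1 ≤ h)
    (hz : 0 ≤ z) (hz' : 0 ≤ z')
    (e1 : w ^ 2 - m * z ^ 2 = n) (e2 : (w + l) ^ 2 - m * (z + h) ^ 2 = n)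
    (e1' : w' ^ 2 - m * z' ^ 2 = n) (e2' : (w' + l) ^ 2 - m * (z' + h) ^ 2 = n) : z = z' := by
  have k : 2 * l * w = 2 * m * h * z + (m * h ^ 2 - l ^ 2) := by linear_combination e2 - e1
  have k' : 2 * l * w' = 2 * m * h * z' + (m * h ^ 2 - l ^ 2) := by linear_combination e2' - e1'
  have E : 4 * m * (m * h ^ 2 - l ^ 2) * z ^ 2 + 4 * m * h * (m * h ^ 2 - l ^ 2) * z +
      (m * h ^ 2 - l ^ 2) ^ 2 = 4 * l ^ 2 * n := by
    linear_combination (4 * l ^ 2) * e1 - (2 * l * w + (2 * m * h * z + (m * h ^ 2 - l ^ 2))) * k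
  have E' : 4 * m * (m * h ^ 2 - l ^ 2) * z' ^ 2 + 4 * m * h * (m * h ^ 2 - l ^ 2) * z' +
      (m * h ^ 2 - l ^ 2) ^ 2 = 4 * l ^ 2 * n := by
    linear_combination (4 * l ^ 2) * e1' - (2 * l * w' + (2 * m * h * z' + (m * h ^ 2 - l ^ 2))) * k'
  have hA : m * h ^ 2 - l ^ 2 ≠ 0 := by
    intro h0
    rw [h0] at E
    have : l ^ 2 * n = 0 := by linarith
    rcases mul_eq_zero.1 this with h1 | h1
    · have : 0 < l ^ 2 := by positivity
      omega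
    · exact hn h1
  have F : (4 * m * (m * h ^ 2 - l ^ 2)) * ((z - z') * (z + z' + h)) = 0 := by
    linear_combination E - E'
  rcases mul_eq_zero.1 F with h1 | h1
  · exact absurd h1 (mul_ne_zero (mul_ne_zero (by norm_num) hm) hA)
  · rcases mul_eq_zero.1 h1 with h2 | h2
    · linarith
    · exfalso; linarith

private theorem jarQuad {m n : ℤ} (hm : m ≠ 0) (hn : n ≠ 0) {H M : ℤ} (hH : 1 ≤ H) (hM : 0 ≤ M)
    (T : Finset (ℤ × ℤ)) (h0 : ∀ P ∈ T, 0 ≤ P.2) (h1 : ∀ P ∈ T, P.2 ≤ M) (h2 : ∀ P ∈ T, |P.1| ≤ M)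
    (h3 : ∀ P ∈ T, P.1 ^ 2 - m * P.2 ^ 2 = n)
    (hmono : ∀ P ∈ T, ∀ P' ∈ T, P.2 ≤ P'.2 → P.1 ≤ P'.1) :
    (T.card : ℤ) ≤ 3 * (M / H) + 2 + (H - 1) ^ 2 := by
  classical
  have hH0 : 0 < H := by omega
  obtain ⟨κ, hκ⟩ : ∃ κ : ℤ × ℤ → ℤ, ∀ P, κ P = P.1 / H + P.2 / H := ⟨_, fun _ => rfl⟩
  have hch : ∀ k : ℤ, ∃ p : ℤ × ℤ, k ∈ T.image κ → p ∈ T ∧ κ p = k ∧ ∀ P ∈ T, κ P = k → p.2 ≤ P.2 := by
    intro k
    by_cases hk : k ∈ T.image κ
    · obtain ⟨a, ha, hak⟩ := Finset.mem_image.1 hk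
      obtain ⟨p, hp, hmin⟩ := (T.filter fun P => κ P = k).exists_min_image (fun P => P.2)
        ⟨a, Finset.mem_filter.2 ⟨ha, hak⟩⟩
      exact ⟨p, fun _ => ⟨(Finset.mem_filter.1 hp).1, (Finset.mem_filter.1 hp).2,
        fun P hP hPk => hmin P (Finset.mem_filter.2 ⟨hP, hPk⟩)⟩⟩
    · exact ⟨0, fun h => absurd h hk⟩
  choose p0 hp0 using hch
  have hp : ∀ P ∈ T, p0 (κ P) ∈ T ∧ κ (p0 (κ P)) = κ P ∧ (p0 (κ P)).2 ≤ P.2 := by
    intro P hP
    obtain ⟨a, b, c⟩ := hp0 (κ P) (Finset.mem_image_of_mem κ hP)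
    exact ⟨a, b, c P hP rfl⟩
  have hsub : T ⊆ (T.image κ).image p0 ∪ T.filter (fun P => P ≠ p0 (κ P)) := by
    intro P hP
    by_cases hc : P = p0 (κ P)
    · refine Finset.mem_union_left _ ?_
      rw [hc]
      exact Finset.mem_image_of_mem _ (Finset.mem_image_of_mem _ hP)
    · exact Finset.mem_union_right _ (Finset.mem_filter.2 ⟨hP, hc⟩)
  have hc1 : (T.image κ).card ≤ (3 * (M / H) + 2).toNat := by
    have : T.image κ ⊆ Finset.Icc (-(M / H) - 1) (2 * (M / H)) := by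
      intro k hk
      obtain ⟨P, hP, rfl⟩ := Finset.mem_image.1 hk
      rw [hκ, Finset.mem_Icc]
      obtain ⟨ha, hb⟩ := abs_le.1 (h2 P hP)
      have c1 : P.1 / H ≤ M / H := Int.ediv_le_ediv hH0 hb
      have c2 : P.2 / H ≤ M / H := Int.ediv_le_ediv hH0 (h1 P hP)
      have c3 : 0 ≤ P.2 / H := Int.ediv_nonneg (h0 P hP) hH0.le
      have c4 : -(M / H) - 1 ≤ P.1 / H := by
        rw [Int.le_ediv_iff_mul_le hH0]
        have := Int.lt_ediv_add_one_mul_self M hH0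
        nlinarith
      constructor <;> omega
    refine (Finset.card_le_card this).trans (le_of_eq ?_)
    rw [Int.card_Icc]
    congr 1
    ring
  have key : ∀ P ∈ T.filter (fun P => P ≠ p0 (κ P)), 1 ≤ P.1 - (p0 (κ P)).1 ∧
      P.1 - (p0 (κ P)).1 ≤ H - 1 ∧ 1 ≤ P.2 - (p0 (κ P)).2 ∧ P.2 - (p0 (κ P)).2 ≤ H - 1 := by
    intro P hP
    obtain ⟨hPT, hne⟩ := Finset.mem_filter.1 hP
    obtain ⟨a, b, c⟩ := hp P hPT
    have d := hmono _ a _ hPT c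
    have b' : (p0 (κ P)).1 / H + (p0 (κ P)).2 / H = P.1 / H + P.2 / H :=
      (hκ (p0 (κ P))).symm.trans (b.trans (hκ P))
    obtain ⟨e1, e2⟩ := jarCell hH0 d c b'
    have hz : (p0 (κ P)).2 ≠ P.2 := by
      intro h
      exact hne (Prod.ext (le_antisymm (hmono _ hPT _ a h.symm.le) d) h.symm)
    have hw : (p0 (κ P)).1 ≠ P.1 := by
      intro h
      have g1 := h3 _ a
      have g2 := h3 _ hPT
      rw [h] at g1
      have g3 : m * ((P.2 - (p0 (κ P)).2) * (P.2 + (p0 (κ P)).2)) = 0 := by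
        linear_combination g1 - g2
      rcases mul_eq_zero.1 ((mul_eq_zero.1 g3).resolve_left hm) with g4 | g4
      · exact hz (by linarith)
      · have := h0 _ a
        have := h0 _ hPT
        exact hz (by linarith)
    have hz' : (p0 (κ P)).2 < P.2 := lt_of_le_of_ne c hz
    have hw' : (p0 (κ P)).1 < P.1 := lt_of_le_of_ne d hw
    refine ⟨by omega, by omega, by omega, by omega⟩
  have hc2 : (T.filter (fun P => P ≠ p0 (κ P))).card ≤
      ((Finset.Icc 1 (H - 1)) ×ˢ (Finset.Icc 1 (H - 1))).card := by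
    refine Finset.card_le_card_of_injOn
      (fun P => (P.1 - (p0 (κ P)).1, P.2 - (p0 (κ P)).2)) ?_ ?_
    · intro P hP
      obtain ⟨a, b, c, d⟩ := key P hP
      exact Finset.mem_coe.2 (Finset.mem_product.2 ⟨Finset.mem_Icc.2 ⟨a, b⟩, Finset.mem_Icc.2 ⟨c, d⟩⟩)
    · intro P hP Q hQ hPQ
      rw [Finset.mem_coe] at hP hQ
      obtain ⟨a, b, c, d⟩ := key P hP
      obtain ⟨hPT, -⟩ := Finset.mem_filter.1 hP
      obtain ⟨hQT, -⟩ := Finset.mem_filter.1 hQ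
      obtain ⟨p1, p2, p3⟩ := hp P hPT
      obtain ⟨q1, q2, q3⟩ := hp Q hQT
      obtain ⟨f1, f2⟩ := Prod.ext_iff.1 hPQ
      simp only at f1 f2
      have g1 := h3 _ p1
      have g2 := h3 _ hPT
      have g3 := h3 _ q1
      have g4 := h3 _ hQT
      have hz : (p0 (κ P)).2 = (p0 (κ Q)).2 := by
        refine jarUnq (m := m) (n := n) (l := P.1 - (p0 (κ P)).1) (h := P.2 - (p0 (κ P)).2)
          hm hn a c (h0 _ p1) (h0 _ q1) g1 ?_ g3 ?_
        · rw [add_sub_cancel, add_sub_cancel]; exact g2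
        · rw [f1, f2, add_sub_cancel, add_sub_cancel]; exact g4
      have hw : (p0 (κ P)).1 = (p0 (κ Q)).1 :=
        le_antisymm (hmono _ p1 _ q1 hz.le) (hmono _ q1 _ p1 hz.symm.le)
      exact Prod.ext (by linarith) (by linarith)
  have hc3 : T.card ≤ (T.image κ).card + (T.filter (fun P => P ≠ p0 (κ P))).card :=
    ((Finset.card_le_card hsub).trans (Finset.card_union_le _ _)).trans
      (Nat.add_le_add_right Finset.card_image_le _)
  have hc4 : (((Finset.Icc 1 (H - 1)) ×ˢ (Finset.Icc 1 (H - 1))).card : ℤ) = (H - 1) ^ 2 := by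
    rw [Finset.card_product, Int.card_Icc]
    push_cast
    have : ((H - 1 + 1 - 1).toNat : ℤ) = H - 1 := by
      rw [Int.toNat_of_nonneg (by omega)]
      ring
    rw [this]
    ring
  have hMH : 0 ≤ M / H := Int.ediv_nonneg hM hH0.le
  have hc5 : (((3 * (M / H) + 2).toNat : ℕ) : ℤ) = 3 * (M / H) + 2 :=
    Int.toNat_of_nonneg (by omega)
  have hc1' : ((T.image κ).card : ℤ) ≤ 3 * (M / H) + 2 := by
    rw [← hc5]; exact_mod_cast hc1
  have hc2' : ((T.filter (fun P => P ≠ p0 (κ P))).card : ℤ) ≤ (H - 1) ^ 2 := by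
    rw [← hc4]; exact_mod_cast hc2
  have hc3' : (T.card : ℤ) ≤ (T.image κ).card + (T.filter (fun P => P ≠ p0 (κ P))).card := by
    exact_mod_cast hc3
  linarith

theorem jar {m n : ℤ} (hm : m ≠ 0) (hn : n ≠ 0) {B : ℝ} (hB : 1 ≤ B) (S : Finset (ℤ × ℤ))
    (hS : ∀ P ∈ S, |(P.1 : ℝ)| ≤ B ∧ |(P.2 : ℝ)| ≤ B ∧ P.1 ^ 2 - m * P.2 ^ 2 = n) :
    (S.card : ℝ) ≤ 40 * B ^ (2 / 3 : ℝ) := by
  classical
  have hB0 : 0 < B := by linarith
  obtain ⟨s, hs⟩ : ∃ s : ℤ, (s = 1 ∧ 0 < m) ∨ (s = -1 ∧ m < 0) := by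
    rcases lt_or_gt_of_ne hm with h | h
    · exact ⟨-1, Or.inr ⟨rfl, h⟩⟩
    · exact ⟨1, Or.inl ⟨rfl, h⟩⟩
  have hs1 : s * s = 1 := by
    rcases hs with ⟨rfl, _⟩ | ⟨rfl, _⟩ <;> norm_num
  have hsabs : |s| = 1 := by
    rcases hs with ⟨rfl, _⟩ | ⟨rfl, _⟩ <;> norm_num
  set f : ℤ × ℤ → ℤ × ℤ := fun P => (s * |P.1|, |P.2|) with hf
  set T := S.image f with hT
  have hbd : ∀ x : ℤ, |(x : ℝ)| ≤ B → |x| ≤ ⌊B⌋ := by
    intro x hx
    rw [Int.le_floor]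
    rw [Int.cast_abs]
    exact hx
  have hT1 : ∀ P ∈ T, 0 ≤ s * P.1 ∧ 0 ≤ P.2 ∧ P.2 ≤ ⌊B⌋ ∧ |P.1| ≤ ⌊B⌋ ∧
      P.1 ^ 2 - m * P.2 ^ 2 = n := by
    intro P hP
    obtain ⟨Q, hQ, rfl⟩ := Finset.mem_image.1 hP
    obtain ⟨a, b, c⟩ := hS Q hQ
    simp only [hf]
    refine ⟨?_, abs_nonneg _, hbd _ b, ?_, ?_⟩
    · rw [← mul_assoc, hs1, one_mul]
      exact abs_nonneg _
    · rw [abs_mul, hsabs, one_mul, abs_abs]
      exact hbd _ a
    · rw [mul_pow, sq_abs, sq_abs, pow_two s, hs1, one_mul]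
      exact c
  have hmono : ∀ P ∈ T, ∀ P' ∈ T, P.2 ≤ P'.2 → P.1 ≤ P'.1 := by
    intro P hP P' hP' h
    obtain ⟨a1, a2, a3, a4, a5⟩ := hT1 P hP
    obtain ⟨b1, b2, b3, b4, b5⟩ := hT1 P' hP'
    exact jarMono hs a1 b1 a2 a5 b5 h
  have hST : S.card ≤ 4 * T.card := by
    refine Finset.card_le_mul_card_image S 4 ?_
    intro Q _
    have : (S.filter fun x => f x = Q) ⊆
        {(Q.1, Q.2), (-Q.1, Q.2), (Q.1, -Q.2), (-Q.1, -Q.2)} := by
      intro P hP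
      obtain ⟨-, hPQ⟩ := Finset.mem_filter.1 hP
      obtain ⟨e1, e2⟩ := Prod.ext_iff.1 hPQ
      simp only [hf] at e1 e2
      have g1 : P.1 = Q.1 ∨ P.1 = -Q.1 := by
        have : |P.1| = |Q.1| := by
          rw [← e1, abs_mul, hsabs, one_mul, abs_abs]
        exact abs_eq_abs.1 this
      have g2 : P.2 = Q.2 ∨ P.2 = -Q.2 := by
        have : |P.2| = |Q.2| := by
          rw [← e2, abs_abs]
        exact abs_eq_abs.1 this
      simp only [Finset.mem_insert, Finset.mem_singleton, Prod.ext_iff]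
      rcases g1 with g1 | g1 <;> rcases g2 with g2 | g2 <;> simp [g1, g2]
    exact (Finset.card_le_card this).trans Finset.card_le_four
  have hc := Real.rpow_nonneg hB0.le (1 / 3 : ℝ)
  obtain ⟨r, hr⟩ : ∃ r : ℝ, r = B ^ (1 / 3 : ℝ) := ⟨_, rfl⟩
  have hr1 : 1 ≤ r := by rw [hr]; exact Real.one_le_rpow hB (by norm_num)
  have hr0 : 0 < r := by linarith
  have hr2 : B ^ (2 / 3 : ℝ) = r ^ 2 := by
    rw [hr, ← Real.rpow_natCast, ← Real.rpow_mul hB0.le]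
    norm_num
  have hr3 : B = r ^ 3 := by
    rw [hr, ← Real.rpow_natCast, ← Real.rpow_mul hB0.le]
    norm_num
  have hH1 : (1 : ℤ) ≤ ⌈r⌉ := by
    have : (0 : ℤ) < ⌈r⌉ := Int.ceil_pos.2 hr0
    omega
  have hH2 : r ≤ (⌈r⌉ : ℝ) := Int.le_ceil r
  have hH3 : (⌈r⌉ : ℝ) < r + 1 := Int.ceil_lt_add_one r
  have hM : (0 : ℤ) ≤ ⌊B⌋ := Int.floor_nonneg.2 hB0.le
  have hq := jarQuad hm hn hH1 hM T (fun P hP => (hT1 P hP).2.1) (fun P hP => (hT1 P hP).2.2.1)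
    (fun P hP => (hT1 P hP).2.2.2.1) (fun P hP => (hT1 P hP).2.2.2.2) hmono
  have hq' : (T.card : ℝ) ≤ 3 * ((⌊B⌋ / ⌈r⌉ : ℤ) : ℝ) + 2 + ((⌈r⌉ : ℝ) - 1) ^ 2 := by
    exact_mod_cast hq
  have hd : ((⌊B⌋ / ⌈r⌉ : ℤ) : ℝ) ≤ r ^ 2 := by
    have hd1 : (⌊B⌋ / ⌈r⌉ : ℤ) * ⌈r⌉ ≤ ⌊B⌋ := Int.ediv_mul_le _ (by omega)
    have hd2 : ((⌊B⌋ / ⌈r⌉ : ℤ) : ℝ) * (⌈r⌉ : ℝ) ≤ B := by
      have : ((⌊B⌋ / ⌈r⌉ : ℤ) : ℝ) * (⌈r⌉ : ℝ) ≤ (⌊B⌋ : ℝ) := by exact_mod_cast hd1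
      exact this.trans (Int.floor_le B)
    have hd3 : (0 : ℝ) ≤ ((⌊B⌋ / ⌈r⌉ : ℤ) : ℝ) := by
      exact_mod_cast Int.ediv_nonneg hM (by omega)
    have hd4 : ((⌊B⌋ / ⌈r⌉ : ℤ) : ℝ) * r ≤ r ^ 2 * r := by
      calc ((⌊B⌋ / ⌈r⌉ : ℤ) : ℝ) * r ≤ ((⌊B⌋ / ⌈r⌉ : ℤ) : ℝ) * (⌈r⌉ : ℝ) :=
            mul_le_mul_of_nonneg_left hH2 hd3
        _ ≤ B := hd2
        _ = r ^ 2 * r := by rw [hr3]; ring
    exact le_of_mul_le_mul_right hd4 hr0
  have he : ((⌈r⌉ : ℝ) - 1) ^ 2 ≤ r ^ 2 := by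
    have : 0 ≤ (⌈r⌉ : ℝ) - 1 := by linarith
    nlinarith
  have hST' : (S.card : ℝ) ≤ 4 * (T.card : ℝ) := by exact_mod_cast hST
  rw [hr2]
  nlinarith

end Pool.Agent.Work.MP_f2148a_nt.MC
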