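import Pool.Agent.Work.MP_f2148a_nt.MC.MinP

/-!
# MC/MaxA (size M): if `ℤ[α]` is not maximal, a prime `p` and an element of `(1/p) ℤ[α]`

`α` is not rational, so `1, α, α²` is a `ℚ`-basis of `F` (`uniqc` gives the independence, `[F : ℚ] = 3`). Suppose `¬ Gen F α`.
By `gen_iff` there is `ω0 : 𝓞 F` not of the form `u + vα + wα²` with integers. It is a rational combination of `1, α, α²`, so
there is a natural number `N ≥ 1` such that `N ω0` is an integer combination; take the smallest one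
(`Nat.find`). `N ≠ 1`, so there is a prime `p ∣ N`; put `ω = (N / p) ω0`: not an integer combination by minimality
(`N / p < N`), but `p ω = N ω0 = u + vα + wα²`. If `p` divided `u, v, w` then `ω` would be an integer combination.
-/

set_option autoImplicit false

namespace Pool.Agent.Work.MP_f2148a_nt.MC

open Polynomial NumberField

private theorem repQ (F : CF) (α : 𝓞 F.1) (hα : ∀ n : ℤ, α ≠ (n : 𝓞 F.1)) (z : F.1) :
    ∃ A B C : ℚ, z = (A : F.1) + (B : F.1) * algebraMap (𝓞 F.1) F.1 α + (C : F.1) * (algebraMap (𝓞 F.1) F.1 α) ^ 2 := by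
  obtain ⟨v, hv⟩ : ∃ v : Fin 3 → F.1, v = ![1, algebraMap (𝓞 F.1) F.1 α, (algebraMap (𝓞 F.1) F.1 α) ^ 2] := ⟨_, rfl⟩
  have hli : LinearIndependent ℚ v := by
    rw [Fintype.linearIndependent_iff]
    intro g hg
    rw [hv, Fin.sum_univ_three] at hg
    simp only [Matrix.cons_val_zero, Matrix.cons_val_one, Matrix.cons_val, Rat.smul_def, mul_one] at hg
    have := uniqc F α hα (g 0) (g 1) (g 2) hg
    intro i
    fin_cases i
    · exact this.1
    · exact this.2.1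
    · exact this.2.2
  have hsp := hli.span_eq_top_of_card_eq_finrank' (by rw [Fintype.card_fin]; exact F.2.symm)
  have hz : z ∈ Submodule.span ℚ (Set.range v) := by
    rw [hsp]
    exact Submodule.mem_top
  rw [Submodule.mem_span_range_iff_exists_fun] at hz
  obtain ⟨c, hc⟩ := hz
  rw [hv, Fin.sum_univ_three] at hc
  simp only [Matrix.cons_val_zero, Matrix.cons_val_one, Matrix.cons_val, Rat.smul_def, mul_one] at hc
  exact ⟨c 0, c 1, c 2, hc.symm⟩

theorem maxA (F : CF) (α : 𝓞 F.1) (hα : ∀ n : ℤ, α ≠ (n : 𝓞 F.1)) (h : ¬ Gen F α) :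
    ∃ p : ℕ, p.Prime ∧ ∃ u v w : ℤ, ¬ ((p : ℤ) ∣ u ∧ (p : ℤ) ∣ v ∧ (p : ℤ) ∣ w) ∧
      ∃ ω : 𝓞 F.1, (p : 𝓞 F.1) * ω = (u : 𝓞 F.1) + (v : 𝓞 F.1) * α + (w : 𝓞 F.1) * α ^ 2 := by
  classical
  have h1 : ∃ ω0 : 𝓞 F.1, ¬ ∃ u v w : ℤ, ω0 = (u : 𝓞 F.1) + (v : 𝓞 F.1) * α + (w : 𝓞 F.1) * α ^ 2 := by
    by_contra hc
    push Not at hc
    exact h (gen_iff F α hc)
  obtain ⟨ω0, hω0⟩ := h1
  obtain ⟨A, B, C, hABC⟩ := repQ F α hα (algebraMap (𝓞 F.1) F.1 ω0)
  have hex : ∃ N : ℕ, 0 < N ∧ ∃ u v w : ℤ,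
      (N : 𝓞 F.1) * ω0 = (u : 𝓞 F.1) + (v : 𝓞 F.1) * α + (w : 𝓞 F.1) * α ^ 2 := by
    refine ⟨A.den * B.den * C.den, Nat.mul_pos (Nat.mul_pos A.den_pos B.den_pos) C.den_pos,
      A.num * B.den * C.den, A.den * B.num * C.den, A.den * B.den * C.num, ?_⟩
    apply FaithfulSMul.algebraMap_injective (𝓞 F.1) F.1
    simp only [map_add, map_mul, map_pow, map_intCast, map_natCast]
    rw [hABC]
    have hA : (A : F.1) * (A.den : F.1) = (A.num : F.1) := by
      have := Rat.mul_den_eq_num A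
      exact_mod_cast congrArg (fun q : ℚ => (q : F.1)) this
    have hB : (B : F.1) * (B.den : F.1) = (B.num : F.1) := by
      have := Rat.mul_den_eq_num B
      exact_mod_cast congrArg (fun q : ℚ => (q : F.1)) this
    have hC : (C : F.1) * (C.den : F.1) = (C.num : F.1) := by
      have := Rat.mul_den_eq_num C
      exact_mod_cast congrArg (fun q : ℚ => (q : F.1)) this
    push_cast
    rw [← hA, ← hB, ← hC]
    ring
  obtain ⟨hN0, u, v, w, hN⟩ := Nat.find_spec hex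
  have hmin := fun m (hm : m < Nat.find hex) => Nat.find_min hex hm
  generalize Nat.find hex = N at hN0 hN hmin
  have hN1 : N ≠ 1 := by
    rintro rfl
    apply hω0
    refine ⟨u, v, w, ?_⟩
    rw [← hN, Nat.cast_one, one_mul]
  have hp := Nat.minFac_prime hN1
  obtain ⟨M, hM⟩ := Nat.minFac_dvd N
  refine ⟨N.minFac, hp, u, v, w, ?_, (M : 𝓞 F.1) * ω0, ?_⟩
  · rintro ⟨⟨u', hu⟩, ⟨v', hv⟩, ⟨w', hw⟩⟩
    have hM0 : 0 < M := by
      rcases Nat.eq_zero_or_pos M with h0 | h0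
      · rw [h0, mul_zero] at hM
        omega
      · exact h0
    have hMN : M < N := by
      have := hp.two_le
      rw [hM]
      nlinarith
    apply hmin M hMN
    refine ⟨hM0, u', v', w', ?_⟩
    have hpF : ((N.minFac : ℕ) : 𝓞 F.1) ≠ 0 := Nat.cast_ne_zero.2 hp.ne_zero
    apply mul_left_cancel₀ hpF
    have e : (N : 𝓞 F.1) = (N.minFac : 𝓞 F.1) * (M : 𝓞 F.1) := by exact_mod_cast congrArg (fun q : ℕ => (q : 𝓞 F.1)) hM
    have eu : (u : 𝓞 F.1) = (N.minFac : 𝓞 F.1) * (u' : 𝓞 F.1) := by exact_mod_cast congrArg (fun q : ℤ => (q : 𝓞 F.1)) hu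
    have ev : (v : 𝓞 F.1) = (N.minFac : 𝓞 F.1) * (v' : 𝓞 F.1) := by exact_mod_cast congrArg (fun q : ℤ => (q : 𝓞 F.1)) hv
    have ew : (w : 𝓞 F.1) = (N.minFac : 𝓞 F.1) * (w' : 𝓞 F.1) := by exact_mod_cast congrArg (fun q : ℤ => (q : 𝓞 F.1)) hw
    rw [e, eu, ev, ew] at hN
    linear_combination hN
  · rw [← mul_assoc, ← Nat.cast_mul, ← hM, hN]

end Pool.Agent.Work.MP_f2148a_nt.MC
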