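import Pool.Agent.Work.MP_f2148a_nt.MC.IntC

/-!
# MC/MinP (size S-M): a generator of the ring of integers

* `gen_nonint`: if `ℤ[α] = 𝓞 F` and `α = n` is an integer then `𝓞 F = ℤ`, but `F ≠ ℚ` (`[F : ℚ] = 3`): every element of
  `F` is a quotient of an element of `𝓞 F` by an integer, so it would be rational. (`Algebra.adjoin_singleton_intCast...`,
  or: the elements of `Algebra.adjoin ℤ {(n : 𝓞 F)}` are integers.)
* `minp`: `deg3` of `IntC`.
* `gen_repr`: every element of `𝓞 F = ℤ[α]` is `u + v α + w α²`: the set of these is a subring containing `α`, as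
  `α³ = -(a α² + b α + c)` (`Algebra.adjoin_induction`; or `Algebra.adjoin_singleton_eq_range_aeval` and division with
  remainder by the monic `pl t`).
* `gen_iff`: conversely, if every element of `𝓞 F` is of the form `u + v α + w α²` then `Gen F α`.
* `gen_add`, `gen_neg`: `ℤ[α + n] = ℤ[α]`, `ℤ[-α] = ℤ[α]`.
* `minp_add`, `minp_neg`: the minimal polynomial of `α + n` is `pl (sh (-n) t)` (`pl (sh (-n) t)` evaluated at `α + n` is `f(α)`,
  `Ir` is invariant; `minp_of_root`), that of `-α` is `pl (rf t)`.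
-/

set_option autoImplicit false

namespace Pool.Agent.Work.MP_f2148a_nt.MC

open Polynomial NumberField

theorem gen_nonint (F : CF) (α : 𝓞 F.1) (h : Gen F α) : ∀ n : ℤ, α ≠ (n : 𝓞 F.1) := by
  intro n hn
  have h1 : ∀ ω : 𝓞 F.1, ∃ k : ℤ, ω = (k : 𝓞 F.1) := by
    intro ω
    have h2 : ω ∈ Algebra.adjoin ℤ {α} := by
      rw [show Algebra.adjoin ℤ {α} = ⊤ from h]
      exact Algebra.mem_top
    refine Algebra.adjoin_induction (p := fun x _ => ∃ k : ℤ, x = (k : 𝓞 F.1)) ?_ ?_ ?_ ?_ h2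
    · intro x hx
      exact ⟨n, by rw [Set.mem_singleton_iff.1 hx, hn]⟩
    · intro r
      exact ⟨r, by simp⟩
    · rintro x y _ _ ⟨k, rfl⟩ ⟨l, rfl⟩
      exact ⟨k + l, by push_cast; ring⟩
    · rintro x y _ _ ⟨k, rfl⟩ ⟨l, rfl⟩
      exact ⟨k * l, by push_cast; ring⟩
  have h3 : ∀ x : F.1, ∃ r : ℚ, algebraMap ℚ F.1 r = x := by
    intro x
    obtain ⟨a, b, hb, hab⟩ := IsFractionRing.div_surjective (A := 𝓞 F.1) x
    obtain ⟨k, rfl⟩ := h1 a
    obtain ⟨l, rfl⟩ := h1 b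
    refine ⟨(k : ℚ) / l, ?_⟩
    rw [← hab]
    simp
  have h4 : Module.finrank ℚ F.1 ≤ 1 := by
    refine finrank_le_one (1 : F.1) fun w => ?_
    obtain ⟨r, hr⟩ := h3 w
    exact ⟨r, by rw [← hr, Algebra.smul_def, mul_one]⟩
  have h5 : Module.finrank ℚ F.1 = 3 := F.2
  omega

theorem minp (F : CF) (α : 𝓞 F.1) (h : Gen F α) : ∃ t : Tr, minpoly ℤ α = pl t ∧ Ir t :=
  deg3 F α (gen_nonint F α h)

private theorem mp_cube {F : CF} {α : 𝓞 F.1} {t : Tr} (h : minpoly ℤ α = pl t) :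
    α ^ 3 + (t.1 : 𝓞 F.1) * α ^ 2 + (t.2.1 : 𝓞 F.1) * α + (t.2.2 : 𝓞 F.1) = 0 := by
  rw [← pl_eval, ← h]
  exact minpoly.aeval ℤ α

theorem gen_repr (F : CF) (α : 𝓞 F.1) (h : Gen F α) (ω : 𝓞 F.1) :
    ∃ u v w : ℤ, ω = (u : 𝓞 F.1) + (v : 𝓞 F.1) * α + (w : 𝓞 F.1) * α ^ 2 := by
  obtain ⟨t, ht, -⟩ := minp F α h
  have hc := mp_cube ht
  have h2 : ω ∈ Algebra.adjoin ℤ {α} := by
    rw [show Algebra.adjoin ℤ {α} = ⊤ from h]
    exact Algebra.mem_top
  refine Algebra.adjoin_induction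
    (p := fun x _ => ∃ u v w : ℤ, x = (u : 𝓞 F.1) + (v : 𝓞 F.1) * α + (w : 𝓞 F.1) * α ^ 2) ?_ ?_ ?_ ?_ h2
  · intro x hx
    exact ⟨0, 1, 0, by rw [Set.mem_singleton_iff.1 hx]; push_cast; ring⟩
  · intro r
    exact ⟨r, 0, 0, by simp⟩
  · rintro x y _ _ ⟨u, v, w, rfl⟩ ⟨u', v', w', rfl⟩
    exact ⟨u + u', v + v', w + w', by push_cast; ring⟩
  · rintro x y _ _ ⟨u, v, w, rfl⟩ ⟨u', v', w', rfl⟩
    -- coefficients of the product: c0, c1, c2, c3, c4; α³ = -(a α² + b α + c)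
    refine ⟨u * u' - (v * w' + w * v') * t.2.2 + w * w' * (t.1 * t.2.2),
      (u * v' + v * u') - (v * w' + w * v') * t.2.1 + w * w' * (t.1 * t.2.1 - t.2.2),
      (u * w' + v * v' + w * u') - (v * w' + w * v') * t.1 + w * w' * (t.1 ^ 2 - t.2.1), ?_⟩
    push_cast
    linear_combination ((v * w' + w * v' : 𝓞 F.1) + (w * w' : 𝓞 F.1) * (α - (t.1 : 𝓞 F.1))) * hc

theorem gen_iff (F : CF) (α : 𝓞 F.1)
    (h : ∀ ω : 𝓞 F.1, ∃ u v w : ℤ, ω = (u : 𝓞 F.1) + (v : 𝓞 F.1) * α + (w : 𝓞 F.1) * α ^ 2) : Gen F α := by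
  unfold Gen
  rw [eq_top_iff]
  intro ω _
  obtain ⟨u, v, w, rfl⟩ := h ω
  have hα : α ∈ Algebra.adjoin ℤ {α} := Algebra.self_mem_adjoin_singleton ℤ α
  exact add_mem (add_mem (intCast_mem _ u) (mul_mem (intCast_mem _ v) hα))
    (mul_mem (intCast_mem _ w) (pow_mem hα 2))

theorem gen_add (F : CF) (α : 𝓞 F.1) (n : ℤ) (h : Gen F α) : Gen F (α + (n : 𝓞 F.1)) := by
  unfold Gen
  rw [eq_top_iff, ← show Algebra.adjoin ℤ {α} = ⊤ from h]
  refine Algebra.adjoin_le ?_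
  rw [Set.singleton_subset_iff]
  have h1 : α + (n : 𝓞 F.1) ∈ Algebra.adjoin ℤ {α + (n : 𝓞 F.1)} := Algebra.self_mem_adjoin_singleton ℤ _
  have h2 := sub_mem h1 (intCast_mem (Algebra.adjoin ℤ {α + (n : 𝓞 F.1)}) n)
  rwa [add_sub_cancel_right] at h2

theorem gen_neg (F : CF) (α : 𝓞 F.1) (h : Gen F α) : Gen F (-α) := by
  unfold Gen
  rw [eq_top_iff, ← show Algebra.adjoin ℤ {α} = ⊤ from h]
  refine Algebra.adjoin_le ?_
  rw [Set.singleton_subset_iff]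
  have h1 : -α ∈ Algebra.adjoin ℤ {-α} := Algebra.self_mem_adjoin_singleton ℤ _
  have h2 := neg_mem h1
  rwa [neg_neg] at h2

theorem minp_add (F : CF) (α : 𝓞 F.1) (t : Tr) (ht : Ir t) (h : minpoly ℤ α = pl t) (n : ℤ) :
    minpoly ℤ (α + (n : 𝓞 F.1)) = pl (sh (-n) t) := by
  have hc := mp_cube h
  refine (minp_of_root F _ _ ?_ ?_).1
  · intro k hk
    apply ht (k - n)
    rw [← hk]
    simp only [v0, sh, v1]
    ring
  · rw [pl_eval]
    simp only [sh, v0, v1]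
    push_cast
    linear_combination hc

theorem minp_neg (F : CF) (α : 𝓞 F.1) (t : Tr) (ht : Ir t) (h : minpoly ℤ α = pl t) :
    minpoly ℤ (-α) = pl (rf t) := by
  have hc := mp_cube h
  refine (minp_of_root F _ _ ?_ ?_).1
  · intro k hk
    apply ht (-k)
    have h1 : v0 t (-k) = - v0 (rf t) k := by
      simp only [v0, rf]
      ring
    rw [h1, hk, neg_zero]
  · rw [pl_eval]
    simp only [rf]
    push_cast
    linear_combination -hc

end Pool.Agent.Work.MP_f2148a_nt.MC
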