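import Mathlib

/-!
# MC/MobSum (size S-M): the partial sums of `μ(d) / d²` (no import except Mathlib)

`∑_{d ≥ 1} μ(d) / d² = 1 / ζ(2) = 6 / π²` (`ArithmeticFunction.LSeries_zeta_mul_Lseries_moebius` at `s = 2`,
`ArithmeticFunction.LSeries_zeta_eq_riemannZeta`, `riemannZeta_two`; take real parts), the series converges absolutely, and
the tail is at most `∑_{d > N} 1 / d² ≤ ∑_{d > N} (1/(d - 1) - 1/d) = 1 / N`.
-/

set_option autoImplicit false

namespace Pool.Agent.Work.MP_f2148a_nt.MC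

private theorem ms_bound (d : ℕ) :
    |(ArithmeticFunction.moebius d : ℝ) / (d : ℝ) ^ 2| ≤ 1 / (d : ℝ) ^ 2 := by
  rw [abs_div, abs_of_nonneg (by positivity : (0 : ℝ) ≤ (d : ℝ) ^ 2)]
  have h1 : |(ArithmeticFunction.moebius d : ℝ)| ≤ 1 := by
    exact_mod_cast ArithmeticFunction.abs_moebius_le_one (n := d)
  gcongr

private theorem ms_summable : Summable fun d : ℕ => (ArithmeticFunction.moebius d : ℝ) / (d : ℝ) ^ 2 := by
  refine Summable.of_norm_bounded (g := fun d : ℕ => 1 / (d : ℝ) ^ 2)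
    (Real.summable_one_div_nat_pow.2 (by norm_num)) fun d => ?_
  rw [Real.norm_eq_abs]
  exact ms_bound d

private theorem ms_tsum :
    ∑' d : ℕ, (ArithmeticFunction.moebius d : ℝ) / (d : ℝ) ^ 2 = 6 / Real.pi ^ 2 := by
  have h2 : 1 < (2 : ℂ).re := by norm_num
  have h1 := ArithmeticFunction.LSeries_zeta_mul_Lseries_moebius h2
  rw [ArithmeticFunction.LSeries_zeta_eq_riemannZeta h2, riemannZeta_two] at h1
  have h3 : LSeries (fun n => ((ArithmeticFunction.moebius n : ℤ) : ℂ)) 2 =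
      ((∑' d : ℕ, (ArithmeticFunction.moebius d : ℝ) / (d : ℝ) ^ 2 : ℝ) : ℂ) := by
    unfold LSeries
    rw [Complex.ofReal_tsum]
    refine tsum_congr fun n => ?_
    rw [LSeries.term_def]
    by_cases hn : n = 0
    · rw [if_pos hn, hn]
      simp
    · rw [if_neg hn]
      push_cast
      rw [Complex.cpow_ofNat]
  rw [h3] at h1
  have hpi : (Real.pi : ℝ) ^ 2 ≠ 0 := by positivity
  have h4 : ((Real.pi ^ 2 / 6 * (∑' d : ℕ, (ArithmeticFunction.moebius d : ℝ) / (d : ℝ) ^ 2) : ℝ) : ℂ) =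
      ((1 : ℝ) : ℂ) := by
    push_cast
    push_cast at h1
    exact h1
  have h5 := Complex.ofReal_injective h4
  field_simp
  field_simp at h5
  linarith

private theorem ms_tail {N : ℕ} (hN : 1 ≤ N) (n : ℕ) :
    ∑ i ∈ Finset.range n, 1 / ((i + (N + 1) : ℕ) : ℝ) ^ 2 ≤ 1 / (N : ℝ) - 1 / ((n + N : ℕ) : ℝ) := by
  induction n with
  | zero => simp
  | succ n ih =>
    rw [Finset.sum_range_succ]
    have h1 : (0 : ℝ) < ((n + N : ℕ) : ℝ) := by
      have : 0 < n + N := by omega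
      exact_mod_cast this
    have h2 : ((n + (N + 1) : ℕ) : ℝ) = ((n + N : ℕ) : ℝ) + 1 := by push_cast; ring
    have h3 : ((n + 1 + N : ℕ) : ℝ) = ((n + N : ℕ) : ℝ) + 1 := by push_cast; ring
    rw [h2, h3]
    have h4 : 1 / (((n + N : ℕ) : ℝ) + 1) ^ 2 ≤
        1 / ((n + N : ℕ) : ℝ) - 1 / (((n + N : ℕ) : ℝ) + 1) := by
      rw [div_sub_div _ _ h1.ne' (by positivity), div_le_div_iff₀ (by positivity) (by positivity)]
      nlinarith
    linarith

theorem mobSum {N : ℕ} (hN : 1 ≤ N) :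
    |∑ d ∈ Finset.Icc 1 N, (ArithmeticFunction.moebius d : ℝ) / (d : ℝ) ^ 2 - 6 / Real.pi ^ 2| ≤ 1 / (N : ℝ) := by
  have h1 := ms_summable.sum_add_tsum_nat_add (N + 1)
  rw [ms_tsum] at h1
  have h2 : ∑ d ∈ Finset.range (N + 1), (ArithmeticFunction.moebius d : ℝ) / (d : ℝ) ^ 2 =
      ∑ d ∈ Finset.Icc 1 N, (ArithmeticFunction.moebius d : ℝ) / (d : ℝ) ^ 2 := by
    symm
    refine Finset.sum_subset ?_ ?_
    · intro d hd
      rw [Finset.mem_Icc] at hd
      rw [Finset.mem_range]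
      omega
    · intro d hd hd'
      rw [Finset.mem_range] at hd
      rw [Finset.mem_Icc] at hd'
      have : d = 0 := by omega
      rw [this]
      simp
  rw [h2] at h1
  have h3 : |∑' i : ℕ, (ArithmeticFunction.moebius (i + (N + 1)) : ℝ) / ((i + (N + 1) : ℕ) : ℝ) ^ 2| ≤
      1 / (N : ℝ) := by
    have hs : Summable fun i : ℕ => 1 / ((i + (N + 1) : ℕ) : ℝ) ^ 2 :=
      (summable_nat_add_iff (f := fun d : ℕ => 1 / (d : ℝ) ^ 2) (N + 1)).2
        (Real.summable_one_div_nat_pow.2 (by norm_num))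
    rw [← Real.norm_eq_abs]
    refine (tsum_of_norm_bounded hs.hasSum fun i => ?_).trans ?_
    · rw [Real.norm_eq_abs]
      exact ms_bound _
    · refine Real.tsum_le_of_sum_range_le (fun i => by positivity) fun n => ?_
      refine (ms_tail hN n).trans ?_
      have : (0 : ℝ) ≤ 1 / ((n + N : ℕ) : ℝ) := by positivity
      linarith
  have h4 : ∑ d ∈ Finset.Icc 1 N, (ArithmeticFunction.moebius d : ℝ) / (d : ℝ) ^ 2 - 6 / Real.pi ^ 2 =
      - ∑' i : ℕ, (ArithmeticFunction.moebius (i + (N + 1)) : ℝ) / ((i + (N + 1) : ℕ) : ℝ) ^ 2 := by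
    linarith
  rw [h4, abs_neg]
  exact h3

end Pool.Agent.Work.MP_f2148a_nt.MC
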