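import Mathlib

/-!
# MC/Sieve (size S-M): the truncated sieve identity (no import except Mathlib)

For every `s ∈ S`, with `n = q s ≥ 1`: `[n = 1] = ∑_{d ∣ n} μ(d)` (`ArithmeticFunction.coe_moebius_mul_coe_zeta`,
`ArithmeticFunction.sum_moebius...`: `∑ d ∈ n.divisors, μ d = if n = 1 then 1 else 0`). Split the divisors at `N`:
`[n = 1] - ∑_{d ≤ N, d ∣ n} μ(d) = ∑_{d ∣ n, d > N} μ(d)`, which is 0 if `n ≤ N` and has absolute value at most the number
of divisors of `n` in general (`|μ| ≤ 1`, `ArithmeticFunction.abs_moebius_le_one`). Sum over `s ∈ S` and exchange the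
sums: `∑_{s} ∑_{d ≤ N, d ∣ q s} μ(d) = ∑_{d ≤ N} μ(d) #{s ∈ S : d ∣ q s}`.
-/

set_option autoImplicit false

namespace Pool.Agent.Work.MP_f2148a_nt.MC

private theorem point {n : ℕ} (hn : 0 < n) (N : ℕ) :
    |(if n = 1 then (1 : ℝ) else 0) -
      ∑ d ∈ Finset.Icc 1 N, (ArithmeticFunction.moebius d : ℝ) * (if d ∣ n then (1 : ℝ) else 0)| ≤
    if N < n then ((Nat.divisors n).card : ℝ) else 0 := by
  have h1 : (if n = 1 then (1 : ℝ) else 0) = ∑ d ∈ n.divisors, (ArithmeticFunction.moebius d : ℝ) := by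
    have h2 := congrArg (fun f : ArithmeticFunction ℤ => f n) ArithmeticFunction.moebius_mul_coe_zeta
    simp only [ArithmeticFunction.coe_mul_zeta_apply, ArithmeticFunction.one_apply] at h2
    have h3 : ((∑ d ∈ n.divisors, ArithmeticFunction.moebius d : ℤ) : ℝ) = ((if n = 1 then 1 else 0 : ℤ) : ℝ) := by
      rw [h2]
    push_cast at h3
    exact h3.symm
  have h4 : ∑ d ∈ Finset.Icc 1 N, (ArithmeticFunction.moebius d : ℝ) * (if d ∣ n then (1 : ℝ) else 0) =
      ∑ d ∈ n.divisors.filter (fun d => d ≤ N), (ArithmeticFunction.moebius d : ℝ) := by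
    simp only [mul_ite, mul_one, mul_zero]
    rw [← Finset.sum_filter]
    refine Finset.sum_congr ?_ fun _ _ => rfl
    ext d
    simp only [Finset.mem_filter, Finset.mem_Icc, Nat.mem_divisors]
    constructor
    · rintro ⟨⟨h5, h6⟩, h7⟩
      exact ⟨⟨h7, hn.ne'⟩, h6⟩
    · rintro ⟨⟨h5, h6⟩, h7⟩
      exact ⟨⟨Nat.pos_of_dvd_of_pos h5 hn, h7⟩, h5⟩
  have h5 : ∑ d ∈ n.divisors, (ArithmeticFunction.moebius d : ℝ) =
      ∑ d ∈ n.divisors.filter (fun d => d ≤ N), (ArithmeticFunction.moebius d : ℝ) +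
      ∑ d ∈ n.divisors.filter (fun d => ¬ d ≤ N), (ArithmeticFunction.moebius d : ℝ) :=
    (Finset.sum_filter_add_sum_filter_not _ _ _).symm
  rw [h1, h4, h5, add_sub_cancel_left]
  split_ifs with h6
  · calc |∑ d ∈ n.divisors.filter (fun d => ¬ d ≤ N), (ArithmeticFunction.moebius d : ℝ)|
        ≤ ∑ d ∈ n.divisors.filter (fun d => ¬ d ≤ N), |(ArithmeticFunction.moebius d : ℝ)| :=
          Finset.abs_sum_le_sum_abs _ _
      _ ≤ ∑ d ∈ n.divisors.filter (fun d => ¬ d ≤ N), (1 : ℝ) := by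
          refine Finset.sum_le_sum fun d _ => ?_
          have := ArithmeticFunction.abs_moebius_le_one (n := d)
          exact_mod_cast this
      _ = ((n.divisors.filter (fun d => ¬ d ≤ N)).card : ℝ) := by
          rw [Finset.sum_const, nsmul_eq_mul, mul_one]
      _ ≤ (n.divisors.card : ℝ) := by
          exact_mod_cast Finset.card_filter_le _ _
  · rw [Finset.filter_eq_empty_iff.2, Finset.sum_empty, abs_zero]
    intro d hd
    rw [not_not]
    exact (Nat.divisor_le hd).trans (not_lt.1 h6)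

theorem sieve {α : Type*} (S : Finset α) (q : α → ℕ) (hq : ∀ s ∈ S, 0 < q s) (N : ℕ) :
    |((S.filter fun s => q s = 1).card : ℝ) -
      ∑ d ∈ Finset.Icc 1 N, (ArithmeticFunction.moebius d : ℝ) * ((S.filter fun s => d ∣ q s).card : ℝ)| ≤
    ∑ s ∈ S.filter (fun s => N < q s), ((Nat.divisors (q s)).card : ℝ) := by
  have h1 : ((S.filter fun s => q s = 1).card : ℝ) = ∑ s ∈ S, (if q s = 1 then (1 : ℝ) else 0) := by
    rw [Finset.sum_boole]
  have h2 : ∑ d ∈ Finset.Icc 1 N, (ArithmeticFunction.moebius d : ℝ) * ((S.filter fun s => d ∣ q s).card : ℝ) =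
      ∑ s ∈ S, ∑ d ∈ Finset.Icc 1 N, (ArithmeticFunction.moebius d : ℝ) * (if d ∣ q s then (1 : ℝ) else 0) := by
    rw [Finset.sum_comm]
    refine Finset.sum_congr rfl fun d _ => ?_
    rw [← Finset.mul_sum, Finset.sum_boole]
  have h3 : ∑ s ∈ S.filter (fun s => N < q s), ((Nat.divisors (q s)).card : ℝ) =
      ∑ s ∈ S, if N < q s then ((Nat.divisors (q s)).card : ℝ) else 0 := Finset.sum_filter _ _
  rw [h1, h2, h3, ← Finset.sum_sub_distrib]
  refine (Finset.abs_sum_le_sum_abs _ _).trans (Finset.sum_le_sum fun s hs => ?_)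
  exact point (hq s hs) N

end Pool.Agent.Work.MP_f2148a_nt.MC
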