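import Pool.Agent.Work.MP_f2148a_nt.MC.Rad
import Pool.Agent.Work.MP_f2148a_nt.MC.Jar

/-!
# MC/Tail2 (size M): the triples with large `q t`

For `t ∈ S` put `(x, y) = pt t`, `q = q t`. `D t = q² m` with an integer `m ≠ 0` (`q_sq_dvd`), `|m| ≤ X / q² ≤ X / D1²`,
`q ≤ √X ≤ Y` (`q_le`), and `y² - (-432 m) q² = x³` (`pt_id`).
* `x ≠ 0`: for given `(x, m)` the pairs `(y, q)` are in the set of `jar` with the parameters `-432 m ≠ 0`, `x³ ≠ 0`,
  `B = Y ≥ 1`, so there are at most `40 Y^(2/3)` of them, and `t` is determined by `(x, y)` (`pt_inj`). There are at most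
  `2 B + 1` values of `x` and at most `2 X / D1² + 1` values of `m`.
* `x = 0`: `t` is determined by `y`, at most `2 Y + 1` values.
(`m = D t / (q t)²` as an integer quotient; `Finset.card_le_mul_card_image` for `t ↦ (fx t, m)`.)
-/

set_option autoImplicit false

namespace Pool.Agent.Work.MP_f2148a_nt.MC

private theorem fib {α β : Type*} [DecidableEq β] (S : Finset α) (f : α → β) (T : Finset β)
    (hT : ∀ x ∈ S, f x ∈ T) (C : ℝ)
    (hC : ∀ y ∈ T, ((S.filter (fun x => f x = y)).card : ℝ) ≤ C) :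
    (S.card : ℝ) ≤ T.card * C := by
  have h1 := Finset.card_eq_sum_card_fiberwise (s := S) (f := f) (t := T) hT
  rw [h1]
  push_cast
  refine (Finset.sum_le_sum hC).trans ?_
  rw [Finset.sum_const, nsmul_eq_mul]

private theorem ivl0 (T : Finset ℤ) (L : ℝ) (hL : 0 ≤ L)
    (h : ∀ b ∈ T, |(b : ℝ)| ≤ L) : (T.card : ℝ) ≤ 2 * L + 1 := by
  have h1 : T ⊆ Finset.Icc (-⌊L⌋) ⌊L⌋ := by
    intro b hb
    have h2 := abs_le.1 (h b hb)
    rw [Finset.mem_Icc]
    constructor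
    · have h3 : -b ≤ ⌊L⌋ := Int.le_floor.2 (by push_cast; linarith)
      omega
    · exact Int.le_floor.2 h2.2
  have h2 := Finset.card_le_card h1
  rw [Int.card_Icc] at h2
  have h3 : 0 ≤ ⌊L⌋ := Int.floor_nonneg.2 hL
  have h4 : (T.card : ℤ) ≤ 2 * ⌊L⌋ + 1 := by omega
  have h5 : (T.card : ℝ) ≤ 2 * (⌊L⌋ : ℝ) + 1 := by exact_mod_cast h4
  have h6 := Int.floor_le L
  linarith

theorem tail2 {σ : ℝ} (hσ : σ = 1 ∨ σ = -1) {X B Y D1 : ℝ} (hX : 1 ≤ X) (hB : 0 ≤ B) (hY : √X ≤ Y) (hD : 0 < D1)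
    (S : Finset Tr) (hS : ∀ t ∈ S, t ∈ TT σ X ∧ |(fx t : ℝ)| ≤ B ∧ |(fy t : ℝ)| ≤ Y ∧ D1 < (q t : ℝ)) :
    (S.card : ℝ) ≤ 40 * (2 * B + 1) * (2 * X / D1 ^ 2 + 1) * Y ^ (2 / 3 : ℝ) + (2 * Y + 1) := by
  classical
  have hsX : 1 ≤ √X := by
    rw [Real.one_le_sqrt]
    exact hX
  have hY1 : 1 ≤ Y := hsX.trans hY
  have hD0 : ∀ t ∈ S, D t ≠ 0 := by
    intro t ht h0
    obtain ⟨⟨-, h1, -⟩, -⟩ := hS t ht
    rw [h0] at h1
    simp at h1
  have hDX : ∀ t ∈ S, |(D t : ℝ)| ≤ X := by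
    intro t ht
    obtain ⟨⟨-, h1, h2⟩, -⟩ := hS t ht
    rw [abs_le]
    rcases hσ with h | h
    · rw [h] at h1 h2
      constructor <;> linarith
    · rw [h] at h1 h2
      constructor <;> linarith
  have hq2 : ∀ t ∈ S, (q t : ℝ) ^ 2 ≤ X := fun t ht => (q_le (hD0 t ht)).trans (hDX t ht)
  have hqY : ∀ t ∈ S, (q t : ℝ) ≤ Y := by
    intro t ht
    refine le_trans ?_ hY
    exact Real.le_sqrt_of_sq_le (hq2 t ht)
  have hm : ∀ t ∈ S, ∃ k : ℤ, D t = (q t : ℤ) ^ 2 * k := fun t ht => q_sq_dvd (hD0 t ht)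
  choose! μ hμ using hm
  have hμ0 : ∀ t ∈ S, μ t ≠ 0 := by
    intro t ht h0
    apply hD0 t ht
    rw [hμ t ht, h0, mul_zero]
  have hμX : ∀ t ∈ S, |(μ t : ℝ)| ≤ X / D1 ^ 2 := by
    intro t ht
    obtain ⟨-, -, -, hq⟩ := hS t ht
    have h1 := hDX t ht
    rw [hμ t ht] at h1
    push_cast at h1
    rw [abs_mul, abs_of_nonneg (by positivity)] at h1
    rw [le_div_iff₀ (by positivity)]
    have h2 : D1 ^ 2 ≤ (q t : ℝ) ^ 2 := pow_le_pow_left₀ hD.le hq.le 2
    nlinarith [abs_nonneg (μ t : ℝ), mul_le_mul_of_nonneg_right h2 (abs_nonneg (μ t : ℝ))]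
  -- the part with x ≠ 0
  have h1 : ((S.filter (fun t => fx t ≠ 0)).card : ℝ) ≤
      (2 * B + 1) * ((2 * (X / D1 ^ 2) + 1) * (40 * Y ^ (2 / 3 : ℝ))) := by
    have hin : ∀ x k : ℤ, ((((S.filter (fun t => fx t ≠ 0)).filter (fun t => fx t = x)).filter
        (fun t => μ t = k)).card : ℝ) ≤ 40 * Y ^ (2 / 3 : ℝ) := by
      intro x k
      set S' := ((S.filter (fun t => fx t ≠ 0)).filter (fun t => fx t = x)).filter
        (fun t => μ t = k) with hS'
      have hmem : ∀ t ∈ S', t ∈ S ∧ fx t ≠ 0 ∧ fx t = x ∧ μ t = k := by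
        intro t ht
        rw [hS', Finset.mem_filter, Finset.mem_filter, Finset.mem_filter] at ht
        exact ⟨ht.1.1.1, ht.1.1.2, ht.1.2, ht.2⟩
      rcases S'.eq_empty_or_nonempty with he | ⟨t0, ht0⟩
      · rw [he, Finset.card_empty, Nat.cast_zero]
        positivity
      · obtain ⟨h2, h3, h4, h5⟩ := hmem t0 ht0
        have hk0 : k ≠ 0 := by
          rw [← h5]
          exact hμ0 t0 h2
        have hx0 : x ≠ 0 := by
          rw [← h4]
          exact h3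
        have hinj : Set.InjOn (fun t => (fy t, (q t : ℤ))) (S' : Set Tr) := by
          intro t ht t' ht' h
          obtain ⟨h6, -, h7, -⟩ := hmem t ht
          obtain ⟨h6', -, h7', -⟩ := hmem t' ht'
          obtain ⟨⟨hn, -⟩, -⟩ := hS t h6
          obtain ⟨⟨hn', -⟩, -⟩ := hS t' h6'
          refine pt_inj hn hn' ?_
          exact Prod.ext (h7.trans h7'.symm) (Prod.mk.inj h).1
        rw [← Finset.card_image_of_injOn hinj]
        refine jar (m := -432 * k) (n := x ^ 3) (mul_ne_zero (by norm_num) hk0)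
          (pow_ne_zero 3 hx0) hY1 _ ?_
        intro P hP
        obtain ⟨t, ht, rfl⟩ := Finset.mem_image.1 hP
        obtain ⟨h6, -, h7, h8⟩ := hmem t ht
        obtain ⟨-, -, hy, -⟩ := hS t h6
        refine ⟨hy, ?_, ?_⟩
        · have h9 := hqY t h6
          have h10 : (0 : ℝ) ≤ (q t : ℝ) := Nat.cast_nonneg _
          change |(((q t : ℕ) : ℤ) : ℝ)| ≤ Y
          rw [Int.cast_natCast, abs_of_nonneg h10]
          exact h9
        · have h9 := pt_id t
          rw [hμ t h6, h7, h8] at h9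
          change fy t ^ 2 - -432 * k * (q t : ℤ) ^ 2 = x ^ 3
          linarith
    have hmid : ∀ x : ℤ, (((S.filter (fun t => fx t ≠ 0)).filter
        (fun t => fx t = x)).card : ℝ) ≤ (2 * (X / D1 ^ 2) + 1) * (40 * Y ^ (2 / 3 : ℝ)) := by
      intro x
      refine (fib _ μ (((S.filter (fun t => fx t ≠ 0)).filter (fun t => fx t = x)).image μ)
        (fun t ht => Finset.mem_image_of_mem _ ht) _ (fun k _ => hin x k)).trans ?_
      refine mul_le_mul_of_nonneg_right ?_ (by positivity)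
      refine ivl0 _ _ (by positivity) ?_
      intro k hk
      obtain ⟨t, ht, rfl⟩ := Finset.mem_image.1 hk
      rw [Finset.mem_filter, Finset.mem_filter] at ht
      exact hμX t ht.1.1
    refine (fib _ fx ((S.filter (fun t => fx t ≠ 0)).image fx)
      (fun t ht => Finset.mem_image_of_mem _ ht) _ (fun x _ => hmid x)).trans ?_
    refine mul_le_mul_of_nonneg_right ?_ (by positivity)
    refine ivl0 _ _ hB ?_
    intro x hx
    obtain ⟨t, ht, rfl⟩ := Finset.mem_image.1 hx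
    rw [Finset.mem_filter] at ht
    exact (hS t ht.1).2.1
  -- the part with x = 0
  have h2 : ((S.filter (fun t => ¬ fx t ≠ 0)).card : ℝ) ≤ 2 * Y + 1 := by
    have hinj : Set.InjOn fy ((S.filter (fun t => ¬ fx t ≠ 0)) : Set Tr) := by
      intro t ht t' ht' h
      rw [Finset.mem_coe, Finset.mem_filter, not_not] at ht ht'
      obtain ⟨⟨hn, -⟩, -⟩ := hS t ht.1
      obtain ⟨⟨hn', -⟩, -⟩ := hS t' ht'.1
      exact pt_inj hn hn' (Prod.ext (ht.2.trans ht'.2.symm) h)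
    rw [← Finset.card_image_of_injOn hinj]
    refine ivl0 _ _ (by linarith) ?_
    intro y hy
    obtain ⟨t, ht, rfl⟩ := Finset.mem_image.1 hy
    rw [Finset.mem_filter] at ht
    exact (hS t ht.1).2.2.1
  have h3 := Finset.card_filter_add_card_filter_not (s := S) (fun t => fx t ≠ 0)
  have h4 : (S.card : ℝ) = ((S.filter (fun t => fx t ≠ 0)).card : ℝ) +
      ((S.filter (fun t => ¬ fx t ≠ 0)).card : ℝ) := by
    rw [← h3]
    push_cast
    rfl
  rw [h4]
  have h5 : (2 * B + 1) * ((2 * (X / D1 ^ 2) + 1) * (40 * Y ^ (2 / 3 : ℝ))) =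
      40 * (2 * B + 1) * (2 * X / D1 ^ 2 + 1) * Y ^ (2 / 3 : ℝ) := by
    rw [← mul_div_assoc]
    ring
  rw [h5] at h1
  linarith

end Pool.Agent.Work.MP_f2148a_nt.MC
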