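import Pool.Agent.Work.MP_f2148a_nt.MC.Tail1
import Pool.Agent.Work.MP_f2148a_nt.MC.Tail2
import Pool.Agent.Work.MP_f2148a_nt.MC.Giant
import Pool.Agent.Work.MP_f2148a_nt.DivisorBound

/-!
# MC/TailQ (size M): the triples with `q t > X^(12 κ)`

`θ = 5/6 - 36 κ` with `4/5 < θ < 5/6`, so `0 < κ < 1/1080`. Put `T = X^(6κ) ≥ 1`, `Y = T √(432 X) ≤ 21 X^(1/2 + 6κ)`,
`B = 10 X^(1/3 + 4κ)`, `D1 = X^(1/2 - 12κ)`. Split `S` in three parts.
(a) `|fy t| > Y`: at most `A (T^(-1/3) X^(5/6) + X^θ) ≤ 2 A X^(5/6 - 2κ)` by `giant`.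
In the other two parts `|y| ≤ Y`, `(x, y) = pt t`, and `|y² - x³| = 432 |D t| ≤ 432 X`, so
`|x|³ ≤ y² + 432 X ≤ 432 X (T² + 1) ≤ 864 X T²`, `|x| ≤ 10 X^(1/3) T^(2/3) = B` (`864 ≤ 1000`).
(b) `|y| ≤ Y` and `q t ≤ D1`: sum `tail1` over the squarefree natural numbers `d = q t` in `(X^(12κ), D1]`
(`q_dvd` with `d = q t`, `q_sqf`). `exists_card_divisors_le` with exponent `κ` gives `τ(d) ≤ A0 d^κ`, and `d ≤ X^(1/2)`,
so `τ(d)² ≤ A0² X^κ`. `∑_{d > Z} 1/d² ≤ 2/Z` for real `Z ≥ 1` and the number of `d` is at most `D1`. Total: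
`6 (B + 1) A0² X^κ (2 √X / X^(12κ) + D1) ≤ 6 · 11 · 3 A0² X^(1/3 + 4κ + κ + 1/2 - 12κ) = 198 A0² X^(5/6 - 7κ)`.
(c) `|y| ≤ Y` and `q t > D1`: `tail2` gives at most
`40 (21 X^(1/3 + 4κ)) (3 X^(24κ)) (21 X^(1/2 + 6κ))^(2/3) + 43 X^(1/2 + 6κ) ≤ C X^(2/3 + 32κ) + 43 X^(1/2 + 6κ)`, and
`2/3 + 32κ ≤ 5/6 - 2κ`, `1/2 + 6κ ≤ 5/6 - 2κ` as `κ < 1/1080`. (`X / D1² = X^(24κ) ≥ 1`, `√X ≤ Y`.)
-/

set_option autoImplicit false

namespace Pool.Agent.Work.MP_f2148a_nt.MC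

private theorem tqD {σ X : ℝ} (hσ : σ = 1 ∨ σ = -1) {t : Tr} (ht : t ∈ TT σ X) :
    D t ≠ 0 ∧ |(D t : ℝ)| ≤ X := by
  obtain ⟨-, h1, h2⟩ := ht
  constructor
  · intro h
    rw [h, Int.cast_zero, mul_zero] at h1
    exact lt_irrefl _ h1
  · rcases hσ with rfl | rfl
    · rw [one_mul] at h1 h2
      rwa [abs_of_pos h1]
    · rw [neg_one_mul] at h1 h2
      rwa [abs_of_neg (by linarith)]

private theorem tqx {X T B : ℝ} (hX : 1 ≤ X) (hT : 1 ≤ T) (hB0 : 0 ≤ B)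
    (hB : 864 * (X * T ^ 2) ≤ B ^ 3) {t : Tr} (hD : |(D t : ℝ)| ≤ X)
    (hy : |(fy t : ℝ)| ≤ T * √(432 * X)) : |(fx t : ℝ)| ≤ B := by
  have h0 : (0 : ℝ) ≤ 432 * X := by linarith
  have e : (fy t : ℝ) ^ 2 - (fx t : ℝ) ^ 3 = -432 * (D t : ℝ) := by exact_mod_cast pt_id t
  have hy2 : (fy t : ℝ) ^ 2 ≤ T ^ 2 * (432 * X) := by
    rw [← sq_abs]
    calc |(fy t : ℝ)| ^ 2 ≤ (T * √(432 * X)) ^ 2 := pow_le_pow_left₀ (abs_nonneg _) hy 2
      _ = T ^ 2 * (432 * X) := by rw [mul_pow, Real.sq_sqrt h0]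
  obtain ⟨d1, d2⟩ := abs_le.1 hD
  have hT2 : 1 ≤ T ^ 2 := one_le_pow₀ hT
  have hXT : X ≤ X * T ^ 2 := le_mul_of_one_le_right (by linarith) hT2
  have hx3 : |(fx t : ℝ)| ^ 3 ≤ B ^ 3 := by
    rw [← abs_pow]
    refine le_trans ?_ hB
    rw [abs_le]
    have := sq_nonneg (fy t : ℝ)
    constructor <;> nlinarith
  exact (pow_le_pow_iff_left₀ (abs_nonneg _) hB0 (by norm_num)).1 hx3

private theorem tqI {Z D1 : ℝ} (hZ : 1 ≤ Z) (hD1 : 0 ≤ D1) (I : Finset ℕ)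
    (hI : ∀ d ∈ I, Z < d ∧ (d : ℝ) ≤ D1) (x : ℝ) (hx : 0 ≤ x) :
    ∑ d ∈ I, (x / (d : ℝ) ^ 2 + 1) ≤ x * (2 / Z) + D1 := by
  rw [Finset.sum_add_distrib]
  have h1 : ∑ d ∈ I, x / (d : ℝ) ^ 2 ≤ x * (2 / Z) := by
    have hs : I ⊆ Finset.Ioo ⌊Z⌋₊ (⌊D1⌋₊ + 1) := by
      intro d hd
      obtain ⟨a, b⟩ := hI d hd
      rw [Finset.mem_Ioo]
      exact ⟨(Nat.floor_lt (by linarith)).2 a, Nat.lt_succ_of_le (Nat.le_floor b)⟩
    calc ∑ d ∈ I, x / (d : ℝ) ^ 2 = x * ∑ d ∈ I, ((d : ℝ) ^ 2)⁻¹ := by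
          rw [Finset.mul_sum]
          exact Finset.sum_congr rfl fun d _ => div_eq_mul_inv _ _
      _ ≤ x * ∑ d ∈ Finset.Ioo ⌊Z⌋₊ (⌊D1⌋₊ + 1), ((d : ℝ) ^ 2)⁻¹ := by
          refine mul_le_mul_of_nonneg_left ?_ hx
          exact Finset.sum_le_sum_of_subset_of_nonneg hs fun d _ _ => by positivity
      _ ≤ x * (2 / (⌊Z⌋₊ + 1)) := by
          refine mul_le_mul_of_nonneg_left ?_ hx
          exact sum_Ioo_inv_sq_le _ _
      _ ≤ x * (2 / Z) := by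
          refine mul_le_mul_of_nonneg_left ?_ hx
          exact div_le_div_of_nonneg_left (by norm_num) (by linarith) (Nat.lt_floor_add_one Z).le
  have h2 : ∑ _d ∈ I, (1 : ℝ) ≤ D1 := by
    rw [Finset.sum_const, nsmul_eq_mul, mul_one]
    have hs : I ⊆ Finset.Ioc 0 ⌊D1⌋₊ := by
      intro d hd
      obtain ⟨a, b⟩ := hI d hd
      rw [Finset.mem_Ioc]
      have : (0 : ℝ) < d := by linarith
      exact ⟨by exact_mod_cast this, Nat.le_floor b⟩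
    have := Finset.card_le_card hs
    rw [Nat.card_Ioc, Nat.sub_zero] at this
    calc (I.card : ℝ) ≤ (⌊D1⌋₊ : ℝ) := by exact_mod_cast this
      _ ≤ D1 := Nat.floor_le hD1
  linarith

theorem tailQ {θ κ : ℝ} (hA : As.Asy θ) (h1 : 4 / 5 < θ) (h2 : θ < 5 / 6) (hκ : θ = 5 / 6 - 36 * κ) :
    ∃ A : ℝ, 0 ≤ A ∧ ∀ σ : ℝ, (σ = 1 ∨ σ = -1) → ∀ X : ℝ, 1 ≤ X → ∀ S : Finset Tr,
    (∀ t ∈ S, t ∈ TT σ X ∧ X ^ (12 * κ) < (q t : ℝ)) → (S.card : ℝ) ≤ A * X ^ (5 / 6 - 2 * κ) := by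
  classical
  have k0 : 0 < κ := by linarith
  have k1 : κ < 1 / 1080 := by linarith
  obtain ⟨A, hA0, hG⟩ := giant hA h1 h2
  obtain ⟨A0, hA01, hdiv⟩ := exists_card_divisors_le κ k0
  refine ⟨2 * A + 198 * A0 ^ 2 + 52963, by positivity, ?_⟩
  intro σ hσ X hX S hS
  have hX0 : 0 < X := by linarith
  have hexp : ∀ {a b : ℝ}, a ≤ b → X ^ a ≤ X ^ b := fun h => Real.rpow_le_rpow_of_exponent_le hX h
  have hone : ∀ {a : ℝ}, 0 ≤ a → 1 ≤ X ^ a := fun h => Real.one_le_rpow hX h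
  obtain ⟨E, hE⟩ : ∃ E : ℝ, E = X ^ (5 / 6 - 2 * κ) := ⟨_, rfl⟩
  have hE0 : 0 ≤ E := by rw [hE]; exact Real.rpow_nonneg hX0.le _
  obtain ⟨T, hT⟩ : ∃ T : ℝ, T = X ^ (6 * κ) := ⟨_, rfl⟩
  have hT1 : 1 ≤ T := by rw [hT]; exact hone (by linarith)
  obtain ⟨Y, hY⟩ : ∃ Y : ℝ, Y = T * √(432 * X) := ⟨_, rfl⟩
  obtain ⟨B, hB⟩ : ∃ B : ℝ, B = 10 * X ^ (1 / 3 + 4 * κ) := ⟨_, rfl⟩
  obtain ⟨D1, hD1⟩ : ∃ D1 : ℝ, D1 = X ^ (1 / 2 - 12 * κ) := ⟨_, rfl⟩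
  have hB0 : 0 ≤ B := by rw [hB]; positivity
  have hD10 : 0 < D1 := by rw [hD1]; positivity
  have hB3 : 864 * (X * T ^ 2) ≤ B ^ 3 := by
    have e1 : X * T ^ 2 = X ^ (1 + 12 * κ) := by
      rw [hT, ← Real.rpow_natCast, ← Real.rpow_mul hX0.le, Real.rpow_add hX0, Real.rpow_one]
      congr 2
      push_cast
      ring
    have e2 : B ^ 3 = 1000 * X ^ (1 + 12 * κ) := by
      rw [hB, mul_pow, ← Real.rpow_natCast (X ^ (1 / 3 + 4 * κ)), ← Real.rpow_mul hX0.le]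
      norm_num
      ring_nf
    rw [e1, e2]
    have : 0 ≤ X ^ (1 + 12 * κ) := Real.rpow_nonneg hX0.le _
    linarith
  have hsq : √X = X ^ (1 / 2 : ℝ) := Real.sqrt_eq_rpow X
  have h432 : √(432 : ℝ) ≤ 21 := by
    rw [Real.sqrt_le_left (by norm_num)]
    norm_num
  have hYle : Y ≤ 21 * X ^ (1 / 2 + 6 * κ) := by
    rw [hY, Real.sqrt_mul (by norm_num), hT, hsq, Real.rpow_add hX0]
    have a1 : 0 ≤ X ^ (6 * κ) := Real.rpow_nonneg hX0.le _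
    have a2 : 0 ≤ X ^ (1 / 2 : ℝ) := Real.rpow_nonneg hX0.le _
    calc X ^ (6 * κ) * (√432 * X ^ (1 / 2 : ℝ)) = √432 * (X ^ (1 / 2 : ℝ) * X ^ (6 * κ)) := by ring
      _ ≤ 21 * (X ^ (1 / 2 : ℝ) * X ^ (6 * κ)) :=
        mul_le_mul_of_nonneg_right h432 (mul_nonneg a2 a1)
  have hXY : √X ≤ Y := by
    rw [hY]
    have b1 : √X ≤ √(432 * X) := Real.sqrt_le_sqrt (by linarith)
    exact b1.trans (le_mul_of_one_le_left (Real.sqrt_nonneg _) hT1)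
  have hYpos : 0 ≤ Y := (Real.sqrt_nonneg X).trans hXY
  -- part (a)
  have ha : ((S.filter fun t => Y < |(fy t : ℝ)|).card : ℝ) ≤ 2 * A * E := by
    have := hG σ hσ X T hX hT1 (S.filter fun t => Y < |(fy t : ℝ)|) (fun t ht => by
      obtain ⟨p1, p2⟩ := Finset.mem_filter.1 ht
      exact ⟨(hS t p1).1, by rw [← hY]; exact p2⟩)
    refine this.trans ?_
    have c1 : T ^ (-(1 / 3) : ℝ) * X ^ (5 / 6 : ℝ) = E := by
      rw [hT, hE, ← Real.rpow_mul hX0.le, ← Real.rpow_add hX0]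
      congr 1
      ring
    have c2 : X ^ θ ≤ E := by rw [hE, hκ]; exact hexp (by linarith)
    rw [c1]
    nlinarith
  -- parts (b), (c)
  have hxB : ∀ t ∈ S, ¬ Y < |(fy t : ℝ)| → |(fx t : ℝ)| ≤ B := by
    intro t ht hy
    exact tqx hX hT1 hB0 hB3 (tqD hσ (hS t ht).1).2 (by rw [← hY]; exact not_lt.1 hy)
  have hb : ((S.filter fun t => ¬ Y < |(fy t : ℝ)| ∧ (q t : ℝ) ≤ D1).card : ℝ) ≤
      198 * A0 ^ 2 * E := by
    obtain ⟨R, hR⟩ : ∃ R, R = S.filter fun t => ¬ Y < |(fy t : ℝ)| ∧ (q t : ℝ) ≤ D1 := ⟨_, rfl⟩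
    rw [← hR]
    have hRm : ∀ t ∈ R, t ∈ S ∧ ¬ Y < |(fy t : ℝ)| ∧ (q t : ℝ) ≤ D1 := by
      intro t ht
      rw [hR] at ht
      exact Finset.mem_filter.1 ht
    obtain ⟨Z, hZ⟩ : ∃ Z : ℝ, Z = X ^ (12 * κ) := ⟨_, rfl⟩
    have hZ1 : 1 ≤ Z := by rw [hZ]; exact hone (by linarith)
    have hcard : (R.card : ℝ) = ∑ d ∈ R.image q, ((R.filter fun t => q t = d).card : ℝ) := by
      exact_mod_cast Finset.card_eq_sum_card_image q R
    have hI : ∀ d ∈ R.image q, Z < d ∧ (d : ℝ) ≤ D1 := by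
      intro d hd
      obtain ⟨t, ht, rfl⟩ := Finset.mem_image.1 hd
      obtain ⟨t1, -, t3⟩ := hRm t ht
      exact ⟨by rw [hZ]; exact (hS t t1).2, t3⟩
    have hD1le : D1 ≤ X ^ (1 / 2 : ℝ) := by rw [hD1]; exact hexp (by linarith)
    have hterm : ∀ d ∈ R.image q, ((R.filter fun t => q t = d).card : ℝ) ≤
        (6 * (B + 1) * (A0 ^ 2 * X ^ κ)) * (√X / (d : ℝ) ^ 2 + 1) := by
      intro d hd
      obtain ⟨i1, i2⟩ := hI d hd
      obtain ⟨t, ht, rfl⟩ := Finset.mem_image.1 hd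
      obtain ⟨t1, -, -⟩ := hRm t ht
      obtain ⟨D0, -⟩ := tqD hσ (hS t t1).1
      have hsqf : Squarefree (q t) := q_sqf D0
      have hq1 : 1 ≤ q t := q_pos D0
      have hτ : ((Nat.divisors (q t)).card : ℝ) ^ 2 ≤ A0 ^ 2 * X ^ κ := by
        have d1 := hdiv (q t) hq1
        have d2 : (q t : ℝ) ^ κ ≤ X ^ (1 / 2 * κ) := by
          rw [Real.rpow_mul hX0.le]
          exact Real.rpow_le_rpow (Nat.cast_nonneg _) (i2.trans hD1le) k0.le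
        have d3 : ((Nat.divisors (q t)).card : ℝ) ≤ A0 * X ^ (1 / 2 * κ) :=
          d1.trans (mul_le_mul_of_nonneg_left d2 (by linarith))
        calc ((Nat.divisors (q t)).card : ℝ) ^ 2 ≤ (A0 * X ^ (1 / 2 * κ)) ^ 2 :=
              pow_le_pow_left₀ (Nat.cast_nonneg _) d3 2
          _ = A0 ^ 2 * X ^ κ := by
              rw [mul_pow, ← Real.rpow_natCast (X ^ (1 / 2 * κ)), ← Real.rpow_mul hX0.le]
              congr 2
              push_cast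
              ring
      have ht1 := tail1 hσ hX hB0 hsqf (R.filter fun s => q s = q t) (fun s hs => by
        obtain ⟨s1, s2⟩ := Finset.mem_filter.1 hs
        obtain ⟨s3, s4, -⟩ := hRm s s1
        obtain ⟨Ds, -⟩ := tqD hσ (hS s s3).1
        refine ⟨(hS s s3).1, hxB s s3 s4, ?_⟩
        rw [← s2]
        exact (q_dvd Ds (q_sqf Ds)).1 dvd_rfl)
      refine ht1.trans ?_
      have hnn : 0 ≤ √X / (q t : ℝ) ^ 2 + 1 := by positivity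
      refine mul_le_mul_of_nonneg_right ?_ hnn
      exact mul_le_mul_of_nonneg_left hτ (by positivity)
    rw [hcard]
    refine (Finset.sum_le_sum hterm).trans ?_
    rw [← Finset.mul_sum]
    have hsum := tqI hZ1 hD10.le (R.image q) hI (√X) (Real.sqrt_nonneg X)
    have hXκ : 0 ≤ X ^ κ := Real.rpow_nonneg hX0.le _
    have hc0 : 0 ≤ 6 * (B + 1) * (A0 ^ 2 * X ^ κ) := by positivity
    refine (mul_le_mul_of_nonneg_left hsum hc0).trans ?_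
    have g1 : √X * (2 / Z) + D1 = 3 * X ^ (1 / 2 - 12 * κ) := by
      have : √X * (2 / Z) = 2 * X ^ (1 / 2 - 12 * κ) := by
        rw [hsq, hZ, Real.rpow_sub hX0]
        ring
      rw [this, hD1]
      ring
    have g2 : B + 1 ≤ 11 * X ^ (1 / 3 + 4 * κ) := by
      have := hone (a := 1 / 3 + 4 * κ) (by linarith)
      rw [hB]
      linarith
    rw [g1]
    have g3 : 0 ≤ A0 ^ 2 * X ^ κ * (3 * X ^ (1 / 2 - 12 * κ)) := by positivity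
    calc 6 * (B + 1) * (A0 ^ 2 * X ^ κ) * (3 * X ^ (1 / 2 - 12 * κ))
        = 6 * (B + 1) * (A0 ^ 2 * X ^ κ * (3 * X ^ (1 / 2 - 12 * κ))) := by ring
      _ ≤ 6 * (11 * X ^ (1 / 3 + 4 * κ)) * (A0 ^ 2 * X ^ κ * (3 * X ^ (1 / 2 - 12 * κ))) := by
          refine mul_le_mul_of_nonneg_right ?_ g3
          linarith
      _ = 198 * A0 ^ 2 * (X ^ (1 / 3 + 4 * κ) * X ^ κ * X ^ (1 / 2 - 12 * κ)) := by ring
      _ ≤ 198 * A0 ^ 2 * E := by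
          refine mul_le_mul_of_nonneg_left ?_ (by positivity)
          rw [← Real.rpow_add hX0, ← Real.rpow_add hX0, hE]
          exact hexp (by linarith)
  have hc : ((S.filter fun t => ¬ Y < |(fy t : ℝ)| ∧ ¬ (q t : ℝ) ≤ D1).card : ℝ) ≤ 52963 * E := by
    have := tail2 hσ hX hB0 hXY hD10
      (S.filter fun t => ¬ Y < |(fy t : ℝ)| ∧ ¬ (q t : ℝ) ≤ D1) (fun t ht => by
      obtain ⟨p1, p2, p3⟩ := Finset.mem_filter.1 ht
      exact ⟨(hS t p1).1, hxB t p1 p2, not_lt.1 p2, not_le.1 p3⟩)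
    refine this.trans ?_
    have m1 : 2 * B + 1 ≤ 21 * X ^ (1 / 3 + 4 * κ) := by
      have := hone (a := 1 / 3 + 4 * κ) (by linarith)
      rw [hB]
      linarith
    have m2 : 2 * X / D1 ^ 2 + 1 ≤ 3 * X ^ (24 * κ) := by
      have e1 : X / D1 ^ 2 = X ^ (24 * κ) := by
        rw [hD1, ← Real.rpow_natCast, ← Real.rpow_mul hX0.le]
        nth_rewrite 1 [← Real.rpow_one X]
        rw [← Real.rpow_sub hX0]
        congr 1
        push_cast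
        ring
      have e2 := hone (a := 24 * κ) (by linarith)
      rw [mul_div_assoc, e1]
      linarith
    have m3 : Y ^ (2 / 3 : ℝ) ≤ 21 * X ^ (1 / 3 + 4 * κ) := by
      calc Y ^ (2 / 3 : ℝ) ≤ (21 * X ^ (1 / 2 + 6 * κ)) ^ (2 / 3 : ℝ) :=
            Real.rpow_le_rpow hYpos hYle (by norm_num)
        _ = 21 ^ (2 / 3 : ℝ) * X ^ (1 / 3 + 4 * κ) := by
            rw [Real.mul_rpow (by norm_num) (Real.rpow_nonneg hX0.le _), ← Real.rpow_mul hX0.le]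
            congr 2
            ring
        _ ≤ 21 * X ^ (1 / 3 + 4 * κ) := by
            refine mul_le_mul_of_nonneg_right ?_ (Real.rpow_nonneg hX0.le _)
            calc (21 : ℝ) ^ (2 / 3 : ℝ) ≤ 21 ^ (1 : ℝ) :=
                  Real.rpow_le_rpow_of_exponent_le (by norm_num) (by norm_num)
              _ = 21 := Real.rpow_one _
    have m4 : 2 * Y + 1 ≤ 43 * E := by
      have e1 := hone (a := 1 / 2 + 6 * κ) (by linarith)
      have e2 : X ^ (1 / 2 + 6 * κ) ≤ E := by rw [hE]; exact hexp (by linarith)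
      linarith
    have n1 : 0 ≤ X ^ (1 / 3 + 4 * κ) := Real.rpow_nonneg hX0.le _
    have n2 : 0 ≤ X ^ (24 * κ) := Real.rpow_nonneg hX0.le _
    have n3 : 0 ≤ 2 * X / D1 ^ 2 + 1 := by positivity
    have n4 : 0 ≤ Y ^ (2 / 3 : ℝ) := Real.rpow_nonneg hYpos _
    have m5 : 40 * (2 * B + 1) * (2 * X / D1 ^ 2 + 1) * Y ^ (2 / 3 : ℝ) ≤ 52920 * E := by
      calc 40 * (2 * B + 1) * (2 * X / D1 ^ 2 + 1) * Y ^ (2 / 3 : ℝ)
          ≤ 40 * (21 * X ^ (1 / 3 + 4 * κ)) * (3 * X ^ (24 * κ)) * (21 * X ^ (1 / 3 + 4 * κ)) := by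
            refine mul_le_mul (mul_le_mul (mul_le_mul_of_nonneg_left m1 (by norm_num)) m2 n3
              (by positivity)) m3 n4 (by positivity)
        _ = 52920 * (X ^ (1 / 3 + 4 * κ) * X ^ (24 * κ) * X ^ (1 / 3 + 4 * κ)) := by ring
        _ ≤ 52920 * E := by
            refine mul_le_mul_of_nonneg_left ?_ (by norm_num)
            rw [← Real.rpow_add hX0, ← Real.rpow_add hX0, hE]
            exact hexp (by linarith)
    linarith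
  have hsplit : S.card ≤ (S.filter fun t => Y < |(fy t : ℝ)|).card +
      ((S.filter fun t => ¬ Y < |(fy t : ℝ)| ∧ (q t : ℝ) ≤ D1).card +
      (S.filter fun t => ¬ Y < |(fy t : ℝ)| ∧ ¬ (q t : ℝ) ≤ D1).card) := by
    have hu : S ⊆ (S.filter fun t => Y < |(fy t : ℝ)|) ∪
        ((S.filter fun t => ¬ Y < |(fy t : ℝ)| ∧ (q t : ℝ) ≤ D1) ∪
        (S.filter fun t => ¬ Y < |(fy t : ℝ)| ∧ ¬ (q t : ℝ) ≤ D1)) := by
      intro t ht
      simp only [Finset.mem_union, Finset.mem_filter]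
      tauto
    exact ((Finset.card_le_card hu).trans (Finset.card_union_le _ _)).trans
      (Nat.add_le_add_left (Finset.card_union_le _ _) _)
  have hsplit' : (S.card : ℝ) ≤ ((S.filter fun t => Y < |(fy t : ℝ)|).card : ℝ) +
      (((S.filter fun t => ¬ Y < |(fy t : ℝ)| ∧ (q t : ℝ) ≤ D1).card : ℝ) +
      ((S.filter fun t => ¬ Y < |(fy t : ℝ)| ∧ ¬ (q t : ℝ) ≤ D1).card : ℝ)) := by
    exact_mod_cast hsplit
  rw [← hE]
  linarith

end Pool.Agent.Work.MP_f2148a_nt.MC
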