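import Pool.Agent.Work.MP_f2148a_nt.MC.Cop
import Pool.Agent.Work.MP_f2148a_nt.MC.Sieve
import Pool.Agent.Work.MP_f2148a_nt.MC.MobSum
import Pool.Agent.Work.MP_f2148a_nt.MC.TailQ

/-!
# MC/NMax (size M): the number of the maximal triples

`0 < κ < 1/1080`. `cop` with `d = 1` shows that `TT σ X` is finite (`1 ∣ q t`); let `S` be its finset. `D t ≠ 0` on `S`,
`q t ≥ 1` (`q_pos`) and `Mx t ↔ q t = 1` (`q_one`). Let `N = ⌊X^(12κ)⌋₊ ≥ 1`, `X^(12κ) / 2 ≤ N ≤ X^(12κ)`.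
`sieve` for `S`, `q`, `N`:
* error: the `t ∈ S` with `N < q t` have `X^(12κ) < q t` (`Nat.floor_lt'`...), at most `A X^(5/6 - 2κ)` of them (`tailQ`), and
  the number of divisors of `q t ≤ √X ≤ X` (`q_le`) is at most `A1 X^κ` (`exists_card_divisors_le` with exponent `κ`): total
  `A A1 X^(5/6 - κ)`.
* main term: for `d` squarefree `#{t ∈ S : d ∣ q t} = ar/(432 d²) (432X)^(5/6) + O(A d (432 X)^θ)` by `cop`; otherwise
  `μ(d) = 0`. The sum of the errors is at most `A N² (432 X)^θ ≤ A 432^θ X^(24κ + 5/6 - 36κ)`, and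
  `∑_{d ≤ N} μ(d)/d² = 6/π² + O(1/N)` (`mobSum`), with `1/N ≤ 2 X^(-12κ)`; `(432X)^(5/6) = 432^(5/6) X^(5/6)`.
All exponents are `≤ 5/6 - κ`.
-/

set_option autoImplicit false

namespace Pool.Agent.Work.MP_f2148a_nt.MC

private theorem nm_D {σ X : ℝ} {t : Tr} (ht : t ∈ TT σ X) : D t ≠ 0 := by
  intro h
  have := ht.2.1
  rw [h] at this
  simp at this

private theorem nm_absD {σ X : ℝ} (hσ : σ = 1 ∨ σ = -1) {t : Tr} (ht : t ∈ TT σ X) : |(D t : ℝ)| ≤ X := by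
  have h1 := ht.2.1
  have h2 := ht.2.2
  rcases hσ with rfl | rfl
  · rw [one_mul] at h1 h2
    rw [abs_of_pos h1]
    exact h2
  · have h3 : (D t : ℝ) < 0 := by linarith
    rw [abs_of_neg h3]
    linarith

private theorem nm_fix {θ κ : ℝ} (hA : As.Asy θ) (hQ : BM.AsyQ θ) (h1 : 4 / 5 < θ) (h2 : θ < 5 / 6)
    (hκ : θ = 5 / 6 - 36 * κ) (σ : ℝ) (hσ : σ = 1 ∨ σ = -1) :
    ∃ A : ℝ, 0 ≤ A ∧ ∀ X : ℝ, 1 ≤ X → (TT σ X).Finite ∧
    |(({t | t ∈ TT σ X ∧ Mx t}.ncard : ℕ) : ℝ) -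
      BM.ar (-σ) / 432 * (6 / Real.pi ^ 2) * (432 * X) ^ (5 / 6 : ℝ)| ≤ A * X ^ (5 / 6 - κ) := by
  classical
  have hκ0 : 0 < κ := by linarith
  obtain ⟨B, hB0, hB⟩ := tailQ hA h1 h2 hκ
  obtain ⟨A1, hA1, hdiv⟩ := exists_card_divisors_le κ hκ0
  obtain ⟨C, hC0, hC⟩ := cop hQ hσ
  refine ⟨B * A1 + C * 432 ^ θ + |BM.ar (-σ)| / 432 * 432 ^ (5 / 6 : ℝ) * 2, by positivity, ?_⟩
  intro X hX
  have hX0 : 0 < X := by linarith
  have hfin : (TT σ X).Finite := by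
    have h3 := (hC 1 X squarefree_one hX).1
    have h4 : {t | t ∈ TT σ X ∧ 1 ∣ q t} = TT σ X := by
      ext t
      simp
    rwa [h4] at h3
  refine ⟨hfin, ?_⟩
  set S : Finset Tr := hfin.toFinset with hS
  have hmS : ∀ t, t ∈ S ↔ t ∈ TT σ X := fun t => hfin.mem_toFinset
  set N : ℕ := ⌊X ^ (12 * κ)⌋₊ with hN
  have hXk : 1 ≤ X ^ (12 * κ) := Real.one_le_rpow hX (by positivity)
  have hN1 : 1 ≤ N := by
    rw [hN]
    exact Nat.le_floor (by exact_mod_cast hXk)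
  have hNle : (N : ℝ) ≤ X ^ (12 * κ) := Nat.floor_le (by positivity)
  have hN1' : (1 : ℝ) ≤ N := by exact_mod_cast hN1
  have hNge : X ^ (12 * κ) ≤ 2 * N := by
    have h3 := Nat.lt_floor_add_one (X ^ (12 * κ))
    rw [← hN] at h3
    linarith
  -- the counts
  have hcard1 : (({t | t ∈ TT σ X ∧ Mx t}.ncard : ℕ) : ℝ) = ((S.filter fun s => q s = 1).card : ℝ) := by
    have h3 : {t | t ∈ TT σ X ∧ Mx t} = ((S.filter fun s => q s = 1 : Finset Tr) : Set Tr) := by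
      ext t
      simp only [Set.mem_ofPred_eq, Finset.coe_filter, hmS]
      constructor
      · rintro ⟨h4, h5⟩
        exact ⟨h4, (q_one (nm_D h4)).2 h5⟩
      · rintro ⟨h4, h5⟩
        exact ⟨h4, (q_one (nm_D h4)).1 h5⟩
    rw [h3, Set.ncard_coe_finset]
  have hcardd : ∀ d : ℕ, (({t | t ∈ TT σ X ∧ d ∣ q t}.ncard : ℕ) : ℝ) = ((S.filter fun s => d ∣ q s).card : ℝ) := by
    intro d
    have h3 : {t | t ∈ TT σ X ∧ d ∣ q t} = ((S.filter fun s => d ∣ q s : Finset Tr) : Set Tr) := by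
      ext t
      simp only [Set.mem_ofPred_eq, Finset.coe_filter, hmS]
    rw [h3, Set.ncard_coe_finset]
  -- the sieve
  have hsv := sieve S q (fun s hs => q_pos (nm_D ((hmS s).1 hs))) N
  -- the error of the sieve
  have hE1 : ∑ s ∈ S.filter (fun s => N < q s), ((Nat.divisors (q s)).card : ℝ) ≤ B * A1 * X ^ (5 / 6 - κ) := by
    have h3 : ∀ s ∈ S.filter (fun s => N < q s), ((Nat.divisors (q s)).card : ℝ) ≤ A1 * X ^ κ := by
      intro s hs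
      rw [Finset.mem_filter, hmS] at hs
      have h4 : 1 ≤ q s := q_pos (nm_D hs.1)
      refine (hdiv (q s) h4).trans ?_
      have h5 : ((q s : ℝ)) ≤ X := by
        have h6 := (q_le (nm_D hs.1)).trans (nm_absD hσ hs.1)
        have h7 : (1 : ℝ) ≤ q s := by exact_mod_cast h4
        nlinarith
      have h8 : ((q s : ℝ)) ^ κ ≤ X ^ κ := Real.rpow_le_rpow (Nat.cast_nonneg _) h5 hκ0.le
      exact mul_le_mul_of_nonneg_left h8 (by linarith)
    have h9 : ((S.filter (fun s => N < q s)).card : ℝ) ≤ B * X ^ (5 / 6 - 2 * κ) := by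
      refine hB σ hσ X hX _ ?_
      intro t ht
      rw [Finset.mem_filter, hmS] at ht
      exact ⟨ht.1, Nat.lt_of_floor_lt ht.2⟩
    calc ∑ s ∈ S.filter (fun s => N < q s), ((Nat.divisors (q s)).card : ℝ)
        ≤ ∑ _s ∈ S.filter (fun s => N < q s), A1 * X ^ κ := Finset.sum_le_sum h3
      _ = ((S.filter (fun s => N < q s)).card : ℝ) * (A1 * X ^ κ) := by rw [Finset.sum_const, nsmul_eq_mul]
      _ ≤ B * X ^ (5 / 6 - 2 * κ) * (A1 * X ^ κ) := mul_le_mul_of_nonneg_right h9 (by positivity)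
      _ = B * A1 * X ^ (5 / 6 - κ) := by
        have h10 : X ^ (5 / 6 - κ) = X ^ (5 / 6 - 2 * κ) * X ^ κ := by
          rw [← Real.rpow_add hX0]
          congr 1
          ring
        rw [h10]
        ring
  -- the main terms
  set M : ℝ := (432 * X) ^ (5 / 6 : ℝ) with hM
  have hM0 : 0 ≤ M := by positivity
  have hE2 : |∑ d ∈ Finset.Icc 1 N, (ArithmeticFunction.moebius d : ℝ) * ((S.filter fun s => d ∣ q s).card : ℝ) -
      ∑ d ∈ Finset.Icc 1 N, (ArithmeticFunction.moebius d : ℝ) * (BM.ar (-σ) / (432 * (d : ℝ) ^ 2) * M)| ≤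
      C * 432 ^ θ * X ^ (5 / 6 - κ) := by
    rw [← Finset.sum_sub_distrib]
    have h3 : ∀ d ∈ Finset.Icc 1 N, |(ArithmeticFunction.moebius d : ℝ) * ((S.filter fun s => d ∣ q s).card : ℝ) -
        (ArithmeticFunction.moebius d : ℝ) * (BM.ar (-σ) / (432 * (d : ℝ) ^ 2) * M)| ≤
        C * (432 * X) ^ θ * N := by
      intro d hd
      rw [Finset.mem_Icc] at hd
      rw [← mul_sub, abs_mul]
      by_cases hsq : Squarefree d
      · have h4 := (hC d X hsq hX).2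
        rw [hcardd, ← hM] at h4
        have h5 : |(ArithmeticFunction.moebius d : ℝ)| ≤ 1 := by
          exact_mod_cast ArithmeticFunction.abs_moebius_le_one (n := d)
        have h6 : (d : ℝ) ≤ N := by exact_mod_cast hd.2
        calc |(ArithmeticFunction.moebius d : ℝ)| * |((S.filter fun s => d ∣ q s).card : ℝ) -
              BM.ar (-σ) / (432 * (d : ℝ) ^ 2) * M| ≤ 1 * (C * d * (432 * X) ^ θ) :=
              mul_le_mul h5 h4 (abs_nonneg _) zero_le_one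
          _ = C * (432 * X) ^ θ * d := by ring
          _ ≤ C * (432 * X) ^ θ * N := mul_le_mul_of_nonneg_left h6 (by positivity)
      · rw [ArithmeticFunction.moebius_eq_zero_of_not_squarefree hsq]
        simp only [Int.cast_zero, abs_zero, zero_mul]
        positivity
    refine (Finset.abs_sum_le_sum_abs _ _).trans ((Finset.sum_le_sum h3).trans ?_)
    rw [Finset.sum_const, Nat.card_Icc, nsmul_eq_mul, Nat.add_sub_cancel]
    have h4 : (432 * X) ^ θ = 432 ^ θ * X ^ θ := Real.mul_rpow (by norm_num) hX0.le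
    have h5 : (N : ℝ) * N ≤ X ^ (12 * κ) * X ^ (12 * κ) := mul_le_mul hNle hNle (by positivity) (by positivity)
    have h6 : X ^ (12 * κ) * X ^ (12 * κ) * X ^ θ ≤ X ^ (5 / 6 - κ) := by
      rw [← Real.rpow_add hX0, ← Real.rpow_add hX0]
      exact Real.rpow_le_rpow_of_exponent_le hX (by rw [hκ]; linarith)
    calc (N : ℝ) * (C * (432 * X) ^ θ * N) = C * 432 ^ θ * (N * N * X ^ θ) := by rw [h4]; ring
      _ ≤ C * 432 ^ θ * (X ^ (12 * κ) * X ^ (12 * κ) * X ^ θ) :=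
        mul_le_mul_of_nonneg_left (mul_le_mul_of_nonneg_right h5 (by positivity)) (by positivity)
      _ ≤ C * 432 ^ θ * X ^ (5 / 6 - κ) := mul_le_mul_of_nonneg_left h6 (by positivity)
  have hE3 : |∑ d ∈ Finset.Icc 1 N, (ArithmeticFunction.moebius d : ℝ) * (BM.ar (-σ) / (432 * (d : ℝ) ^ 2) * M) -
      BM.ar (-σ) / 432 * (6 / Real.pi ^ 2) * M| ≤
      |BM.ar (-σ)| / 432 * 432 ^ (5 / 6 : ℝ) * 2 * X ^ (5 / 6 - κ) := by
    have h3 : ∑ d ∈ Finset.Icc 1 N, (ArithmeticFunction.moebius d : ℝ) * (BM.ar (-σ) / (432 * (d : ℝ) ^ 2) * M) =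
        BM.ar (-σ) / 432 * M * ∑ d ∈ Finset.Icc 1 N, (ArithmeticFunction.moebius d : ℝ) / (d : ℝ) ^ 2 := by
      rw [Finset.mul_sum]
      refine Finset.sum_congr rfl fun d hd => ?_
      have h4 : (d : ℝ) ≠ 0 := by
        rw [Finset.mem_Icc] at hd
        have : 0 < d := hd.1
        positivity
      field_simp
    have h4 : BM.ar (-σ) / 432 * M * ∑ d ∈ Finset.Icc 1 N, (ArithmeticFunction.moebius d : ℝ) / (d : ℝ) ^ 2 -
        BM.ar (-σ) / 432 * (6 / Real.pi ^ 2) * M = BM.ar (-σ) / 432 * M *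
        (∑ d ∈ Finset.Icc 1 N, (ArithmeticFunction.moebius d : ℝ) / (d : ℝ) ^ 2 - 6 / Real.pi ^ 2) := by ring
    rw [h3, h4, abs_mul, abs_mul, abs_div, abs_of_nonneg hM0, abs_of_pos (by norm_num : (0 : ℝ) < 432)]
    have h5 := mobSum hN1
    have h6 : 1 / (N : ℝ) ≤ 2 * X ^ (-(12 * κ)) := by
      rw [Real.rpow_neg hX0.le, ← div_eq_mul_inv, div_le_div_iff₀ (by linarith) (by positivity)]
      linarith
    have h7 : M = 432 ^ (5 / 6 : ℝ) * X ^ (5 / 6 : ℝ) := Real.mul_rpow (by norm_num) hX0.le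
    have h8 : X ^ (5 / 6 : ℝ) * X ^ (-(12 * κ)) ≤ X ^ (5 / 6 - κ) := by
      rw [← Real.rpow_add hX0]
      exact Real.rpow_le_rpow_of_exponent_le hX (by linarith)
    calc |BM.ar (-σ)| / 432 * M *
          |∑ d ∈ Finset.Icc 1 N, (ArithmeticFunction.moebius d : ℝ) / (d : ℝ) ^ 2 - 6 / Real.pi ^ 2|
        ≤ |BM.ar (-σ)| / 432 * M * (2 * X ^ (-(12 * κ))) :=
          mul_le_mul_of_nonneg_left (h5.trans h6) (by positivity)
      _ = |BM.ar (-σ)| / 432 * 432 ^ (5 / 6 : ℝ) * 2 * (X ^ (5 / 6 : ℝ) * X ^ (-(12 * κ))) := by rw [h7]; ring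
      _ ≤ |BM.ar (-σ)| / 432 * 432 ^ (5 / 6 : ℝ) * 2 * X ^ (5 / 6 - κ) :=
          mul_le_mul_of_nonneg_left h8 (by positivity)
  rw [hcard1]
  have e := abs_add_three (((S.filter fun s => q s = 1).card : ℝ) -
      ∑ d ∈ Finset.Icc 1 N, (ArithmeticFunction.moebius d : ℝ) * ((S.filter fun s => d ∣ q s).card : ℝ))
    (∑ d ∈ Finset.Icc 1 N, (ArithmeticFunction.moebius d : ℝ) * ((S.filter fun s => d ∣ q s).card : ℝ) -
      ∑ d ∈ Finset.Icc 1 N, (ArithmeticFunction.moebius d : ℝ) * (BM.ar (-σ) / (432 * (d : ℝ) ^ 2) * M))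
    (∑ d ∈ Finset.Icc 1 N, (ArithmeticFunction.moebius d : ℝ) * (BM.ar (-σ) / (432 * (d : ℝ) ^ 2) * M) -
      BM.ar (-σ) / 432 * (6 / Real.pi ^ 2) * M)
  have e2 : ∀ a b c d : ℝ, a - b + (b - c) + (c - d) = a - d := fun a b c d => by ring
  rw [e2] at e
  have e3 : (B * A1 + C * 432 ^ θ + |BM.ar (-σ)| / 432 * 432 ^ (5 / 6 : ℝ) * 2) * X ^ (5 / 6 - κ) =
      B * A1 * X ^ (5 / 6 - κ) + C * 432 ^ θ * X ^ (5 / 6 - κ) +
        |BM.ar (-σ)| / 432 * 432 ^ (5 / 6 : ℝ) * 2 * X ^ (5 / 6 - κ) := by ring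
  rw [e3]
  exact e.trans (add_le_add (add_le_add (hsv.trans hE1) hE2) hE3)

theorem nMax {θ κ : ℝ} (hA : As.Asy θ) (hQ : BM.AsyQ θ) (h1 : 4 / 5 < θ) (h2 : θ < 5 / 6)
    (hκ : θ = 5 / 6 - 36 * κ) :
    ∃ A : ℝ, 0 ≤ A ∧ ∀ σ : ℝ, (σ = 1 ∨ σ = -1) → ∀ X : ℝ, 1 ≤ X → (TT σ X).Finite ∧
    |(({t | t ∈ TT σ X ∧ Mx t}.ncard : ℕ) : ℝ) -
      BM.ar (-σ) / 432 * (6 / Real.pi ^ 2) * (432 * X) ^ (5 / 6 : ℝ)| ≤ A * X ^ (5 / 6 - κ) := by
  obtain ⟨A, hA0, hA'⟩ := nm_fix hA hQ h1 h2 hκ 1 (Or.inl rfl)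
  obtain ⟨B, hB0, hB'⟩ := nm_fix hA hQ h1 h2 hκ (-1) (Or.inr rfl)
  refine ⟨A + B, by positivity, ?_⟩
  intro σ hσ X hX
  have hX0 : 0 < X := by linarith
  have hp : 0 ≤ X ^ (5 / 6 - κ) := by positivity
  rcases hσ with rfl | rfl
  · obtain ⟨h3, h4⟩ := hA' X hX
    refine ⟨h3, h4.trans ?_⟩
    exact mul_le_mul_of_nonneg_right (by linarith) hp
  · obtain ⟨h3, h4⟩ := hB' X hX
    refine ⟨h3, h4.trans ?_⟩
    exact mul_le_mul_of_nonneg_right (by linarith) hp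

end Pool.Agent.Work.MP_f2148a_nt.MC
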