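import Pool.Agent.Work.MP_f2148a_nt.MC.Alg

/-!
# MC/Rad (size M): the radical `q t`

`q t` is a product of distinct primes (`D t ≠ 0`), so it is positive and squarefree
(`Finset.squarefree_prod_of_pairwise_isCoprime` or `Nat.squarefree_iff...`; distinct primes are coprime).
* `q_prime`: a prime `p` divides the product iff it is one of the factors (`Prime.dvd_finsetProd_iff`,
  `Nat.prime_dvd_prime_iff_eq`); a prime `p` with `Bad p t` divides `D t` by `dvd_D`.
* `q_one`: `q t = 1` iff no prime divides it.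
* `q_dvd`: `→`: each prime `p ∣ d` has `Bad p t`, with `r_p`; take `r ≡ r_p (mod p)` for all `p ∣ d` by the Chinese remainder
  theorem; by `v_mod` (applied to `p`, `r_p`, `r`) `p ∣ v1 t r` and `p² ∣ v0 t r` for all `p ∣ d`; `d` is squarefree, so
  `d = ∏ p`, and the `p` (resp. the `p²`) are pairwise coprime, so `d ∣ v1 t r`, `d² ∣ v0 t r`
  (alternative: induction on the set of primes / `Nat.recOnPosPrimePosCoprime`: for coprime `d1`, `d2` with solutions
  `r1`, `r2` take `r ≡ r1 (mod d1)`, `r ≡ r2 (mod d2)`).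
  `←`: a prime `p ∣ d` has `Bad p t` (same `r`), so `p ∣ q t`; `d` is squarefree so `d ∣ q t`
  (`Squarefree.dvd_of_squarefree_of_mul_dvd_mul_right`, `UniqueFactorizationMonoid.dvd_of_squarefree...` or
  `Nat.prod_primeFactors_of_squarefree`).
* `q_uniq`: every prime `p ∣ d` divides `r - s` by `uniq_r`, and `d` is squarefree.
* `q_sq_dvd`: `q_dvd` with `d = q t`, then `dvd_D`. `q_le`: `(q t)² ≤ |D t|`.
-/

set_option autoImplicit false

namespace Pool.Agent.Work.MP_f2148a_nt.MC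

open Classical in
private theorem q_def (t : Tr) : q t = ∏ p ∈ (D t).natAbs.primeFactors.filter (fun p => Bad p t), p := by
  unfold q
  rfl

theorem q_pos {t : Tr} (h : D t ≠ 0) : 0 < q t := by
  classical
  rw [q_def]
  refine Finset.prod_pos fun p hp => ?_
  rw [Finset.mem_filter] at hp
  exact (Nat.prime_of_mem_primeFactors hp.1).pos

theorem q_sqf {t : Tr} (h : D t ≠ 0) : Squarefree (q t) := by
  classical
  rw [q_def]
  refine Finset.squarefree_prod_of_pairwise_isCoprime ?_ ?_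
  · intro p hp p' hp' hne
    rw [Finset.mem_coe, Finset.mem_filter] at hp hp'
    change IsRelPrime p p'
    rw [← Nat.coprime_iff_isRelPrime]
    exact (Nat.coprime_primes (Nat.prime_of_mem_primeFactors hp.1) (Nat.prime_of_mem_primeFactors hp'.1)).2 hne
  · intro p hp
    rw [Finset.mem_filter] at hp
    exact (Nat.prime_of_mem_primeFactors hp.1).squarefree

theorem q_prime {t : Tr} (h : D t ≠ 0) {p : ℕ} (hp : p.Prime) : p ∣ q t ↔ Bad p t := by
  classical
  rw [q_def]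
  constructor
  · intro h1
    rw [Prime.dvd_finsetProd_iff hp.prime] at h1
    obtain ⟨r, hr, h2⟩ := h1
    rw [Finset.mem_filter] at hr
    have h3 : p = r := (Nat.prime_dvd_prime_iff_eq hp (Nat.prime_of_mem_primeFactors hr.1)).1 h2
    rw [h3]
    exact hr.2
  · intro h1
    refine Finset.dvd_prod_of_mem (fun p => p) ?_
    rw [Finset.mem_filter]
    refine ⟨?_, h1⟩
    obtain ⟨r, h2, h3⟩ := h1
    rw [Nat.mem_primeFactors]
    refine ⟨hp, ?_, ?_⟩
    · have h4 : (p : ℤ) ∣ D t := (dvd_pow_self (p : ℤ) two_ne_zero).trans (dvd_D h2 h3)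
      exact Int.natCast_dvd.1 h4
    · exact Int.natAbs_ne_zero.2 h

theorem q_one {t : Tr} (h : D t ≠ 0) : q t = 1 ↔ Mx t := by
  constructor
  · intro h1 p hp hb
    rw [← q_prime h hp, h1] at hb
    exact hp.one_lt.ne' (Nat.dvd_one.1 hb)
  · intro hM
    by_contra h1
    obtain ⟨p, hp, hd⟩ := Nat.exists_prime_and_dvd h1
    exact hM p hp ((q_prime h hp).1 hd)

/-- from the primes to `d` -/
private theorem sqf_dvd {d : ℕ} (hd : Squarefree d) {z : ℤ} (h : ∀ p : ℕ, p.Prime → p ∣ d → (p : ℤ) ∣ z) :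
    (d : ℤ) ∣ z := by
  rw [Int.natCast_dvd]
  rw [← Nat.prod_primeFactors_of_squarefree hd]
  refine Finset.prod_primes_dvd _ (fun p hp => (Nat.prime_of_mem_primeFactors hp).prime) fun p hp => ?_
  exact Int.natCast_dvd.1 (h p (Nat.prime_of_mem_primeFactors hp) (Nat.dvd_of_mem_primeFactors hp))

private theorem crt {t : Tr} {d : ℕ} (hd : Squarefree d) (h : ∀ p : ℕ, p.Prime → p ∣ d → Bad p t) :
    ∃ r : ℤ, (d : ℤ) ∣ v1 t r ∧ (d : ℤ) ^ 2 ∣ v0 t r := by
  induction d using Nat.recOnMul with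
  | zero => exact absurd hd not_squarefree_zero
  | one => exact ⟨0, by simp, by simp⟩
  | prime p hp => exact h p hp dvd_rfl
  | mul m n hm hn =>
    have hc : Nat.Coprime m n := (Nat.squarefree_mul_iff.1 hd).1
    obtain ⟨r, h1, h2⟩ := hm (Nat.squarefree_mul_iff.1 hd).2.1 fun p hp hpm => h p hp (hpm.mul_right n)
    obtain ⟨s, h3, h4⟩ := hn (Nat.squarefree_mul_iff.1 hd).2.2 fun p hp hpn => h p hp (hpn.mul_left m)
    have hc' : IsCoprime (m : ℤ) (n : ℤ) := Nat.isCoprime_iff_coprime.2 hc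
    obtain ⟨u, w, huw⟩ := id hc'
    -- `z ≡ r (mod m)`, `z ≡ s (mod n)`
    set z : ℤ := u * m * s + w * n * r with hz
    have e1 : (m : ℤ) ∣ r - z := ⟨u * (r - s), by
      rw [hz]; linear_combination (-r : ℤ) * huw⟩
    have e2 : (n : ℤ) ∣ s - z := ⟨w * (s - r), by
      rw [hz]; linear_combination (-s : ℤ) * huw⟩
    obtain ⟨a1, a0⟩ := v_mod h1 h2 e1
    obtain ⟨b1, b0⟩ := v_mod h3 h4 e2
    refine ⟨z, ?_, ?_⟩
    · push_cast
      exact hc'.mul_dvd a1 b1
    · push_cast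
      rw [mul_pow]
      exact (hc'.pow (m := 2) (n := 2)).mul_dvd a0 b0

theorem q_dvd {t : Tr} (h : D t ≠ 0) {d : ℕ} (hd : Squarefree d) :
    d ∣ q t ↔ ∃ r : ℤ, (d : ℤ) ∣ v1 t r ∧ (d : ℤ) ^ 2 ∣ v0 t r := by
  constructor
  · intro h1
    exact crt hd fun p hp hpd => (q_prime h hp).1 (hpd.trans h1)
  · rintro ⟨r, h1, h2⟩
    have key : ((d : ℕ) : ℤ) ∣ ((q t : ℕ) : ℤ) := sqf_dvd hd fun p hp hpd => by
      have hpd' : (p : ℤ) ∣ (d : ℤ) := by exact_mod_cast hpd
      have : Bad p t := ⟨r, hpd'.trans h1, (pow_dvd_pow_of_dvd hpd' 2).trans h2⟩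
      exact_mod_cast (q_prime h hp).2 this
    exact_mod_cast key

theorem q_uniq {t : Tr} {d : ℕ} (hd : Squarefree d) {r s : ℤ} (h1 : (d : ℤ) ∣ v1 t r)
    (h0 : (d : ℤ) ^ 2 ∣ v0 t r) (h1' : (d : ℤ) ∣ v1 t s) (h0' : (d : ℤ) ^ 2 ∣ v0 t s) : (d : ℤ) ∣ r - s := by
  refine sqf_dvd hd fun p hp hpd => ?_
  have hpd' : (p : ℤ) ∣ (d : ℤ) := by exact_mod_cast hpd
  have h2 : (p : ℤ) ∣ (d : ℤ) ^ 2 := hpd'.trans (dvd_pow_self _ two_ne_zero)
  exact uniq_r hp (hpd'.trans h1) (h2.trans h0) (hpd'.trans h1') (h2.trans h0')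

theorem q_sq_dvd {t : Tr} (h : D t ≠ 0) : (q t : ℤ) ^ 2 ∣ D t := by
  obtain ⟨r, h1, h0⟩ := (q_dvd h (q_sqf h)).1 dvd_rfl
  exact dvd_D h1 h0

theorem q_le {t : Tr} (h : D t ≠ 0) : ((q t : ℝ)) ^ 2 ≤ |(D t : ℝ)| := by
  have h1 := Int.le_of_dvd (abs_pos.2 h) ((dvd_abs _ _).2 (q_sq_dvd h))
  exact_mod_cast h1

end Pool.Agent.Work.MP_f2148a_nt.MC
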