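import Pool.Agent.Work.MP_f2148a_nt.MC.Defs

/-!
# MC/RootCt (size M): roots of `f'` modulo a squarefree number

Let `N(d)` be the number of `r ∈ [0, d)` with `d ∣ v1 t r = 3r² + 2ar + b`. For `d = p m` squarefree (`p` prime, `p ∤ m`)
the map `r ↦ (r % p, r % m)` is injective on these `r` (Chinese remainder theorem), so `N(d) ≤ N(p) N(m)`. For a prime
`p` we have `N(p) ≤ 3`: trivially `N(p) ≤ p ≤ 3` for `p ≤ 3`, and for `p ≥ 5` the polynomial `3r² + 2ar + b` is not zero
modulo `p` (leading coefficient 3), of degree 2, so it has at most 2 roots in `ZMod p` (`Polynomial.card_roots'`, or by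
hand: if `r, s, u` are three roots then `(r - s)(3(r + s) + 2a) = 0`, `(r - u)(3(r + u) + 2a) = 0`, so `3 (s - u) = 0`).
Hence by induction on the number of prime factors (`Nat.recOnPosPrimePosCoprime`, `induction_on_primes`, or
`Finset.induction` over `d.primeFactors` with `d = ∏ p`) `N(d) ≤ 3 ^ ω(d) ≤ 4 ^ ω(d) = (number of divisors of d) ^ 2`;
`Nat.Coprime.card_divisors_mul`, `Nat.Prime.divisors`. `N(1) = 1`.
-/

set_option autoImplicit false

namespace Pool.Agent.Work.MP_f2148a_nt.MC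

private theorem v1_sub (t : Tr) (r s : ℤ) :
    v1 t r - v1 t s = (r - s) * (3 * (r + s) + 2 * t.1) := by
  simp only [v1]
  ring

private theorem v1_dvd (t : Tr) {d r s : ℤ} (h : d ∣ r - s) (hr : d ∣ v1 t r) : d ∣ v1 t s := by
  have h1 : d ∣ v1 t r - v1 t s := by
    rw [v1_sub]
    exact Dvd.dvd.mul_right h _
  have h2 := dvd_sub hr h1
  rwa [sub_sub_cancel] at h2

private theorem mod_dvd (r a : ℕ) : (a : ℤ) ∣ (r : ℤ) - ((r % a : ℕ) : ℤ) := by
  refine ⟨((r / a : ℕ) : ℤ), ?_⟩
  have h := Nat.div_add_mod r a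
  have h2 : ((a * (r / a) + r % a : ℕ) : ℤ) = r := by rw [h]
  push_cast at h2 ⊢
  linarith

private theorem ct_mul (t : Tr) {a b : ℕ} (ha : 0 < a) (hb : 0 < b) (hab : Nat.Coprime a b) :
    ((Finset.range (a * b)).filter fun r : ℕ => ((a * b : ℕ) : ℤ) ∣ v1 t (r : ℤ)).card ≤
      ((Finset.range a).filter fun r : ℕ => (a : ℤ) ∣ v1 t (r : ℤ)).card *
        ((Finset.range b).filter fun r : ℕ => (b : ℤ) ∣ v1 t (r : ℤ)).card := by
  rw [← Finset.card_product]
  refine Finset.card_le_card_of_injOn (fun r => (r % a, r % b)) ?_ ?_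
  · intro r hr
    rw [Finset.mem_coe, Finset.mem_filter] at hr
    rw [Finset.mem_coe, Finset.mem_product, Finset.mem_filter, Finset.mem_filter]
    have h1 : ((a * b : ℕ) : ℤ) ∣ v1 t (r : ℤ) := hr.2
    push_cast at h1
    refine ⟨⟨Finset.mem_range.2 (Nat.mod_lt _ ha), ?_⟩, Finset.mem_range.2 (Nat.mod_lt _ hb), ?_⟩
    · exact v1_dvd t (mod_dvd r a) ((Dvd.intro _ rfl).trans h1)
    · exact v1_dvd t (mod_dvd r b) ((Dvd.intro_left _ rfl).trans h1)
  · intro r hr r' hr' h
    rw [Finset.mem_coe, Finset.mem_filter] at hr hr'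
    have h1 : r % a = r' % a := (Prod.mk.inj h).1
    have h2 : r % b = r' % b := (Prod.mk.inj h).2
    have h3 : r ≡ r' [MOD a * b] := (Nat.modEq_and_modEq_iff_modEq_mul hab).1 ⟨h1, h2⟩
    exact Nat.ModEq.eq_of_lt_of_lt h3 (Finset.mem_range.1 hr.1) (Finset.mem_range.1 hr'.1)

private theorem ct_prime (t : Tr) {p : ℕ} (hp : p.Prime) :
    ((Finset.range p).filter fun r : ℕ => (p : ℤ) ∣ v1 t (r : ℤ)).card ≤ 4 := by
  rcases Nat.lt_or_ge p 5 with h5 | h5
  · refine (Finset.card_filter_le _ _).trans ?_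
    rw [Finset.card_range]
    omega
  · by_contra hcon
    have h2 : 2 < ((Finset.range p).filter fun r : ℕ => (p : ℤ) ∣ v1 t (r : ℤ)).card := by omega
    obtain ⟨r, hr, s, hs, u, hu, hrs, hru, hsu⟩ := Finset.two_lt_card.1 h2
    rw [Finset.mem_filter, Finset.mem_range] at hr hs hu
    have hp' : Prime (p : ℤ) := Nat.prime_iff_prime_int.1 hp
    have hlt : ∀ a b : ℕ, a < p → b < p → a ≠ b → ¬ (p : ℤ) ∣ (a : ℤ) - b := by
      intro a b ha hb hab h
      have h1 := Int.eq_zero_of_abs_lt_dvd h (by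
        rw [abs_lt]
        constructor <;> omega)
      omega
    have key : ∀ a b : ℕ, a < p → b < p → a ≠ b → (p : ℤ) ∣ v1 t a → (p : ℤ) ∣ v1 t b →
        (p : ℤ) ∣ 3 * ((a : ℤ) + b) + 2 * t.1 := by
      intro a b ha hb hab h1 h2
      have h3 : (p : ℤ) ∣ ((a : ℤ) - b) * (3 * ((a : ℤ) + b) + 2 * t.1) := by
        rw [← v1_sub]
        exact dvd_sub h1 h2
      rcases hp'.dvd_or_dvd h3 with h4 | h4
      · exact absurd h4 (hlt a b ha hb hab)
      · exact h4
    have h3 := key r s hr.1 hs.1 hrs hr.2 hs.2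
    have h4 := key r u hr.1 hu.1 hru hr.2 hu.2
    have h6 : (p : ℤ) ∣ 3 * ((s : ℤ) - u) := by
      have h7 := dvd_sub h3 h4
      have h8 : 3 * ((r : ℤ) + s) + 2 * t.1 - (3 * ((r : ℤ) + u) + 2 * t.1) =
          3 * ((s : ℤ) - u) := by ring
      rwa [h8] at h7
    rcases hp'.dvd_or_dvd h6 with h7 | h7
    · have h8 : p ∣ 3 := by exact_mod_cast h7
      have h9 := Nat.le_of_dvd (by norm_num) h8
      omega
    · exact hlt s u hs.1 hu.1 hsu h7

theorem rootCt (t : Tr) {d : ℕ} (hd : Squarefree d) :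
    ((Finset.range d).filter fun r : ℕ => (d : ℤ) ∣ v1 t (r : ℤ)).card ≤ (Nat.divisors d).card ^ 2 := by
  induction d using Nat.strong_induction_on with
  | _ d ih =>
    have hd0 : d ≠ 0 := hd.ne_zero
    by_cases h1 : d = 1
    · subst h1
      refine (Finset.card_filter_le _ _).trans ?_
      simp
    · obtain ⟨m, hm⟩ := Nat.minFac_dvd d
      have hp : (Nat.minFac d).Prime := Nat.minFac_prime h1
      set p := Nat.minFac d with hpdef
      have hm0 : 0 < m := Nat.pos_of_ne_zero (by rintro rfl; omega)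
      rw [hm] at hd
      have hcop : Nat.Coprime p m := Nat.coprime_of_squarefree_mul hd
      have hms : Squarefree m := hd.of_mul_right
      have hlt : m < d := by
        rw [hm]
        have := hp.two_le
        nlinarith
      have h2 := ih m hlt hms
      have h3 := ct_mul t hp.pos hm0 hcop
      have h4 := ct_prime t hp
      have h5 : (Nat.divisors (p * m)).card = 2 * (Nat.divisors m).card := by
        rw [Nat.Coprime.card_divisors_mul hcop, hp.divisors, Finset.card_pair hp.one_lt.ne]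
      rw [hm, h5]
      refine h3.trans ?_
      calc _ ≤ 4 * (Nat.divisors m).card ^ 2 := Nat.mul_le_mul h4 h2
        _ = (2 * (Nat.divisors m).card) ^ 2 := by ring

end Pool.Agent.Work.MP_f2148a_nt.MC
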