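import Pool.Agent.Work.MP_f2148a_nt.MC.Defs

/-!
# MP_f2148a_nt, block MC: the sets of cubic fields in the statement of the hand-in
-/

set_option autoImplicit false

namespace Pool.Agent.Work.MP_f2148a_nt.MC

open Polynomial NumberField

/-- the ring of integers of `F ⊆ ℂ` -/
def OC (F : CF) : Set ℂ := {z | z ∈ F.1 ∧ IsIntegral ℤ z}

/-- `ℤ[α]` -/
def ZC (α : ℂ) : Set ℂ := {z | ∃ P : ℤ[X], aeval α P = z}

/-- the field discriminant `D_F` -/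
noncomputable def dC (F : CF) : ℤ := discr F.1

/-- the isomorphism classes of the cubic fields `F` with `|D_F| ≤ x` that have a generator `α` (the ring of integers
is `ℤ[α]`) with minimal polynomial `T³ + a T² + b T + c` whose integer point
`(4 (a² - 3b), 4 (-2a³ + 9ab - 27c))` on `y² = x³ - 432 D_F` violates Hall's inequality with the constant `B` -/
def HallBad (B x : ℝ) : Set Cl :=
  {e | ∃ F : CF, e = ⟦F⟧ ∧ |(dC F : ℝ)| ≤ x ∧ ∃ (α : ℂ) (a b c : ℤ), OC F = ZC α ∧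
    minpoly ℤ α = X ^ 3 + C a * X ^ 2 + C b * X + C c ∧
    B * |432 * (dC F : ℝ)| ^ 3 <
      max |4 * ((a : ℝ) ^ 2 - 3 * b)| |4 * (-2 * (a : ℝ) ^ 3 + 9 * a * b - 27 * c)|}

/-- the isomorphism classes of the cubic fields with `|D_F| ≤ x` that have generators `α`, `β` such that `β` is for no
integer `n` conjugate to `α + n` or `-α + n` -/
def TwoGen (x : ℝ) : Set Cl :=
  {e | ∃ F : CF, e = ⟦F⟧ ∧ |(dC F : ℝ)| ≤ x ∧ ∃ α β : ℂ, OC F = ZC α ∧ OC F = ZC β ∧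
    ∀ n : ℤ, minpoly ℤ β ≠ minpoly ℤ (α + n) ∧ minpoly ℤ β ≠ minpoly ℤ (-α + n)}

/-- the isomorphism classes of the monogenic cubic fields with `0 < σ D_F ≤ x` -/
def MonoC (σ x : ℝ) : Set Cl :=
  {e | ∃ F : CF, e = ⟦F⟧ ∧ 0 < σ * (dC F : ℝ) ∧ σ * (dC F : ℝ) ≤ x ∧ ∃ α : ℂ, OC F = ZC α}

/-- the area of `0 ≤ σ (y² - x³) ≤ 1` -/
noncomputable def area (σ : ℝ) : ℝ :=
  (MeasureTheory.volume {p : ℝ × ℝ | 0 ≤ σ * (p.2 ^ 2 - p.1 ^ 3) ∧ σ * (p.2 ^ 2 - p.1 ^ 3) ≤ 1}).toReal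

end Pool.Agent.Work.MP_f2148a_nt.MC
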