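import Pool.Agent.Work.MP_f2148a_nt.MC.Alg
import Pool.Agent.Work.MP_f2148a_nt.MC.RootCt
import Pool.Agent.Work.MP_f2148a_nt.MC.Arc

/-!
# MC/Tail1 (size M): few triples for one squarefree `d`

`t = (a, b, c)`. There are 3 values of `a`; for given `a`, `|4 (a² - 3b)| ≤ B` leaves at most `B / 6 + 1 ≤ B + 1` values
of `b` (an interval of length `B / 6`). For given `(a, b)`, by `v_mod` the `r` can be taken in `[0, d)`, with `d ∣ v1 t r`
(depends only on `a, b`), so at most `(number of divisors of d)²` values by `rootCt`. For given `(a, b, r)`: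
`c ≡ -(r³ + a r² + b r) (mod d²)`, so `y = fy t` is in a fixed class modulo `N = 108 d²` and
`0 < -σ (y² - x³) = 432 σ D ≤ 432 X` (`pt_id`) with `x = fx t` fixed; by `arc` (with `-σ`, `u = x³`, `K = 432 X`) there
are at most `2 (√(432 X) / (108 d²) + 1) ≤ 2 (√X / d² + 1)` values of `y`, and `c` is determined by `y`.
So `S.card ≤ 3 (B + 1) τ(d)² · 2 (√X / d² + 1)`. Formally: map `S` into a sigma/product finset, or use
`Finset.card_le_mul_card_image` for `t ↦ (t.1, t.2.1)` and then for `r`. If `d` is squarefree then `d ≥ 1`.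
-/

set_option autoImplicit false

namespace Pool.Agent.Work.MP_f2148a_nt.MC

private theorem fib {α β : Type*} [DecidableEq β] (S : Finset α) (f : α → β) (T : Finset β)
    (hT : ∀ x ∈ S, f x ∈ T) (C : ℝ)
    (hC : ∀ y ∈ T, ((S.filter (fun x => f x = y)).card : ℝ) ≤ C) :
    (S.card : ℝ) ≤ T.card * C := by
  have h1 := Finset.card_eq_sum_card_fiberwise (s := S) (f := f) (t := T) hT
  rw [h1]
  push_cast
  refine (Finset.sum_le_sum hC).trans ?_
  rw [Finset.sum_const, nsmul_eq_mul]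

private theorem ivl (T : Finset ℤ) (x L : ℝ) (hL : 0 ≤ L)
    (h : ∀ b ∈ T, x ≤ (b : ℝ) ∧ (b : ℝ) ≤ x + L) : (T.card : ℝ) ≤ L + 1 := by
  have h1 : T ⊆ Finset.Icc ⌈x⌉ ⌊x + L⌋ := by
    intro b hb
    obtain ⟨h2, h3⟩ := h b hb
    exact Finset.mem_Icc.2 ⟨Int.ceil_le.2 h2, Int.le_floor.2 h3⟩
  have h2 := Finset.card_le_card h1
  rw [Int.card_Icc] at h2
  rcases le_or_gt 0 (⌊x + L⌋ + 1 - ⌈x⌉) with h3 | h3
  · have h4 : (((⌊x + L⌋ + 1 - ⌈x⌉).toNat : ℤ) : ℝ) = ((⌊x + L⌋ + 1 - ⌈x⌉ : ℤ) : ℝ) := by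
      rw [Int.toNat_of_nonneg h3]
    have h5 : (T.card : ℝ) ≤ (((⌊x + L⌋ + 1 - ⌈x⌉).toNat : ℤ) : ℝ) := by
      exact_mod_cast h2
    rw [h4] at h5
    push_cast at h5
    have h6 := Int.floor_le (x + L)
    have h7 := Int.le_ceil x
    linarith
  · rw [Int.toNat_of_nonpos h3.le] at h2
    have h4 : (T.card : ℝ) ≤ 0 := by exact_mod_cast h2
    linarith

theorem tail1 {σ : ℝ} (hσ : σ = 1 ∨ σ = -1) {X B : ℝ} (hX : 1 ≤ X) (hB : 0 ≤ B) {d : ℕ} (hd : Squarefree d)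
    (S : Finset Tr) (hS : ∀ t ∈ S, t ∈ TT σ X ∧ |(fx t : ℝ)| ≤ B ∧
      ∃ r : ℤ, (d : ℤ) ∣ v1 t r ∧ (d : ℤ) ^ 2 ∣ v0 t r) :
    (S.card : ℝ) ≤ 6 * (B + 1) * ((Nat.divisors d).card : ℝ) ^ 2 * (√X / (d : ℝ) ^ 2 + 1) := by
  classical
  have hd0 : 0 < d := Nat.pos_of_ne_zero hd.ne_zero
  have hdZ : (0 : ℤ) < d := by exact_mod_cast hd0
  have hdR : (0 : ℝ) < d := by exact_mod_cast hd0
  -- the root
  have hr : ∀ t ∈ S, ∃ r : ℕ, r < d ∧ (d : ℤ) ∣ v1 t (r : ℤ) ∧ (d : ℤ) ^ 2 ∣ v0 t (r : ℤ) := by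
    intro t ht
    obtain ⟨-, -, r, h1, h0⟩ := hS t ht
    have h2 : (d : ℤ) ∣ r - ((r % (d : ℤ)).toNat : ℤ) := by
      rw [Int.toNat_of_nonneg (Int.emod_nonneg _ hdZ.ne')]
      exact Int.dvd_self_sub_emod
    refine ⟨(r % (d : ℤ)).toNat, ?_, v_mod h1 h0 h2⟩
    have h3 := Int.emod_lt_of_pos r hdZ
    have h4 := Int.emod_nonneg r hdZ.ne'
    omega
  choose! ρ hρ1 hρ2 hρ3 using hr
  have hE : 0 ≤ √X / (d : ℝ) ^ 2 + 1 := by positivity
  -- values of c
  have hc : ∀ (a b : ℤ) (r : ℕ), ((((S.filter (fun t => t.1 = a)).filter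
      (fun t => t.2.1 = b)).filter (fun t => ρ t = r)).card : ℝ) ≤
      2 * (√X / (d : ℝ) ^ 2 + 1) := by
    intro a b r
    set S' := ((S.filter (fun t => t.1 = a)).filter (fun t => t.2.1 = b)).filter
      (fun t => ρ t = r) with hS'
    have hmem : ∀ t ∈ S', t ∈ S ∧ t.1 = a ∧ t.2.1 = b ∧ ρ t = r := by
      intro t ht
      rw [hS', Finset.mem_filter, Finset.mem_filter, Finset.mem_filter] at ht
      exact ⟨ht.1.1.1, ht.1.1.2, ht.1.2, ht.2⟩
    have hinj : Set.InjOn fy (S' : Set Tr) := by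
      intro t ht t' ht' h
      obtain ⟨-, h1, h2, -⟩ := hmem t ht
      obtain ⟨-, h1', h2', -⟩ := hmem t' ht'
      refine Prod.ext (h1.trans h1'.symm) (Prod.ext (h2.trans h2'.symm) ?_)
      simp only [fy, h1, h2, h1', h2'] at h
      linarith
    have hK : (0 : ℝ) ≤ 432 * X := by linarith
    have h1 := arc (σ := -σ) (u := ((4 * (a ^ 2 - 3 * b) : ℤ) : ℝ) ^ 3) (K := 432 * X)
      (by rcases hσ with h | h
          · right; rw [h]
          · left; rw [h, neg_neg]) hK (N := 108 * d ^ 2) (by positivity)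
      (4 * (-2 * a ^ 3 + 9 * a * b - 27 * (-((r : ℤ) ^ 3 + a * (r : ℤ) ^ 2 + b * r))))
      (S'.image fy) (by
        intro y hy
        obtain ⟨t, ht, rfl⟩ := Finset.mem_image.1 hy
        obtain ⟨h2, h3, h4, h5⟩ := hmem t ht
        obtain ⟨⟨-, hD1, hD2⟩, -, -⟩ := hS t h2
        have hpt := pt_id t
        have hfx : fx t = 4 * (a ^ 2 - 3 * b) := by
          simp only [fx, h3, h4]
        have hR : ((fy t : ℝ)) ^ 2 - ((4 * (a ^ 2 - 3 * b) : ℤ) : ℝ) ^ 3 =
            -432 * (D t : ℝ) := by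
          rw [← hfx]
          exact_mod_cast hpt
        rw [hR]
        refine ⟨by nlinarith, by nlinarith, ?_⟩
        have h6 := hρ3 t h2
        rw [h5] at h6
        obtain ⟨k, hk⟩ := h6
        simp only [v0, h3, h4] at hk
        refine ⟨-k, ?_⟩
        simp only [fy, h3, h4]
        push_cast
        linear_combination (-108) * hk)
    rw [Finset.card_image_of_injOn hinj] at h1
    refine h1.trans ?_
    have h2 : √(432 * X) ≤ 108 * √X := by
      rw [show (108 : ℝ) * √X = √((108 : ℝ) ^ 2 * X) by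
        rw [Real.sqrt_mul (by positivity), Real.sqrt_sq (by norm_num)]]
      exact Real.sqrt_le_sqrt (by nlinarith)
    have h3 : √(432 * X) / ((108 * d ^ 2 : ℕ) : ℝ) ≤ √X / (d : ℝ) ^ 2 := by
      push_cast
      rw [div_le_div_iff₀ (by positivity) (by positivity)]
      have h4 : (0 : ℝ) ≤ (d : ℝ) ^ 2 := by positivity
      nlinarith [mul_le_mul_of_nonneg_right h2 h4]
    linarith
  -- values of r
  have hb : ∀ a b : ℤ, (((S.filter (fun t => t.1 = a)).filter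
      (fun t => t.2.1 = b)).card : ℝ) ≤
      ((Nat.divisors d).card : ℝ) ^ 2 * (2 * (√X / (d : ℝ) ^ 2 + 1)) := by
    intro a b
    refine (fib _ ρ ((Finset.range d).filter fun r : ℕ => (d : ℤ) ∣ v1 (a, b, 0) (r : ℤ)) ?_ _
      (fun r _ => hc a b r)).trans ?_
    · intro t ht
      rw [Finset.mem_filter, Finset.mem_filter] at ht
      rw [Finset.mem_filter, Finset.mem_range]
      refine ⟨hρ1 t ht.1.1, ?_⟩
      have h2 := hρ2 t ht.1.1
      simp only [v1, ht.1.2, ht.2] at h2 ⊢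
      exact h2
    · refine mul_le_mul_of_nonneg_right ?_ (by positivity)
      have h3 := rootCt (a, b, 0) hd
      exact_mod_cast h3
  -- values of b
  have ha : ∀ a : ℤ, ((S.filter (fun t => t.1 = a)).card : ℝ) ≤
      (B + 1) * (((Nat.divisors d).card : ℝ) ^ 2 * (2 * (√X / (d : ℝ) ^ 2 + 1))) := by
    intro a
    refine (fib _ (fun t : Tr => t.2.1) ((S.filter (fun t => t.1 = a)).image fun t => t.2.1)
      (fun t ht => Finset.mem_image_of_mem _ ht) _ (fun b _ => hb a b)).trans ?_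
    refine mul_le_mul_of_nonneg_right ?_ (by positivity)
    refine (ivl _ (((a : ℝ) ^ 2 - B / 4) / 3) (B / 6) (by positivity) ?_).trans (by linarith)
    intro b hb
    obtain ⟨t, ht, rfl⟩ := Finset.mem_image.1 hb
    rw [Finset.mem_filter] at ht
    obtain ⟨-, h1, -⟩ := hS t ht.1
    rw [abs_le] at h1
    simp only [fx, ht.2] at h1
    push_cast at h1
    constructor <;> linarith
  refine (fib S (fun t : Tr => t.1) (Finset.Icc 0 2) ?_ _ (fun a _ => ha a)).trans ?_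
  · intro t ht
    obtain ⟨⟨⟨h1, h2⟩, -⟩, -⟩ := hS t ht
    exact Finset.mem_Icc.2 ⟨h1, by omega⟩
  · have h3 : (((Finset.Icc (0 : ℤ) 2).card : ℕ) : ℝ) = 3 := by
      have h4 : (Finset.Icc (0 : ℤ) 2).card = 3 := by rfl
      rw [h4]
      norm_num
    rw [h3]
    apply le_of_eq
    ring

end Pool.Agent.Work.MP_f2148a_nt.MC
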